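import Pool.Agent.Lib.MP_3ede0b_an.SX.Iface

/-! The main estimate. -/

namespace LipSX

open Finset LipFree LipRad

universe u

theorem ext1 {X : Type u} [PseudoMetricSpace X] (M : Set X) (g : M → ℝ)
    (hg : ∀ x y, |g x - g y| ≤ dist x y) :
    ∃ F : X → ℝ, (∀ x y, |F x - F y| ≤ dist x y) ∧ ∀ x : M, F x = g x := by
  classical
  let f0 : X → ℝ := fun x => if h : x ∈ M then g ⟨x, h⟩ else 0
  have hL : LipschitzOnWith 1 f0 M := by
    refine LipschitzOnWith.of_dist_le_mul fun x hx y hy => ?_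
    rw [Real.dist_eq]
    simp only [f0, dif_pos hx, dif_pos hy, NNReal.coe_one, one_mul]
    exact hg ⟨x, hx⟩ ⟨y, hy⟩
  obtain ⟨F, hF1, hF2⟩ := hL.extend_real
  refine ⟨F, fun x y => ?_, fun x => ?_⟩
  · have := hF1.dist_le_mul x y
    rwa [Real.dist_eq, NNReal.coe_one, one_mul] at this
  · rw [← hF2 x.2]
    simp only [f0, dif_pos x.2]

theorem avg_abs_le {k : ℕ} (a : Fin k → ℝ) (ha : ∀ i, ‖a i‖ ≤ 1) :
    avg (fun ε => ‖∑ i, sg (ε i) • a i‖) ≤ Real.sqrt k := by
  have h2 : ∑ i, a i ^ 2 ≤ k := by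
    calc ∑ i, a i ^ 2 ≤ ∑ _i : Fin k, (1 : ℝ) := by
          refine sum_le_sum fun i _ => ?_
          have := ha i
          rw [Real.norm_eq_abs] at this
          rw [← sq_abs]
          have h0 := abs_nonneg (a i)
          nlinarith
      _ = k := by simp
  have h4 := avg_mul_le (fun _ : Fin k → Bool => (1 : ℝ)) (fun ε => |∑ i, sg (ε i) * a i|)
  simp only [one_mul, one_pow, sq_abs, avg_sq, avg_const, Real.sqrt_one] at h4
  have e : ∀ ε : Fin k → Bool, ‖∑ i, sg (ε i) • a i‖ = |∑ i, sg (ε i) * a i| := fun ε => by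
    simp [Real.norm_eq_abs]
  simp only [e]
  exact h4.trans (Real.sqrt_le_sqrt h2)

/-- the trivial lifting -/
theorem lift_trivial (hlif : LifS.{u}) (M : Type u) [PseudoMetricSpace M] (k : ℕ) :
    LiftProp M k k := by
  refine hlif M k k (Nat.cast_nonneg _) le_rfl fun g hg => ⟨fun _ => Set.univ, ?_, ?_⟩
  · intro ε x _ y _
    calc |∑ i, sg (ε i) * (g i x - g i y)| ≤ ∑ i, |sg (ε i) * (g i x - g i y)| :=
          abs_sum_le_sum_abs _ _
      _ ≤ ∑ _i : Fin k, dist x y := by
          refine sum_le_sum fun i _ => ?_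
          rw [abs_mul, abs_sg, one_mul]
          exact hg i x y
      _ = k * dist x y := by simp
  · intro x
    simp only [Set.compl_univ, Set.indicator_empty]
    rw [avg_const]
    positivity

/-- the pair estimate -/
theorem pair_est {X : Type u} [NormedAddCommGroup X] [NormedSpace ℝ X] {k : ℕ}
    (g gg : Fin k → X → ℝ) (C b s r E m T : ℝ) (hC : 0 < C) (hb : 0 < b) (hs : 0 < s)
    (v : Fin k → X → (X →L[ℝ] ℝ)) (x y : X) (ε : Fin k → Bool)
    (h1x : ‖∑ i, sg (ε i) • ((g i x - gg i x) / (C * s))‖ ≤ Real.sqrt k + T * Real.sqrt k)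
    (h1y : ‖∑ i, sg (ε i) • ((g i y - gg i y) / (C * s))‖ ≤ Real.sqrt k + T * Real.sqrt k)
    (h2x : ‖∑ i, sg (ε i) • v i x‖ ≤ m + T * Real.sqrt k)
    (h3 : ∀ i, |gg i y - gg i x - C * b * v i x (y - x)| ≤ E) :
    |∑ i, sg (ε i) * (g i x - g i y)| ≤ 2 * (C * s) * ((1 + T) * Real.sqrt k) +
      C * b * (m + T * Real.sqrt k) * ‖y - x‖ + k * E := by
  have hCs : 0 < C * s := by positivity
  have e1 : ∀ z, ∑ i, sg (ε i) * (g i z - gg i z) =
      C * s * ∑ i, sg (ε i) • ((g i z - gg i z) / (C * s)) := by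
    intro z
    rw [mul_sum]
    refine sum_congr rfl fun i _ => ?_
    rw [smul_eq_mul]
    field_simp
  have e2 : ∑ i, sg (ε i) * (g i x - g i y) =
      ∑ i, sg (ε i) * (g i x - gg i x) - ∑ i, sg (ε i) * (g i y - gg i y) -
      (∑ i, sg (ε i) * (gg i y - gg i x - C * b * v i x (y - x)) +
        C * b * (∑ i, sg (ε i) • v i x) (y - x)) := by
    have e3 : (∑ i, sg (ε i) • v i x) (y - x) = ∑ i, sg (ε i) * v i x (y - x) := by
      rw [_root_.sum_apply]
      rfl
    rw [e3, mul_sum, ← sum_add_distrib, ← sum_sub_distrib, ← sum_sub_distrib]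
    exact sum_congr rfl fun i _ => by ring
  have a1 : |∑ i, sg (ε i) * (g i x - gg i x)| ≤ C * s * ((1 + T) * Real.sqrt k) := by
    rw [e1, abs_mul, abs_of_pos hCs]
    refine mul_le_mul_of_nonneg_left ?_ hCs.le
    rw [Real.norm_eq_abs] at h1x
    linarith
  have a2 : |∑ i, sg (ε i) * (g i y - gg i y)| ≤ C * s * ((1 + T) * Real.sqrt k) := by
    rw [e1, abs_mul, abs_of_pos hCs]
    refine mul_le_mul_of_nonneg_left ?_ hCs.le
    rw [Real.norm_eq_abs] at h1y
    linarith
  have a3 : |∑ i, sg (ε i) * (gg i y - gg i x - C * b * v i x (y - x))| ≤ k * E := by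
    calc _ ≤ ∑ i, |sg (ε i) * (gg i y - gg i x - C * b * v i x (y - x))| :=
          abs_sum_le_sum_abs _ _
      _ ≤ ∑ _i : Fin k, E := by
          refine sum_le_sum fun i _ => ?_
          rw [abs_mul, abs_sg, one_mul]
          exact h3 i
      _ = k * E := by simp
  have a4 : |C * b * (∑ i, sg (ε i) • v i x) (y - x)| ≤
      C * b * (m + T * Real.sqrt k) * ‖y - x‖ := by
    rw [abs_mul, abs_of_pos (by positivity : 0 < C * b), mul_assoc (C * b)]
    refine mul_le_mul_of_nonneg_left ?_ (by positivity)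
    have := (∑ i, sg (ε i) • v i x).le_opNorm (y - x)
    rw [Real.norm_eq_abs] at this
    exact this.trans (mul_le_mul_of_nonneg_right h2x (norm_nonneg _))
  rw [e2]
  rw [abs_le] at a1 a2 a3 a4 ⊢
  constructor <;> linarith [a1.1, a1.2, a2.1, a2.2, a3.1, a3.2, a4.1, a4.2]

theorem lift_scales (hcon : ConS.{u}) (hcon0 : ConS.{0}) (htyp : TypS.{u}) (hlif : LifS.{u})
    (C α q c b : ℝ) (hC : 1 ≤ C) (hα : 0 < α) (hq : 1 < q) (hc : 0 < c) (hb : 1 ≤ b)
    (X : Type u) [NormedAddCommGroup X] [NormedSpace ℝ X] (N : Seminorm ℝ X)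
    (hN1 : ∀ x, ‖x‖ ≤ N x) (hN2 : ∀ x, N x ≤ b * ‖x‖) (hQ : QConvex N q c)
    (hS : Smoothing N C α) (M : Set X) (L : ℕ) (hL : 2 ≤ L) (hF : FewScales M L)
    (k : ℕ) (hk : 1 ≤ k) (T : ℝ) (hT1 : 1 ≤ T) (hTk : T ≤ Real.sqrt k)
    (hT : Real.exp (-(T ^ 2 / 2)) ≤ 1 / (16 * k * L)) :
    LiftProp M k (min (b * C * (11 * (k * (T / Real.sqrt k) ^ (α / (1 + α))) +
      b * (2 / c) ^ (1 / q) * (k : ℝ) ^ (1 - 1 / q))) k) := by
  classical
  have hk0 : (0 : ℝ) < k := by exact_mod_cast hk
  have hL0 : (0 : ℝ) < L := by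
    have : (2 : ℝ) ≤ L := by exact_mod_cast hL
    linarith
  have hC0 : 0 < C := by linarith
  have hb0 : 0 < b := by linarith
  have hT0 : 0 < T := by linarith
  have hsk : 0 < Real.sqrt k := Real.sqrt_pos.mpr hk0
  have hα1 : 0 < 1 + α := by linarith
  set m : ℝ := b * (2 / c) ^ (1 / q) * (k : ℝ) ^ (1 - 1 / q) with hm
  have hm0 : 0 ≤ m := by positivity
  set ρ : ℝ := (T / Real.sqrt k) ^ (1 / (1 + α)) with hρ
  have hρ0 : 0 < ρ := by positivity
  have hTk1 : T / Real.sqrt k ≤ 1 := (div_le_one hsk).mpr hTk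
  have hρ1 : ρ ≤ 1 := Real.rpow_le_one (by positivity) hTk1 (by positivity)
  have hρα : ρ ^ α = (T / Real.sqrt k) ^ (α / (1 + α)) := by
    rw [hρ, ← Real.rpow_mul (by positivity)]
    congr 1
    field_simp
  have hρT : ρ * ρ ^ α = T / Real.sqrt k := by
    rw [hρα, hρ, ← Real.rpow_add (by positivity)]
    have : 1 / (1 + α) + α / (1 + α) = 1 := by field_simp
    rw [this, Real.rpow_one]
  set K0 : ℝ := b * C * (11 * (k * ρ ^ α) + m) with hK0
  have hK00 : 0 ≤ K0 := by positivity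
  have hK0' : b * C * (11 * (k * (T / Real.sqrt k) ^ (α / (1 + α))) + m) = K0 := by
    rw [hK0, hρα]
  rw [hK0']
  refine hlif M k (min K0 k) (le_min hK00 hk0.le) (min_le_right _ _) fun g hg => ?_
  -- extension of the functions
  choose G0 hG1 hG2 using fun i => ext1 M (g i) (hg i)
  have hNL : ∀ i, NLip N (G0 i) := fun i x y => by
    have := hG1 i x y
    rw [dist_eq_norm] at this
    exact this.trans (hN1 _)
  -- scales
  let r : ℤ → ℝ := fun n => b * (2 : ℝ) ^ (n + 1)
  let s : ℤ → ℝ := fun n => r n / ρ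
  have hr0 : ∀ n, 0 < r n := fun n => by positivity
  have hs0 : ∀ n, 0 < s n := fun n => div_pos (hr0 n) hρ0
  have hrs : ∀ n, r n ≤ s n := fun n => by
    rw [le_div_iff₀ hρ0]
    have := mul_le_mul_of_nonneg_left hρ1 (hr0 n).le
    linarith
  have hrsρ : ∀ n, r n / s n = ρ := fun n => by
    simp only [s]
    have := (hr0 n).ne'
    field_simp
  choose gg hgg1 hgg2 using fun (n : ℤ) (i : Fin k) => hS (r n) (s n) (hr0 n) (hrs n) (G0 i) (hNL i)
  choose V hV1 hV2 using hgg2
  let v : ℤ → Fin k → X → (X →L[ℝ] ℝ) := fun n i x =>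
    (C * b)⁻¹ • (V n i x).mkContinuous (C * b) (fun h => by
      rw [Real.norm_eq_abs]
      refine (hV1 n i x h).trans ?_
      rw [mul_assoc]
      exact mul_le_mul_of_nonneg_left (hN2 h) hC0.le)
  have hCb : 0 < C * b := by positivity
  have hv1 : ∀ n i x, ‖v n i x‖ ≤ 1 := by
    intro n i x
    simp only [v]
    rw [norm_smul, norm_inv, Real.norm_eq_abs, abs_of_pos hCb, inv_mul_le_iff₀ hCb, mul_one]
    exact LinearMap.mkContinuous_norm_le _ hCb.le _
  have hv2 : ∀ n i x h, C * b * v n i x h = V n i x h := by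
    intro n i x h
    simp only [v]
    rw [_root_.smul_apply, LinearMap.mkContinuous_apply, smul_eq_mul]
    field_simp
  -- the good sets
  let B1 : ℤ → X → (Fin k → Bool) → Prop := fun n x ε =>
    Real.sqrt k + T * Real.sqrt k < ‖∑ i, sg (ε i) • ((G0 i x - gg n i x) / (C * s n))‖
  let B2 : ℤ → X → (Fin k → Bool) → Prop := fun n x ε =>
    m + T * Real.sqrt k < ‖∑ i, sg (ε i) • v n i x‖
  let G : (Fin k → Bool) → Set M := fun ε => {x | ∀ n ∈ scalesAt M (x : X), ¬ B1 n x ε ∧ ¬ B2 n x ε}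
  have hP1 : ∀ n x, avg (fun ε => if B1 n x ε then (1 : ℝ) else 0) ≤ Real.exp (-(T ^ 2 / 2)) := by
    intro n x
    have ha : ∀ i, ‖(G0 i x - gg n i x) / (C * s n)‖ ≤ 1 := by
      intro i
      have h1 := hgg1 n i x
      have h2 : 0 < C * s n := mul_pos hC0 (hs0 n)
      rw [norm_div, Real.norm_eq_abs, Real.norm_eq_abs, abs_of_pos h2, div_le_one h2]
      exact h1
    exact hcon0 ℝ k _ (Real.sqrt k) T ha (avg_abs_le _ ha) hT0.le
  have hP2 : ∀ n x, avg (fun ε => if B2 n x ε then (1 : ℝ) else 0) ≤ Real.exp (-(T ^ 2 / 2)) := by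
    intro n x
    exact hcon (X →L[ℝ] ℝ) k _ m T (fun i => hv1 n i x)
      (htyp X N q c b hq hc hb0.le hN1 hN2 hQ k _ (fun i => hv1 n i x)) hT0.le
  refine ⟨G, ?_, ?_⟩
  · intro ε x hx y hy
    have htriv : |∑ i, sg (ε i) * (g i x - g i y)| ≤ k * dist x y := by
      calc |∑ i, sg (ε i) * (g i x - g i y)| ≤ ∑ i, |sg (ε i) * (g i x - g i y)| :=
            abs_sum_le_sum_abs _ _
        _ ≤ ∑ _i : Fin k, dist x y := by
            refine sum_le_sum fun i _ => ?_
            rw [abs_mul, abs_sg, one_mul]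
            exact hg i x y
        _ = k * dist x y := by simp
    rcases eq_or_ne x y with rfl | hxy
    · simp
    have hd : 0 < dist (x : X) (y : X) := dist_pos.mpr (fun h => hxy (Subtype.ext h))
    have hmin : min K0 (k : ℝ) * dist x y = min (K0 * dist x y) (k * dist x y) :=
      min_mul_of_nonneg _ _ dist_nonneg
    rw [hmin, le_min_iff]
    refine ⟨?_, htriv⟩
    -- the scale of the pair
    set n : ℤ := Int.log 2 (dist (x : X) (y : X)) with hn
    have hn1 : (2 : ℝ) ^ n ≤ dist (x : X) y := by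
      have := Int.zpow_log_le_self (b := 2) (by norm_num) hd
      exact_mod_cast this
    have hn2 : dist (x : X) y < (2 : ℝ) ^ (n + 1) := by
      have := Int.lt_zpow_succ_log_self (b := 2) (by norm_num) (dist (x : X) (y : X))
      exact_mod_cast this
    have hx' := hx n ⟨y, y.2, hn1, hn2⟩
    have hy' := hy n ⟨x, x.2, by rw [dist_comm]; exact hn1, by rw [dist_comm]; exact hn2⟩
    have hE : ∀ i, |gg n i y - gg n i x - C * b * v n i x ((y : X) - x)| ≤ C * r n * ρ ^ α := by
      intro i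
      rw [hv2]
      have h1 : N ((y : X) - x) ≤ r n := by
        refine (hN2 _).trans ?_
        rw [← dist_eq_norm, dist_comm]
        exact mul_le_mul_of_nonneg_left hn2.le hb0.le
      have h2 := hV2 n i x _ h1
      rw [add_sub_cancel, hrsρ] at h2
      exact h2
    have h := pair_est G0 (gg n) C b (s n) (r n) (C * r n * ρ ^ α) m T hC0 hb0 (hs0 n)
      (v n) (x : X) (y : X) ε (not_lt.mp hx'.1) (not_lt.mp hy'.1) (not_lt.mp hx'.2) hE
    have e1 : ∑ i, sg (ε i) * (g i x - g i y) = ∑ i, sg (ε i) * (G0 i x - G0 i y) := by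
      refine sum_congr rfl fun i _ => ?_
      rw [hG2, hG2]
    rw [e1]
    refine h.trans ?_
    have hdn : ‖(y : X) - x‖ = dist (x : X) y := by rw [dist_comm, dist_eq_norm]
    rw [hdn]
    set d : ℝ := dist (x : X) (y : X) with hdd
    have hdxy : dist x y = d := rfl
    rw [hdxy]
    -- r n ≤ 2 b d
    have hr2 : r n ≤ 2 * b * d := by
      simp only [r]
      rw [zpow_add_one₀ (by norm_num)]
      nlinarith
    -- T sqrt k = k ρ ρ^α
    have hTs : T * Real.sqrt k = k * (ρ * ρ ^ α) := by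
      rw [hρT]
      have : (k : ℝ) = Real.sqrt k * Real.sqrt k := (Real.mul_self_sqrt hk0.le).symm
      nth_rewrite 2 [this]
      field_simp
    set P : ℝ := ρ ^ α with hP
    have hP0 : 0 < P := by positivity
    have b1 : 2 * (C * s n) * ((1 + T) * Real.sqrt k) ≤ b * C * (8 * (k * P)) * d := by
      have h5 : (1 + T) * Real.sqrt k ≤ 2 * (k * (ρ * P)) := by
        rw [← hTs]; nlinarith
      have h6 : s n * ρ = r n := by simp only [s]; field_simp
      calc 2 * (C * s n) * ((1 + T) * Real.sqrt k) ≤ 2 * (C * s n) * (2 * (k * (ρ * P))) :=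
            mul_le_mul_of_nonneg_left h5 (by have := hs0 n; positivity)
        _ = 4 * C * k * P * (s n * ρ) := by ring
        _ = 4 * C * k * P * r n := by rw [h6]
        _ ≤ 4 * C * k * P * (2 * b * d) := mul_le_mul_of_nonneg_left hr2 (by positivity)
        _ = _ := by ring
    have b2 : C * b * (m + T * Real.sqrt k) * d ≤ b * C * (k * P + m) * d := by
      have h5 : T * Real.sqrt k ≤ k * P := by
        rw [hTs]
        have : ρ * P ≤ 1 * P := mul_le_mul_of_nonneg_right hρ1 hP0.le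
        rw [one_mul] at this
        exact mul_le_mul_of_nonneg_left this hk0.le
      have h6 : C * b * (m + T * Real.sqrt k) ≤ b * C * (k * P + m) := by
        rw [mul_comm C b]
        exact mul_le_mul_of_nonneg_left (by linarith) (by positivity)
      exact mul_le_mul_of_nonneg_right h6 hd.le
    have b3 : k * (C * r n * P) ≤ b * C * (2 * (k * P)) * d := by
      calc k * (C * r n * P) = k * C * P * r n := by ring
        _ ≤ k * C * P * (2 * b * d) := mul_le_mul_of_nonneg_left hr2 (by positivity)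
        _ = _ := by ring
    have b4 : K0 * d = b * C * (8 * (k * P)) * d + b * C * (k * P + m) * d +
        b * C * (2 * (k * P)) * d := by rw [hK0]; ring
    linarith
  · intro x
    have hfin := (hF x x.2).1
    have hcard : (hfin.toFinset.card : ℝ) ≤ L := by
      rw [← Set.ncard_eq_toFinset_card _ hfin]
      exact_mod_cast (hF x x.2).2
    calc avg (fun ε => (G ε)ᶜ.indicator (fun _ => (1 : ℝ)) x)
        ≤ avg (fun ε => ∑ n ∈ hfin.toFinset, ((if B1 n x ε then (1 : ℝ) else 0) +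
            (if B2 n x ε then (1 : ℝ) else 0))) := by
          refine avg_mono fun ε => ?_
          have hnn : ∀ n ∈ hfin.toFinset, (0 : ℝ) ≤ (if B1 n x ε then (1 : ℝ) else 0) +
            (if B2 n x ε then (1 : ℝ) else 0) := by
            intro n _
            refine add_nonneg ?_ ?_ <;> split_ifs <;> norm_num
          by_cases hx : x ∈ G ε
          · rw [Set.indicator_of_notMem (by simpa using hx)]
            exact sum_nonneg hnn
          · rw [Set.indicator_of_mem (by simpa using hx)]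
            have hx2 : ¬ ∀ n ∈ scalesAt M (x : X), ¬ B1 n x ε ∧ ¬ B2 n x ε := hx
            push Not at hx2
            obtain ⟨n, hn, hbad⟩ := hx2
            have hn' : n ∈ hfin.toFinset := hfin.mem_toFinset.mpr hn
            refine le_trans ?_ (single_le_sum hnn hn')
            by_cases h1 : B1 n x ε
            · rw [if_pos h1]
              have : (0 : ℝ) ≤ (if B2 n x ε then (1 : ℝ) else 0) := by split_ifs <;> norm_num
              linarith
            · rw [if_pos (hbad h1)]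
              have : (0 : ℝ) ≤ (if B1 n x ε then (1 : ℝ) else 0) := by split_ifs <;> norm_num
              linarith
      _ = ∑ n ∈ hfin.toFinset, (avg (fun ε => if B1 n x ε then (1 : ℝ) else 0) +
            avg (fun ε => if B2 n x ε then (1 : ℝ) else 0)) := by
          rw [avg_sum]
          exact sum_congr rfl fun n _ => avg_add _ _
      _ ≤ ∑ _n ∈ hfin.toFinset, (2 * Real.exp (-(T ^ 2 / 2))) := by
          refine sum_le_sum fun n _ => ?_
          linarith [hP1 n x, hP2 n x]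
      _ = hfin.toFinset.card * (2 * Real.exp (-(T ^ 2 / 2))) := by
          rw [sum_const, nsmul_eq_mul]
      _ ≤ L * (2 * (1 / (16 * k * L))) := by
          refine mul_le_mul hcard (mul_le_mul_of_nonneg_left hT (by norm_num)) ?_ hL0.le
          positivity
      _ = 1 / (8 * k) := by
          field_simp
          norm_num

theorem asm_numeric (C q c b : ℝ) (hC : 1 ≤ C) (hq : 1 < q) (hc : 0 < c) (hb : 1 ≤ b)
    (α : ℝ) (hα : 0 < α) (k L : ℝ) (hk : 1 ≤ k) (hL : 2 ≤ L) (T : ℝ) (hT0 : 0 ≤ T)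
    (hT : T ^ 2 = 2 * Real.log (16 * k * L)) (hTk : T ≤ Real.sqrt k) :
    2 * (b * C * (11 * (k * (T / Real.sqrt k) ^ (α / (1 + α))) +
      b * (2 / c) ^ (1 / q) * k ^ (1 - 1 / q))) ≤
    7 * b * C * (11 + b * (2 / c) ^ (1 / q)) * k *
      (Real.log (k * L) / k) ^ (min (α / (2 * (1 + α))) (1 / q)) := by
  have hk0 : 0 < k := by linarith
  have hL0 : 0 < L := by linarith
  have hkL : 2 ≤ k * L := by nlinarith
  have hlog2 : 0 < Real.log 2 := Real.log_pos (by norm_num)
  have hlog2' := Real.log_two_gt_d9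
  have hlkL : Real.log 2 ≤ Real.log (k * L) := Real.log_le_log (by norm_num) hkL
  have hl16 : Real.log (16 * k * L) = 4 * Real.log 2 + Real.log (k * L) := by
    rw [mul_assoc, Real.log_mul (by norm_num) (by positivity)]
    congr 1
    rw [show (16 : ℝ) = 2 ^ 4 by norm_num, Real.log_pow]
    norm_num
  set ℓ : ℝ := Real.log (k * L) with hℓ
  have hℓ0 : 0 < ℓ := by linarith
  set δ : ℝ := min (α / (2 * (1 + α))) (1 / q) with hδ
  have hδ1 : δ ≤ α / (2 * (1 + α)) := min_le_left _ _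
  have hδ2 : δ ≤ 1 / q := min_le_right _ _
  have hδ0 : 0 < δ := lt_min (by positivity) (by positivity)
  have hδh : δ ≤ 1 / 2 := by
    refine hδ1.trans ?_
    rw [div_le_div_iff₀ (by positivity) (by norm_num)]
    linarith
  set τ : ℝ := T ^ 2 / k with hτ
  have hT1 : 1 ≤ T ^ 2 := by rw [hT, hl16]; linarith
  have hT2 : T ^ 2 ≤ 10 * ℓ := by rw [hT, hl16]; linarith
  have hτ0 : 0 < τ := by positivity
  have hτ1 : τ ≤ 1 := by
    rw [hτ, div_le_one hk0]
    have := pow_le_pow_left₀ hT0 hTk 2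
    rwa [Real.sq_sqrt hk0.le] at this
  have hsq : T / Real.sqrt k = τ ^ ((1 : ℝ) / 2) := by
    rw [hτ, ← Real.sqrt_eq_rpow, Real.sqrt_div (sq_nonneg T), Real.sqrt_sq hT0]
  have h1 : (T / Real.sqrt k) ^ (α / (1 + α)) ≤ τ ^ δ := by
    rw [hsq, ← Real.rpow_mul hτ0.le]
    refine Real.rpow_le_rpow_of_exponent_ge hτ0 hτ1 ?_
    refine hδ1.trans (le_of_eq ?_)
    field_simp
  have h2 : k ^ (1 - 1 / q) ≤ k * τ ^ δ := by
    rw [Real.rpow_sub hk0, Real.rpow_one, div_eq_mul_inv]
    refine mul_le_mul_of_nonneg_left ?_ hk0.le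
    rw [← Real.inv_rpow hk0.le]
    calc k⁻¹ ^ (1 / q) ≤ τ ^ (1 / q) := by
          refine Real.rpow_le_rpow (by positivity) ?_ (by positivity)
          rw [hτ, inv_eq_one_div]
          exact div_le_div_of_nonneg_right hT1 hk0.le
      _ ≤ τ ^ δ := Real.rpow_le_rpow_of_exponent_ge hτ0 hτ1 hδ2
  have h3 : τ ^ δ ≤ 3.2 * (ℓ / k) ^ δ := by
    calc τ ^ δ ≤ (10 * (ℓ / k)) ^ δ := by
          refine Real.rpow_le_rpow hτ0.le ?_ hδ0.le
          rw [hτ, ← mul_div_assoc]
          exact div_le_div_of_nonneg_right hT2 hk0.le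
      _ = 10 ^ δ * (ℓ / k) ^ δ := Real.mul_rpow (by norm_num) (by positivity)
      _ ≤ 3.2 * (ℓ / k) ^ δ := by
          refine mul_le_mul_of_nonneg_right ?_ (by positivity)
          calc (10 : ℝ) ^ δ ≤ 10 ^ ((1 : ℝ) / 2) :=
                Real.rpow_le_rpow_of_exponent_le (by norm_num) hδh
            _ = Real.sqrt 10 := (Real.sqrt_eq_rpow 10).symm
            _ ≤ 3.2 := by
                rw [Real.sqrt_le_left (by norm_num)]; norm_num
  set D : ℝ := b * (2 / c) ^ (1 / q) with hD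
  have hD0 : 0 ≤ D := by positivity
  set Q : ℝ := (ℓ / k) ^ δ with hQ
  have hQ0 : 0 ≤ Q := by positivity
  have hbC : 0 < b * C := by nlinarith
  calc 2 * (b * C * (11 * (k * (T / Real.sqrt k) ^ (α / (1 + α))) + D * k ^ (1 - 1 / q)))
      ≤ 2 * (b * C * (11 * (k * τ ^ δ) + D * (k * τ ^ δ))) := by
        refine mul_le_mul_of_nonneg_left (mul_le_mul_of_nonneg_left ?_ hbC.le) (by norm_num)
        have i1 := mul_le_mul_of_nonneg_left h1 hk0.le
        have i2 := mul_le_mul_of_nonneg_left h2 hD0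
        linarith
    _ = 2 * (b * C) * (11 + D) * k * τ ^ δ := by ring
    _ ≤ 2 * (b * C) * (11 + D) * k * (3.2 * Q) :=
        mul_le_mul_of_nonneg_left h3 (by positivity)
    _ ≤ 7 * b * C * (11 + D) * k * Q := by
        have : 0 ≤ (b * C) * (11 + D) * k * Q := by positivity
        linarith

theorem asm (hcon : ConS.{u}) (hcon0 : ConS.{0}) (htyp : TypS.{u}) (hlif : LifS.{u})
    (hdua : DuaS.{u}) : AsmS.{u} := by
  intro C α q c b hC hα hq hc hb X _ _ N hN1 hN2 hQ hS e M L he hL hF k m hk hm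
  have hk0 : (0 : ℝ) < k := by exact_mod_cast hk
  have hk1 : (1 : ℝ) ≤ k := by exact_mod_cast hk
  have hL2 : (2 : ℝ) ≤ L := by exact_mod_cast hL
  have hkL : (2 : ℝ) ≤ k * L := by nlinarith
  have hlog2 := Real.log_two_gt_d9
  have hlkL : Real.log 2 ≤ Real.log (k * L) := Real.log_le_log (by norm_num) hkL
  have hl16 : Real.log (16 * k * L) = 4 * Real.log 2 + Real.log (k * L) := by
    rw [mul_assoc, Real.log_mul (by norm_num) (by positivity)]
    congr 1
    rw [show (16 : ℝ) = 2 ^ 4 by norm_num, Real.log_pow]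
    norm_num
  have hA : 0 ≤ signAvg m := by unfold signAvg; positivity
  set T : ℝ := Real.sqrt (2 * Real.log (16 * k * L)) with hT
  have hT2 : T ^ 2 = 2 * Real.log (16 * k * L) := Real.sq_sqrt (by rw [hl16]; linarith)
  have hT0 : 0 ≤ T := Real.sqrt_nonneg _
  have hT1 : 1 ≤ T := by
    rw [hT]
    apply Real.le_sqrt_of_sq_le
    rw [hl16]; linarith
  have hexp : Real.exp (-(T ^ 2 / 2)) ≤ 1 / (16 * k * L) := by
    rw [hT2, mul_div_cancel_left₀ _ (by norm_num : (2 : ℝ) ≠ 0), Real.exp_neg,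
      Real.exp_log (by positivity), one_div]
  rcases le_or_gt T (Real.sqrt k) with hTk | hTk
  · have h1 := lift_scales hcon hcon0 htyp hlif C α q c b hC hα hq hc hb X N hN1 hN2 hQ hS M L
      hL hF k hk T hT1 hTk hexp
    have h2 := hdua X e M he k _ (le_min (by positivity) hk0.le) h1 m hm
    refine h2.trans (mul_le_mul_of_nonneg_right ?_ hA)
    refine le_trans (mul_le_mul_of_nonneg_left (min_le_left _ _) (by norm_num)) ?_
    exact asm_numeric C q c b hC hq hc hb α hα k L hk1 hL2 T hT0 hT2 hTk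
  · have h1 := lift_trivial hlif M k
    have h2 := hdua X e M he k _ hk0.le h1 m hm
    refine h2.trans (mul_le_mul_of_nonneg_right ?_ hA)
    set δ : ℝ := min (α / (2 * (1 + α))) (1 / q) with hδ
    have hδ1 : δ ≤ α / (2 * (1 + α)) := min_le_left _ _
    have hδ0 : 0 < δ := lt_min (by positivity) (by positivity)
    have hδh : δ ≤ 1 := by
      refine hδ1.trans ?_
      rw [div_le_one (by positivity)]
      linarith
    have h3 : (k : ℝ) < T ^ 2 := by
      have := pow_lt_pow_left₀ hTk (Real.sqrt_nonneg _) (by norm_num : (2 : ℕ) ≠ 0)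
      rwa [Real.sq_sqrt hk0.le] at this
    have h4 : 1 / 10 ≤ Real.log (k * L) / k := by
      rw [div_le_div_iff₀ (by norm_num) hk0]
      rw [hT2, hl16] at h3
      linarith
    have h5 : (1 / 10 : ℝ) ≤ (Real.log (k * L) / k) ^ δ := by
      calc (1 / 10 : ℝ) = (1 / 10 : ℝ) ^ (1 : ℝ) := (Real.rpow_one _).symm
        _ ≤ (1 / 10 : ℝ) ^ δ :=
            Real.rpow_le_rpow_of_exponent_ge (by norm_num) (by norm_num) hδh
        _ ≤ _ := Real.rpow_le_rpow (by norm_num) h4 hδ0.le
    set D : ℝ := b * (2 / c) ^ (1 / q) with hD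
    have hD0 : 0 ≤ D := by positivity
    have hbC : 1 ≤ b * C := by nlinarith
    calc 2 * (k : ℝ) ≤ 7 * (b * C) * (11 + D) * k * (1 / 10) := by
          have h6 : 11 ≤ (b * C) * (11 + D) := by nlinarith
          nlinarith
      _ ≤ 7 * (b * C) * (11 + D) * k * (Real.log (k * L) / k) ^ δ :=
          mul_le_mul_of_nonneg_left h5 (by positivity)
      _ = _ := by ring

end LipSX
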