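import Pool.Agent.Lib.MP_3ede0b_an.SX.Iface

/-! Row CON: concentration of the norm of a sum with random signs. -/

namespace LipSX

open Finset LipFree LipRad

universe u

namespace Cnc

theorem avg_succ {k : ℕ} (F : (Fin (k + 1) → Bool) → ℝ) :
    avg F = (avg (fun ε : Fin k → Bool => F (Fin.cons true ε)) +
      avg (fun ε : Fin k → Bool => F (Fin.cons false ε))) / 2 := by
  have h : ∑ ε : Fin (k + 1) → Bool, F ε = ∑ ε : Fin k → Bool, F (Fin.cons true ε) +
      ∑ ε : Fin k → Bool, F (Fin.cons false ε) := by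
    rw [← Equiv.sum_comp (Fin.consEquiv (fun _ : Fin (k + 1) => Bool)), Fintype.sum_prod_type,
      Fintype.sum_bool]
    rfl
  unfold avg
  rw [h, pow_succ]
  field_simp

theorem conc : ∀ (k : ℕ) (F : (Fin k → Bool) → ℝ),
    (∀ i ε, |F (Function.update ε i true) - F (Function.update ε i false)| ≤ 2) → ∀ t : ℝ,
      avg (fun ε => Real.exp (t * (F ε - avg F))) ≤ Real.exp (t ^ 2 * k / 2) := by
  intro k
  induction k with
  | zero =>
    intro F _ t
    have h1 : ∀ ε, F ε = avg F := by
      intro ε
      have h2 : avg F = avg (fun _ : Fin 0 → Bool => F ε) := by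
        unfold avg
        have h3 : ∀ ε' : Fin 0 → Bool, F ε' = F ε := fun ε' => by rw [Subsingleton.elim ε' ε]
        simp only [h3]
      rw [h2, avg_const]
    have h2 : (fun ε => Real.exp (t * (F ε - avg F))) = fun _ => (1 : ℝ) := by
      funext ε
      rw [← h1 ε, sub_self, mul_zero, Real.exp_zero]
    rw [h2, avg_const]
    simp
  | succ k ih =>
    intro F hF t
    set FT : (Fin k → Bool) → ℝ := fun ε => F (Fin.cons true ε) with hFT
    set FF : (Fin k → Bool) → ℝ := fun ε => F (Fin.cons false ε) with hFF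
    have hT := ih FT (fun i ε => by
      have h1 := hF i.succ (Fin.cons true ε)
      rw [← Fin.cons_update, ← Fin.cons_update] at h1
      exact h1) t
    have hG := ih FF (fun i ε => by
      have h1 := hF i.succ (Fin.cons false ε)
      rw [← Fin.cons_update, ← Fin.cons_update] at h1
      exact h1) t
    have hd : ∀ ε, |FT ε - FF ε| ≤ 2 := by
      intro ε
      have h1 := hF 0 (Fin.cons true ε)
      rw [Fin.update_cons_zero, Fin.update_cons_zero] at h1
      exact h1
    set a := avg FT with ha
    set b := avg FF with hb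
    have hm : avg F = (a + b) / 2 := avg_succ F
    have hab1 : a - b ≤ 2 := by
      have h1 : a - b = avg (fun ε => FT ε - FF ε) := (avg_sub FT FF).symm
      rw [h1]
      calc _ ≤ avg (fun _ : Fin k → Bool => (2 : ℝ)) := avg_mono fun ε => (abs_le.1 (hd ε)).2
        _ = 2 := avg_const 2
    have hab2 : -2 ≤ a - b := by
      have h1 : a - b = avg (fun ε => FT ε - FF ε) := (avg_sub FT FF).symm
      rw [h1]
      calc (-2 : ℝ) = avg (fun _ : Fin k → Bool => (-2 : ℝ)) := (avg_const (-2)).symm
        _ ≤ _ := avg_mono fun ε => (abs_le.1 (hd ε)).1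
    rw [avg_succ, hm]
    have e1 : (fun ε : Fin k → Bool => Real.exp (t * (F (Fin.cons true ε) - (a + b) / 2))) =
        fun ε => Real.exp (t * ((a - b) / 2)) * Real.exp (t * (FT ε - a)) := by
      funext ε
      rw [← Real.exp_add]
      congr 1
      simp only [hFT]
      ring
    have e2 : (fun ε : Fin k → Bool => Real.exp (t * (F (Fin.cons false ε) - (a + b) / 2))) =
        fun ε => Real.exp (-(t * ((a - b) / 2))) * Real.exp (t * (FF ε - b)) := by
      funext ε
      rw [← Real.exp_add]
      congr 1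
      simp only [hFF]
      ring
    rw [e1, e2, avg_smul, avg_smul]
    have hs : (t * ((a - b) / 2)) ^ 2 / 2 ≤ t ^ 2 / 2 := by
      have h1 : ((a - b) / 2) ^ 2 ≤ 1 := by nlinarith
      have h2 := mul_le_mul_of_nonneg_left h1 (sq_nonneg t)
      rw [mul_pow]
      linarith
    calc _ ≤ (Real.exp (t * ((a - b) / 2)) * Real.exp (t ^ 2 * k / 2) +
          Real.exp (-(t * ((a - b) / 2))) * Real.exp (t ^ 2 * k / 2)) / 2 := by
          have h1 := mul_le_mul_of_nonneg_left hT (Real.exp_pos (t * ((a - b) / 2))).le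
          have h2 := mul_le_mul_of_nonneg_left hG (Real.exp_pos (-(t * ((a - b) / 2)))).le
          linarith
      _ = Real.exp (t ^ 2 * k / 2) * Real.cosh (t * ((a - b) / 2)) := by
          rw [Real.cosh_eq]; ring
      _ ≤ Real.exp (t ^ 2 * k / 2) * Real.exp (t ^ 2 / 2) := by
          refine mul_le_mul_of_nonneg_left ?_ (Real.exp_pos _).le
          exact (Real.cosh_le_exp_half_sq _).trans (Real.exp_le_exp.2 hs)
      _ = Real.exp (t ^ 2 * ((k + 1 : ℕ) : ℝ) / 2) := by
          rw [← Real.exp_add]
          congr 1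
          push_cast
          ring

theorem bdd {E : Type u} [NormedAddCommGroup E] [NormedSpace ℝ E] {k : ℕ} (v : Fin k → E)
    (hv : ∀ j, ‖v j‖ ≤ 1) (i : Fin k) (ε : Fin k → Bool) :
    |‖∑ j, sg (Function.update ε i true j) • v j‖ -
      ‖∑ j, sg (Function.update ε i false j) • v j‖| ≤ 2 := by
  refine (abs_norm_sub_norm_le _ _).trans ?_
  rw [← sum_sub_distrib]
  have h1 : ∑ j, (sg (Function.update ε i true j) • v j -
      sg (Function.update ε i false j) • v j) = (2 : ℝ) • v i := by
    rw [Finset.sum_eq_single i]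
    · rw [Function.update_self, Function.update_self, sg_true, sg_false, ← sub_smul]
      norm_num
    · intro j _ hj
      rw [Function.update_of_ne hj, Function.update_of_ne hj, sub_self]
    · intro h
      exact absurd (mem_univ i) h
  rw [h1, norm_smul, Real.norm_eq_abs, abs_of_pos (by norm_num : (0 : ℝ) < 2)]
  linarith [hv i]

end Cnc

open Cnc in
/-- Row CON. -/
theorem con : ConS.{u} := by
  intro E _ _ k v m T hv hm hT
  set F : (Fin k → Bool) → ℝ := fun ε => ‖∑ j, sg (ε j) • v j‖ with hF
  rcases Nat.eq_zero_or_pos k with hk | hk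
  · subst hk
    have h0 : ∀ ε : Fin 0 → Bool, ‖∑ j, sg (ε j) • v j‖ = 0 := by
      intro ε
      simp
    have hm0 : 0 ≤ m := by
      refine le_trans ?_ hm
      exact avg_nonneg fun ε => norm_nonneg _
    have h1 : (fun ε : Fin 0 → Bool => if m + T * Real.sqrt ((0 : ℕ) : ℝ) <
        ‖∑ j, sg (ε j) • v j‖ then (1 : ℝ) else 0) = fun _ => 0 := by
      funext ε
      rw [if_neg]
      rw [h0 ε, Nat.cast_zero, Real.sqrt_zero, mul_zero, add_zero]
      exact not_lt.2 hm0
    rw [h1, avg_const]
    exact (Real.exp_pos _).le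
  have hk0 : (0 : ℝ) < k := by exact_mod_cast hk
  have hsk : 0 < Real.sqrt k := Real.sqrt_pos.2 hk0
  have hss : Real.sqrt k ^ 2 = k := Real.sq_sqrt hk0.le
  set t : ℝ := T / Real.sqrt k with ht
  have ht0 : 0 ≤ t := div_nonneg hT hsk.le
  have hts : t * Real.sqrt k = T := div_mul_cancel₀ _ hsk.ne'
  have hc := conc k F (fun i ε => bdd v hv i ε) t
  have hpt : ∀ ε : Fin k → Bool,
      (if m + T * Real.sqrt k < ‖∑ j, sg (ε j) • v j‖ then (1 : ℝ) else 0) ≤
      Real.exp (-(T ^ 2)) * Real.exp (t * (F ε - avg F)) := by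
    intro ε
    split_ifs with h
    · rw [← Real.exp_add]
      apply Real.one_le_exp
      have h1 : T * Real.sqrt k ≤ F ε - avg F := by
        have h2 : m + T * Real.sqrt k < F ε := h
        have h3 : avg F ≤ m := hm
        linarith
      have h2 := mul_le_mul_of_nonneg_left h1 ht0
      have h3 : t * (T * Real.sqrt k) = T ^ 2 := by
        rw [mul_left_comm, hts]; ring
      linarith
    · positivity
  calc _ ≤ _ := avg_mono hpt
    _ = Real.exp (-(T ^ 2)) * avg (fun ε => Real.exp (t * (F ε - avg F))) := avg_smul _ _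
    _ ≤ Real.exp (-(T ^ 2)) * Real.exp (t ^ 2 * k / 2) :=
        mul_le_mul_of_nonneg_left hc (Real.exp_pos _).le
    _ = Real.exp (-(T ^ 2 / 2)) := by
        rw [← Real.exp_add]
        congr 1
        have h1 : t ^ 2 * k = T ^ 2 := by
          rw [← hss, ← mul_pow, hts]
        rw [h1]
        ring

end LipSX
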