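import Pool.Agent.Lib.MP_3ede0b_an.SX.Iface

/-! Row COT: summation. -/

namespace LipSX

open Finset

theorem cot : CotS := by
  intro δ q hδ hδ1 hq
  have hq0 : 0 < q := lt_trans (by positivity) hq
  obtain ⟨s, hs⟩ : ∃ s : ℝ, s = δ * q := ⟨_, rfl⟩
  have hs1 : 1 < s := by
    rw [div_lt_iff₀ hδ] at hq
    rw [hs, mul_comm]
    exact hq
  have hs0 : 0 < s := by linarith
  obtain ⟨ε, hε⟩ : ∃ ε : ℝ, ε = (s - 1) / (2 * s) := ⟨_, rfl⟩
  have hε0 : 0 < ε := by
    rw [hε]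
    exact div_pos (by linarith) (by linarith)
  have hse : s * ε = (s - 1) / 2 := by
    rw [hε]
    field_simp
  have hexp : 1 < s * (1 - ε) := by
    have : s * (1 - ε) = s - s * ε := by ring
    rw [this, hse]
    linarith
  have hsum : Summable (fun n : ℕ => 1 / ((n : ℝ) + 1) ^ (s * (1 - ε))) := by
    have h1 := (Real.summable_one_div_nat_rpow (p := s * (1 - ε))).mpr hexp
    have h2 := (summable_nat_add_iff 1).mpr h1
    refine h2.congr fun n => ?_
    push_cast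
    rfl
  obtain ⟨D, hD⟩ : ∃ D : ℝ, D = ∑' n : ℕ, 1 / ((n : ℝ) + 1) ^ (s * (1 - ε)) := ⟨_, rfl⟩
  have hD0 : 0 ≤ D := by
    rw [hD]
    exact tsum_nonneg fun n => by positivity
  obtain ⟨c, hc⟩ : ∃ c : ℝ, c = 1 + 2 / ε := ⟨_, rfl⟩
  have hc0 : 0 < c := by rw [hc]; positivity
  refine ⟨(c ^ s * D) ^ (1 / q) + 1, by positivity, ?_⟩
  intro k b A L hb hA hL hS
  have hlogL : 1 / 2 ≤ Real.log L := by
    have h1 : Real.log 2 ≤ Real.log L := Real.log_le_log (by norm_num) hL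
    have h2 := Real.log_two_gt_d9
    linarith
  have hlogL0 : 0 ≤ Real.log L := by linarith
  -- the logarithm
  have hlog : ∀ n : ℕ, Real.log (((n : ℝ) + 1) * L) ≤ Real.log L * (c * ((n : ℝ) + 1) ^ ε) := by
    intro n
    have hn : (1 : ℝ) ≤ (n : ℝ) + 1 := by
      have : (0 : ℝ) ≤ (n : ℝ) := Nat.cast_nonneg n
      linarith
    have hn0 : (0 : ℝ) < (n : ℝ) + 1 := by linarith
    rw [Real.log_mul hn0.ne' (by linarith)]
    have h1 : Real.log ((n : ℝ) + 1) ≤ ((n : ℝ) + 1) ^ ε / ε :=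
      Real.log_le_rpow_div hn0.le hε0
    have h2 : 1 ≤ ((n : ℝ) + 1) ^ ε := Real.one_le_rpow hn hε0.le
    have h3 : 0 ≤ Real.log ((n : ℝ) + 1) := Real.log_nonneg hn
    have h4 : Real.log ((n : ℝ) + 1) ≤ 2 * Real.log L * Real.log ((n : ℝ) + 1) := by
      nlinarith
    have h5 : c * ((n : ℝ) + 1) ^ ε = ((n : ℝ) + 1) ^ ε + 2 * (((n : ℝ) + 1) ^ ε / ε) := by
      rw [hc]; ring
    rw [h5]
    calc Real.log ((n : ℝ) + 1) + Real.log L
        ≤ 2 * Real.log L * Real.log ((n : ℝ) + 1) + Real.log L := by linarith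
      _ = Real.log L * (1 + 2 * Real.log ((n : ℝ) + 1)) := by ring
      _ ≤ Real.log L * (((n : ℝ) + 1) ^ ε + 2 * (((n : ℝ) + 1) ^ ε / ε)) := by
          apply mul_le_mul_of_nonneg_left _ hlogL0
          linarith
  have hlogpos : ∀ n : ℕ, 0 ≤ Real.log (((n : ℝ) + 1) * L) := by
    intro n
    apply Real.log_nonneg
    have : (0 : ℝ) ≤ (n : ℝ) := Nat.cast_nonneg n
    nlinarith
  -- the decreasing rearrangement
  let σ : Equiv.Perm (Fin k) := Tuple.sort (fun i => -b i)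
  have hσ : Monotone ((fun i => -b i) ∘ σ) := Tuple.monotone_sort _
  have hbd : ∀ i : Fin k, b (σ i) ≤
      (Real.log ((((i : ℕ) : ℝ) + 1) * L) / (((i : ℕ) : ℝ) + 1)) ^ δ * A := by
    intro i
    have hcard : ((Finset.Iic i).map σ.toEmbedding).card = (i : ℕ) + 1 := by
      rw [card_map, Fin.card_Iic]
    have hne : ((Finset.Iic i).map σ.toEmbedding).Nonempty := by
      rw [← card_pos, hcard]
      omega
    have h1 := hS _ hne
    rw [hcard, sum_map] at h1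
    have h2 : ((i : ℕ) + 1) • b (σ i) ≤ ∑ j ∈ Finset.Iic i, b (σ j) := by
      have h3 := Finset.card_nsmul_le_sum (Finset.Iic i) (fun j => b (σ j)) (b (σ i)) (by
        intro j hj
        have := hσ (Finset.mem_Iic.mp hj)
        simp only [Function.comp_apply] at this
        linarith)
      rwa [Fin.card_Iic] at h3
    have h4 : (((i : ℕ) : ℝ) + 1) * b (σ i) ≤ (((i : ℕ) : ℝ) + 1) *
        ((Real.log ((((i : ℕ) : ℝ) + 1) * L) / (((i : ℕ) : ℝ) + 1)) ^ δ * A) := by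
      have h5 : (((i : ℕ) : ℝ) + 1) * b (σ i) = ((i : ℕ) + 1) • b (σ i) := by
        rw [nsmul_eq_mul]; push_cast; rfl
      rw [h5]
      refine h2.trans ?_
      have h6 : ∑ j ∈ Finset.Iic i, b (σ j) = ∑ j ∈ Finset.Iic i, b (σ.toEmbedding j) := rfl
      rw [h6]
      refine h1.trans (le_of_eq ?_)
      push_cast
      ring
    exact le_of_mul_le_mul_left h4 (by positivity)
  -- the powers
  have hpow : ∀ i : Fin k, b (σ i) ^ q ≤
      (Real.log L ^ s * c ^ s * A ^ q) * (1 / (((i : ℕ) : ℝ) + 1) ^ (s * (1 - ε))) := by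
    intro i
    have hn0 : (0 : ℝ) < ((i : ℕ) : ℝ) + 1 := by positivity
    have h1 : b (σ i) ^ q ≤
        ((Real.log ((((i : ℕ) : ℝ) + 1) * L) / (((i : ℕ) : ℝ) + 1)) ^ δ * A) ^ q :=
      Real.rpow_le_rpow (hb _) (hbd i) hq0.le
    have h2 : 0 ≤ Real.log ((((i : ℕ) : ℝ) + 1) * L) / (((i : ℕ) : ℝ) + 1) :=
      div_nonneg (hlogpos i) hn0.le
    rw [Real.mul_rpow (Real.rpow_nonneg h2 _) hA, ← Real.rpow_mul h2, ← hs] at h1
    have h3 : Real.log ((((i : ℕ) : ℝ) + 1) * L) / (((i : ℕ) : ℝ) + 1) ≤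
        Real.log L * c * (((i : ℕ) : ℝ) + 1) ^ (ε - 1) := by
      rw [Real.rpow_sub_one hn0.ne', div_le_iff₀ hn0]
      have h4 : Real.log L * c * ((((i : ℕ) : ℝ) + 1) ^ ε / (((i : ℕ) : ℝ) + 1)) *
          (((i : ℕ) : ℝ) + 1) = Real.log L * (c * (((i : ℕ) : ℝ) + 1) ^ ε) := by
        field_simp
      rw [h4]
      exact hlog i
    have h5 := Real.rpow_le_rpow h2 h3 hs0.le
    rw [Real.mul_rpow (by positivity) (by positivity), Real.mul_rpow hlogL0 hc0.le,
      ← Real.rpow_mul hn0.le] at h5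
    have h6 : (((i : ℕ) : ℝ) + 1) ^ ((ε - 1) * s) = 1 / (((i : ℕ) : ℝ) + 1) ^ (s * (1 - ε)) := by
      have : (ε - 1) * s = -(s * (1 - ε)) := by ring
      rw [this, Real.rpow_neg hn0.le, one_div]
    rw [h6] at h5
    calc b (σ i) ^ q ≤ _ := h1
      _ ≤ (Real.log L ^ s * c ^ s * (1 / (((i : ℕ) : ℝ) + 1) ^ (s * (1 - ε)))) * A ^ q :=
          mul_le_mul_of_nonneg_right h5 (Real.rpow_nonneg hA _)
      _ = _ := by ring
  have hW0 : 0 ≤ Real.log L ^ s * c ^ s * A ^ q := by positivity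
  have htot : ∑ i, b i ^ q ≤ (Real.log L ^ s * c ^ s * A ^ q) * D := by
    rw [← Equiv.sum_comp σ (fun i => b i ^ q)]
    calc ∑ i, b (σ i) ^ q ≤ ∑ i : Fin k, (Real.log L ^ s * c ^ s * A ^ q) *
          (1 / (((i : ℕ) : ℝ) + 1) ^ (s * (1 - ε))) := sum_le_sum fun i _ => hpow i
      _ = (Real.log L ^ s * c ^ s * A ^ q) *
          ∑ i ∈ range k, (1 / ((i : ℝ) + 1) ^ (s * (1 - ε))) := by
          rw [← mul_sum, Fin.sum_univ_eq_sum_range
            (fun n : ℕ => 1 / ((n : ℝ) + 1) ^ (s * (1 - ε)))]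
      _ ≤ _ := by
          apply mul_le_mul_of_nonneg_left _ hW0
          rw [hD]
          exact hsum.sum_le_tsum (range k) fun n _ => by positivity
  have hfin := Real.rpow_le_rpow (sum_nonneg fun i _ => Real.rpow_nonneg (hb i) q) htot
    (by positivity : (0 : ℝ) ≤ 1 / q)
  have e1 : (Real.log L ^ s * c ^ s * A ^ q) * D = (Real.log L ^ s * A ^ q) * (c ^ s * D) := by
    ring
  rw [e1, Real.mul_rpow (by positivity) (by positivity),
    Real.mul_rpow (by positivity) (by positivity), ← Real.rpow_mul hlogL0,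
    ← Real.rpow_mul hA] at hfin
  have e2 : s * (1 / q) = δ := by rw [hs]; field_simp
  have e3 : q * (1 / q) = 1 := by field_simp
  rw [e2, e3, Real.rpow_one] at hfin
  calc _ ≤ _ := hfin
    _ = (c ^ s * D) ^ (1 / q) * Real.log L ^ δ * A := by ring
    _ ≤ ((c ^ s * D) ^ (1 / q) + 1) * Real.log L ^ δ * A := by
        have : 0 ≤ Real.log L ^ δ * A := by positivity
        nlinarith

end LipSX
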