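import Pool.Agent.Lib.MP_3ede0b_an.SX.Iface

/-! Rows DUA and FIN: duality. -/

namespace LipSX

open Finset LipFree LipRad

universe u

section dual

variable {M : Type u} [PseudoMetricSpace M] {e : M} {k : ℕ}

theorem exists_near (m : Lip0 M e →L[ℝ] ℝ) (η : ℝ) (hη : 0 < η) :
    ∃ f : Lip0 M e, ‖f‖ ≤ 1 ∧ ‖m‖ - η ≤ m f := by
  obtain ⟨x, hx1, hx2⟩ := m.exists_lt_apply_of_lt_opNorm (r := ‖m‖ - η) (by linarith)
  rcases le_total 0 (m x) with h | h
  · rw [Real.norm_eq_abs, abs_of_nonneg h] at hx2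
    exact ⟨x, hx1.le, hx2.le⟩
  · rw [Real.norm_eq_abs, abs_of_nonpos h] at hx2
    refine ⟨-x, by rw [norm_neg]; exact hx1.le, ?_⟩
    rw [map_neg]; exact hx2.le

/-- the duality inequality for all functionals on `Lip_0(M)` -/
theorem dual_all (K : ℝ) (hK : 0 ≤ K) (hL : LiftProp M k K)
    (m : Fin k → (Lip0 M e →L[ℝ] ℝ)) :
    ∑ i, ‖m i‖ ≤ 2 * K * avg (fun ε => ‖∑ i, sg (ε i) • m i‖) := by
  classical
  set A : ℝ := avg (fun ε => ‖∑ i, sg (ε i) • m i‖) with hA
  refine le_of_forall_pos_le_add fun δ hδ => ?_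
  have hη : 0 < δ / (2 * ((k : ℝ) + 1)) := by positivity
  choose g hg1 hg2 using fun i => exists_near (m i) _ hη
  obtain ⟨f, hf1, hf2⟩ := hL (fun i => (g i : M → ℝ)) (fun i x y => by
    have h1 := (g i).le_norm x y
    have h2 := mul_le_mul_of_nonneg_right (hg1 i) (dist_nonneg (x := x) (y := y))
    linarith)
  -- the functions as elements of Lip_0
  let F : (Fin k → Bool) → Lip0 M e := fun ε =>
    ⟨fun x => f ε x - f ε e, ⟨K, fun x y => by
      have := hf1 ε x y
      have e1 : f ε x - f ε e - (f ε y - f ε e) = f ε x - f ε y := by ring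
      rw [e1]; exact this⟩, by simp⟩
  have hF : ∀ ε x, (F ε : M → ℝ) x = f ε x - f ε e := fun ε x => rfl
  have hFn : ∀ ε, ‖F ε‖ ≤ K := by
    intro ε
    refine Lip0.norm_le _ hK fun x y => ?_
    rw [hF, hF]
    have e1 : f ε x - f ε e - (f ε y - f ε e) = f ε x - f ε y := by ring
    rw [e1]; exact hf1 ε x y
  let c : ℝ := ((2 : ℝ) ^ k)⁻¹
  let g' : Fin k → Lip0 M e := fun i => (2 : ℝ) • (g i - c • ∑ ε, sg (ε i) • F ε)
  have hsum : ∀ (s : Finset (Fin k → Bool)) (i : Fin k) (x : M),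
      ((∑ ε ∈ s, sg (ε i) • F ε : Lip0 M e) : M → ℝ) x = ∑ ε ∈ s, sg (ε i) * F ε x := by
    intro s i x
    induction s using Finset.induction_on with
    | empty => simp only [sum_empty]; rfl
    | insert a s ha ih => rw [sum_insert ha, sum_insert ha, Lip0.add_apply, ih,
        Lip0.smul_apply]
  have hg'x : ∀ i x, (g' i : M → ℝ) x = 2 * (g i x - (avg (fun ε => sg (ε i) * f ε x) -
      avg (fun ε => sg (ε i) * f ε e))) := by
    intro i x
    have e1 : (g' i : M → ℝ) x = 2 * (g i x - c * ((∑ ε, sg (ε i) • F ε : Lip0 M e) x)) := rfl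
    rw [e1, hsum, ← avg_sub]
    simp only [avg, c, hF]
    congr 2
    rw [div_eq_inv_mul]
    congr 1
    exact sum_congr rfl fun ε _ => by ring
  have hg'n : ∀ i, ‖g' i‖ ≤ 1 := by
    intro i
    refine Lip0.norm_le _ zero_le_one fun x y => ?_
    rw [hg'x, hg'x]
    have h1 := hf2 i x y
    have e1 : 2 * (g i x - (avg (fun ε => sg (ε i) * f ε x) - avg (fun ε => sg (ε i) * f ε e))) -
        2 * (g i y - (avg (fun ε => sg (ε i) * f ε y) - avg (fun ε => sg (ε i) * f ε e))) =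
        2 * ((g i x - avg (fun ε => sg (ε i) * f ε x)) -
          (g i y - avg (fun ε => sg (ε i) * f ε y))) := by ring
    rw [e1, abs_mul, abs_of_pos (by norm_num : (0 : ℝ) < 2)]
    linarith
  have hup : ∑ i, m i (g' i) ≤ ∑ i, ‖m i‖ := by
    refine sum_le_sum fun i _ => ?_
    calc m i (g' i) ≤ ‖m i (g' i)‖ := Real.le_norm_self _
      _ ≤ ‖m i‖ * ‖g' i‖ := (m i).le_opNorm _
      _ ≤ ‖m i‖ := by
        have := mul_le_mul_of_nonneg_left (hg'n i) (norm_nonneg (m i))
        linarith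
  have hdec : ∑ i, m i (g i) = (∑ i, m i (g' i)) / 2 +
      avg (fun ε => (∑ i, sg (ε i) • m i) (F ε)) := by
    have e1 : ∀ i, m i (g' i) = 2 * (m i (g i) - c * ∑ ε, sg (ε i) * m i (F ε)) := by
      intro i
      simp only [g', map_smul, map_sub, map_sum, smul_eq_mul]
    have e2 : avg (fun ε => (∑ i, sg (ε i) • m i) (F ε)) =
        ∑ i, c * ∑ ε, sg (ε i) * m i (F ε) := by
      have e3 : ∀ ε, (∑ i, sg (ε i) • m i) (F ε) = ∑ i, sg (ε i) * m i (F ε) := by
        intro ε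
        rw [_root_.sum_apply]
        exact sum_congr rfl fun i _ => rfl
      simp only [e3]
      rw [avg_sum]
      refine sum_congr rfl fun i _ => ?_
      simp only [avg, c]
      rw [div_eq_inv_mul]
    rw [e2, sum_div, ← sum_add_distrib]
    refine sum_congr rfl fun i _ => ?_
    rw [e1]; ring
  have hlast : avg (fun ε => (∑ i, sg (ε i) • m i) (F ε)) ≤ K * A := by
    rw [hA, ← avg_smul]
    refine avg_mono fun ε => ?_
    calc (∑ i, sg (ε i) • m i) (F ε) ≤ ‖(∑ i, sg (ε i) • m i) (F ε)‖ := Real.le_norm_self _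
      _ ≤ ‖∑ i, sg (ε i) • m i‖ * ‖F ε‖ := ContinuousLinearMap.le_opNorm _ _
      _ ≤ ‖∑ i, sg (ε i) • m i‖ * K :=
          mul_le_mul_of_nonneg_left (hFn ε) (norm_nonneg _)
      _ = _ := mul_comm _ _
  have hlow : ∑ i, (‖m i‖ - δ / (2 * ((k : ℝ) + 1))) ≤ ∑ i, m i (g i) :=
    sum_le_sum fun i _ => hg2 i
  rw [sum_sub_distrib, sum_const, card_univ, Fintype.card_fin, nsmul_eq_mul] at hlow
  have h2 : (k : ℝ) * (δ / (2 * ((k : ℝ) + 1))) ≤ δ / 2 := by
    rw [mul_div_assoc', div_le_div_iff₀ (by positivity) (by norm_num)]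
    nlinarith [Nat.cast_nonneg (α := ℝ) k]
  linarith

end dual

section transfer

variable {X : Type u} [PseudoMetricSpace X] {e : X} {M : Set X} {k : ℕ}

theorem span_ineq (he : e ∈ M) (K : ℝ) (hK : 0 ≤ K) (hL : LiftProp M k K)
    (m : Fin k → (Lip0 X e →L[ℝ] ℝ))
    (hm : ∀ i, m i ∈ Submodule.span ℝ ((fun x => delta e x) '' M)) :
    ∑ i, ‖m i‖ ≤ 2 * K * avg (fun ε => ‖∑ i, sg (ε i) • m i‖) := by
  have h := fun i => exists_factor he (m i) (hm i)
  choose m' hm' using h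
  have h1 := dual_all K hK hL m'
  have h2 : ∀ i, ‖m' i‖ = ‖m i‖ := fun i => norm_factor he (m i) (m' i) (hm' i)
  have h3 : ∀ ε : Fin k → Bool, ‖∑ i, sg (ε i) • m' i‖ = ‖∑ i, sg (ε i) • m i‖ := by
    intro ε
    refine norm_factor he _ _ fun f => ?_
    rw [_root_.sum_apply, _root_.sum_apply]
    refine sum_congr rfl fun i _ => ?_
    rw [_root_.smul_apply, _root_.smul_apply, hm']
  simp only [h2, h3] at h1
  exact h1

theorem isClosed_ineq {E : Type u} [NormedAddCommGroup E] [NormedSpace ℝ E] (k : ℕ) (K : ℝ) :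
    IsClosed {m : Fin k → E | ∑ i, ‖m i‖ ≤ 2 * K * avg (fun ε => ‖∑ i, sg (ε i) • m i‖)} := by
  have h1 : Continuous (fun m : Fin k → E => ∑ i, ‖m i‖) := by fun_prop
  have h2 : Continuous (fun m : Fin k → E =>
      2 * K * avg (fun ε => ‖∑ i, sg (ε i) • m i‖)) := by
    unfold avg
    fun_prop
  exact isClosed_le h1 h2

/-- the inclusion of the free space in the dual space -/
noncomputable def incl (X : Type u) [PseudoMetricSpace X] (e : X) :
    Free X e →ₗ[ℝ] (Lip0 X e →L[ℝ] ℝ) := (FreeSpace X e).subtype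

theorem norm_incl (m : Free X e) : ‖incl X e m‖ = ‖m‖ := rfl

theorem signAvg_incl (m : Fin k → Free X e) :
    signAvg m = avg (fun ε => ‖∑ i, sg (ε i) • incl X e (m i)‖) := by
  unfold signAvg avg
  congr 1
  refine sum_congr rfl fun ε _ => ?_
  rw [← norm_incl, map_sum]
  simp only [map_smul]
  rfl

end transfer

theorem dua : DuaS.{u} := by
  intro X _ e M he k K hK hL m hm
  have hcl := isClosed_ineq (E := (Lip0 X e →L[ℝ] ℝ)) k K
  have hsub : Set.pi Set.univ (fun _ : Fin k =>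
      (Submodule.span ℝ ((fun x => delta e x) '' M) : Set (Lip0 X e →L[ℝ] ℝ))) ⊆
      {m : Fin k → (Lip0 X e →L[ℝ] ℝ) |
        ∑ i, ‖m i‖ ≤ 2 * K * avg (fun ε => ‖∑ i, sg (ε i) • m i‖)} := by
    intro m' hm'
    exact span_ineq he K hK hL m' fun i => hm' i (Set.mem_univ i)
  have h1 := closure_minimal hsub hcl
  rw [closure_pi_set] at h1
  have h2 : (fun i => incl X e (m i)) ∈ Set.pi Set.univ (fun _ : Fin k => closure
      (Submodule.span ℝ ((fun x => delta e x) '' M) : Set (Lip0 X e →L[ℝ] ℝ))) := by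
    intro i _
    exact hm i
  have h3 := h1 h2
  rw [signAvg_incl]
  exact h3

theorem exists_finite {X : Type u} [PseudoMetricSpace X] {e : X} (φ : Lip0 X e →L[ℝ] ℝ)
    (hφ : φ ∈ Submodule.span ℝ (Set.range (delta e))) :
    ∃ F : Set X, F.Finite ∧ φ ∈ Submodule.span ℝ ((fun x => delta e x) '' F) := by
  induction hφ using Submodule.span_induction with
  | mem x hx =>
    obtain ⟨y, rfl⟩ := hx
    exact ⟨{y}, Set.finite_singleton y, Submodule.subset_span ⟨y, rfl, rfl⟩⟩
  | zero => exact ⟨∅, Set.finite_empty, Submodule.zero_mem _⟩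
  | add x y _ _ hx hy =>
    obtain ⟨F, hF, hx'⟩ := hx
    obtain ⟨G, hG, hy'⟩ := hy
    refine ⟨F ∪ G, hF.union hG, Submodule.add_mem _ ?_ ?_⟩
    · exact Submodule.span_mono (Set.image_mono Set.subset_union_left) hx'
    · exact Submodule.span_mono (Set.image_mono Set.subset_union_right) hy'
  | smul a x _ hx =>
    obtain ⟨F, hF, hx'⟩ := hx
    exact ⟨F, hF, Submodule.smul_mem _ a hx'⟩

theorem fin : FinS.{u} := by
  intro X _ e k K hK hL m
  have hcl := isClosed_ineq (E := (Lip0 X e →L[ℝ] ℝ)) k K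
  have hsub : Set.pi Set.univ (fun _ : Fin k =>
      (Submodule.span ℝ (Set.range (delta e)) : Set (Lip0 X e →L[ℝ] ℝ))) ⊆
      {m : Fin k → (Lip0 X e →L[ℝ] ℝ) |
        ∑ i, ‖m i‖ ≤ 2 * K * avg (fun ε => ‖∑ i, sg (ε i) • m i‖)} := by
    intro m' hm'
    choose F hF hm'' using fun i => exists_finite (m' i) (hm' i (Set.mem_univ i))
    have hfin : ((⋃ i, F i) ∪ {e}).Finite :=
      (Set.finite_iUnion hF).union (Set.finite_singleton e)
    have he : e ∈ (⋃ i, F i) ∪ {e} := Set.mem_union_right _ rfl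
    refine span_ineq he K hK (hL _ hfin he) m' fun i => ?_
    refine Submodule.span_mono (Set.image_mono ?_) (hm'' i)
    exact (Set.subset_iUnion F i).trans Set.subset_union_left
  have h1 := closure_minimal hsub hcl
  rw [closure_pi_set] at h1
  have h2 : (fun i => incl X e (m i)) ∈ Set.pi Set.univ (fun _ : Fin k => closure
      (Submodule.span ℝ (Set.range (delta e)) : Set (Lip0 X e →L[ℝ] ℝ))) := by
    intro i _
    exact (m i).2
  have h3 := h1 h2
  rw [signAvg_incl]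
  exact h3

end LipSX
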