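import Pool.Agent.Lib.MP_3ede0b_an.SX.Asm

/-! The final statements, from the rows. -/

namespace LipSX

open Finset LipFree LipRad

universe u

theorem signAvg_nonneg {E : Type u} [NormedAddCommGroup E] [NormedSpace ℝ E] {k : ℕ}
    (x : Fin k → E) : 0 ≤ signAvg x := by unfold signAvg; positivity

/-- from the main estimate to the cotype inequality -/
theorem cotype_of_est (hsub : SubS.{u}) (hcot : CotS) (δ s : ℝ) (hδ : 0 < δ) (hδ1 : δ ≤ 1)
    (hs : 1 / δ < s) : ∃ C : ℝ, 0 < C ∧ ∀ (C1 L : ℝ), 0 ≤ C1 → 2 ≤ L →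
    ∀ (E : Type u) [NormedAddCommGroup E] [NormedSpace ℝ E] (P : E → Prop),
    (∀ (n : ℕ) (m : Fin n → E), 1 ≤ n → (∀ i, P (m i)) →
      ∑ i, ‖m i‖ ≤ C1 * n * (Real.log (n * L) / n) ^ δ * signAvg m) →
    ∀ (k : ℕ) (m : Fin k → E), (∀ i, P (m i)) →
      (∑ i, ‖m i‖ ^ s) ^ (1 / s) ≤ C * C1 * Real.log L ^ δ * signAvg m := by
  obtain ⟨C, hC, h⟩ := hcot δ s hδ hδ1 hs
  refine ⟨C, hC, ?_⟩
  intro C1 L hC1 hL E _ _ P hest k m hm
  have h1 := h k (fun i => ‖m i‖) (C1 * signAvg m) L (fun i => norm_nonneg _)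
    (mul_nonneg hC1 (signAvg_nonneg m)) hL (by
      intro S hS
      have hcard : 1 ≤ S.card := hS.card_pos
      let σ : Fin S.card → Fin k := fun j => S.orderEmbOfFin rfl j
      have hσ : Function.Injective σ := (S.orderEmbOfFin rfl).injective
      have h2 := hest S.card (m ∘ σ) hcard (fun j => hm _)
      have h3 := hsub E k S.card m σ hσ
      have h4 : ∑ i ∈ S, ‖m i‖ = ∑ j, ‖(m ∘ σ) j‖ := by
        have h5 : S = univ.map (S.orderEmbOfFin rfl).toEmbedding := by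
          ext i
          simp only [mem_map, mem_univ, true_and]
          constructor
          · intro hi
            have : i ∈ Set.range (S.orderEmbOfFin rfl) := by
              rw [Finset.range_orderEmbOfFin]; exact hi
            exact this
          · rintro ⟨j, rfl⟩
            exact S.orderEmbOfFin_mem rfl j
        conv_lhs => rw [h5]
        rw [sum_map]
        rfl
      rw [h4]
      refine h2.trans ?_
      have hlog : 0 ≤ Real.log (S.card * L) / S.card := by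
        refine div_nonneg (Real.log_nonneg ?_) (Nat.cast_nonneg _)
        have : (1 : ℝ) ≤ S.card := by exact_mod_cast hcard
        nlinarith
      have h6 : 0 ≤ C1 * S.card * (Real.log (S.card * L) / S.card) ^ δ := by positivity
      calc _ ≤ C1 * S.card * (Real.log (S.card * L) / S.card) ^ δ * signAvg m :=
            mul_le_mul_of_nonneg_left h3 h6
        _ = _ := by ring)
  calc _ ≤ _ := h1
    _ = _ := by ring

/-- from the main estimate to the bound for copies of `l_inf^k` -/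
theorem linf_of_est {E : Type u} [NormedAddCommGroup E] [NormedSpace ℝ E] (P : E → Prop)
    (δ C1 L : ℝ) (hδ : 0 < δ) (hC1 : 0 < C1) (hL : 2 ≤ L)
    (hest : ∀ (n : ℕ) (m : Fin n → E), 1 ≤ n → (∀ i, P (m i)) →
      ∑ i, ‖m i‖ ≤ C1 * n * (Real.log (n * L) / n) ^ δ * signAvg m)
    (k : ℕ) (T : (Fin k → ℝ) →ₗ[ℝ] E) (Δ : ℝ) (hk : 1 ≤ k) (hT : ∀ v, P (T v))
    (hT2 : ∀ v, ‖v‖ ≤ ‖T v‖ ∧ ‖T v‖ ≤ Δ * ‖v‖) :
    (k : ℝ) ≤ (C1 * Δ) ^ (1 / δ) * Real.log (k * L) := by
  classical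
  have : Nonempty (Fin k) := ⟨⟨0, hk⟩⟩
  have hk0 : (0 : ℝ) < k := by exact_mod_cast hk
  have hk1 : (1 : ℝ) ≤ k := by exact_mod_cast hk
  have hone : ∀ i : Fin k, ‖(Pi.single i (1 : ℝ) : Fin k → ℝ)‖ = 1 := by
    intro i
    rw [Pi.norm_single]; norm_num
  have hΔ : 0 ≤ Δ := by
    have h1 := hT2 (Pi.single ⟨0, hk⟩ (1 : ℝ))
    rw [hone] at h1
    linarith [h1.1, h1.2]
  set m : Fin k → E := fun i => T (Pi.single i 1) with hm
  have h := hest k m hk (fun i => hT _)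
  have h1 : (k : ℝ) ≤ ∑ i, ‖m i‖ := by
    have : ∑ _i : Fin k, (1 : ℝ) ≤ ∑ i, ‖m i‖ := by
      refine Finset.sum_le_sum fun i _ => ?_
      have := (hT2 (Pi.single i (1 : ℝ))).1
      rwa [hone] at this
    simpa using this
  have h2 : signAvg m ≤ Δ := by
    unfold signAvg
    rw [div_le_iff₀ (by positivity)]
    have : ∀ ε : Fin k → Bool, ‖∑ i, (if ε i then (1 : ℝ) else -1) • m i‖ ≤ Δ := by
      intro ε
      have e1 : ∑ i, (if ε i then (1 : ℝ) else -1) • m i =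
          T (fun i => if ε i then (1 : ℝ) else -1) := by
        have e2 : (fun i => if ε i then (1 : ℝ) else -1 : Fin k → ℝ) =
            ∑ i, (if ε i then (1 : ℝ) else -1) • (Pi.single i 1 : Fin k → ℝ) := by
          ext j
          rw [Finset.sum_apply]
          simp only [Pi.smul_apply, Pi.single_apply, smul_eq_mul, mul_ite, mul_one, mul_zero]
          rw [Finset.sum_ite_eq]
          simp
        rw [e2, map_sum]
        simp only [hm, map_smul]
      rw [e1]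
      refine (hT2 _).2.trans ?_
      have : ‖(fun i => if ε i then (1 : ℝ) else -1 : Fin k → ℝ)‖ ≤ 1 := by
        rw [pi_norm_le_iff_of_nonneg zero_le_one]
        intro i
        split_ifs <;> simp
      have := mul_le_mul_of_nonneg_left this hΔ
      linarith
    calc _ ≤ ∑ _ε : Fin k → Bool, Δ := Finset.sum_le_sum fun ε _ => this ε
      _ = Δ * 2 ^ k := by
          rw [Finset.sum_const, Finset.card_univ, nsmul_eq_mul, Fintype.card_fun,
            Fintype.card_bool, Fintype.card_fin]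
          push_cast; ring
  have hlog : 0 < Real.log (k * L) := Real.log_pos (by nlinarith)
  set τ : ℝ := Real.log (k * L) / k with hτ
  have hτ0 : 0 < τ := by positivity
  have h3 : (k : ℝ) ≤ C1 * k * τ ^ δ * Δ :=
    h1.trans (h.trans (mul_le_mul_of_nonneg_left h2 (by positivity)))
  have h4 : 1 ≤ (C1 * Δ) * τ ^ δ := by
    have : (k : ℝ) * 1 ≤ k * ((C1 * Δ) * τ ^ δ) := by linarith
    exact le_of_mul_le_mul_left this hk0
  have h5 : 1 ≤ (C1 * Δ) ^ (1 / δ) * τ := by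
    have h6 := Real.rpow_le_rpow zero_le_one h4 (by positivity : 0 ≤ 1 / δ)
    rw [Real.one_rpow, Real.mul_rpow (by positivity) (by positivity), ← Real.rpow_mul hτ0.le,
      mul_one_div_cancel hδ.ne', Real.rpow_one] at h6
    exact h6
  have h7 : (C1 * Δ) ^ (1 / δ) * τ = ((C1 * Δ) ^ (1 / δ) * Real.log (k * L)) / k := by
    rw [hτ, mul_div_assoc]
  rw [h7, le_div_iff₀ hk0, one_mul] at h5
  exact h5

/-- Hilbert spaces -/
theorem hilbert_est (hasm : AsmS.{u}) (hsmh : SmhS.{u}) (H : Type u) [NormedAddCommGroup H]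
    [InnerProductSpace ℝ H] (e : H) (M : Set H) (L : ℕ) (he : e ∈ M) (hL : 2 ≤ L)
    (hF : FewScales M L) (k : ℕ) (m : Fin k → Free H e) (hk : 1 ≤ k)
    (hm : ∀ i, Carried M (m i)) :
    ∑ i, ‖m i‖ ≤ 1000 * k * (Real.log (k * L) / k) ^ ((1 : ℝ) / 4) * signAvg m := by
  have hQ : QConvex (normSeminorm ℝ H) 2 2 := by
    intro x y
    have h1 := parallelogram_law_with_norm ℝ x y
    simp only [coe_normSeminorm, Real.rpow_two]
    nlinarith
  have h := hasm 10 1 2 2 1 (by norm_num) one_pos (by norm_num) (by norm_num) le_rfl H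
    (normSeminorm ℝ H) (fun x => le_rfl) (fun x => by rw [one_mul]; rfl) hQ (hsmh H) e M L he hL
    hF k m hk hm
  have e1 : (min ((1 : ℝ) / (2 * (1 + 1))) (1 / 2)) = 1 / 4 := by norm_num
  have e2 : (7 * 1 * 10 * (11 + 1 * ((2 : ℝ) / 2) ^ ((1 : ℝ) / 2)) : ℝ) = 840 := by
    rw [div_self (by norm_num), Real.one_rpow]; norm_num
  rw [e1, e2] at h
  refine h.trans ?_
  have hkL : (1 : ℝ) ≤ k * L := by
    have h1 : (1 : ℝ) ≤ k := by exact_mod_cast hk
    have h2 : (2 : ℝ) ≤ L := by exact_mod_cast hL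
    nlinarith
  have hlog : 0 ≤ Real.log (k * L) / k := div_nonneg (Real.log_nonneg hkL) (Nat.cast_nonneg _)
  have h3 : 0 ≤ (k : ℝ) * (Real.log (k * L) / k) ^ ((1 : ℝ) / 4) * signAvg m :=
    mul_nonneg (by positivity) (signAvg_nonneg m)
  linarith

/-- superreflexive spaces -/
theorem super_est (hasm : AsmS.{u}) (hsmg : SmgS.{u}) (p q K c b : ℝ) (hp : 1 < p) (hpq : p < q)
    (hK : 0 ≤ K) (hc : 0 < c) (hb : 1 ≤ b) : ∃ C δ : ℝ, 0 < C ∧ 0 < δ ∧ δ ≤ 1 ∧
    ∀ (X : Type u) [NormedAddCommGroup X] [NormedSpace ℝ X] (N : Seminorm ℝ X),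
    (∀ x, ‖x‖ ≤ N x) → (∀ x, N x ≤ b * ‖x‖) → PSmooth N p K → QConvex N q c →
    ∀ (e : X) (M : Set X) (L : ℕ), e ∈ M → 2 ≤ L → FewScales M L →
    ∀ (k : ℕ) (m : Fin k → Free X e), 1 ≤ k → (∀ i, Carried M (m i)) →
      ∑ i, ‖m i‖ ≤ C * k * (Real.log (k * L) / k) ^ δ * signAvg m := by
  obtain ⟨C, α, hC, hα, h⟩ := hsmg p q K c hp hpq hK hc
  have hq : 1 < q := hp.trans hpq
  refine ⟨7 * b * C * (11 + b * (2 / c) ^ (1 / q)), min (α / (2 * (1 + α))) (1 / q), ?_, ?_, ?_,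
    ?_⟩
  · positivity
  · exact lt_min (by positivity) (by positivity)
  · refine (min_le_right _ _).trans ?_
    rw [div_le_one (by linarith)]
    exact hq.le
  · intro X _ _ N hN1 hN2 hS hQ e M L he hL hF k m hk hm
    exact hasm C α q c b hC hα hq hc hb X N hN1 hN2 hQ (h X N hS hQ) e M L he hL hF k m hk hm

/-- snowflakes -/
theorem snow_est (hsno : SnoS.{u}) (hfin : FinS.{u}) (θ : ℝ) (h0 : 0 < θ) (h1 : θ < 1) :
    ∃ C : ℝ, 0 < C ∧ ∀ (X : Type u) [MetricSpace X], Snowflake X θ → ∀ (e : X) (k : ℕ)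
      (m : Fin k → Free X e), 1 ≤ k →
      ∑ i, ‖m i‖ ≤ C * k * (Real.log (k * Real.exp 1) / k) ^ ((1 - θ) / 2) * signAvg m := by
  obtain ⟨C, hC, h⟩ := hsno θ h0 h1
  refine ⟨2 * C, by linarith, ?_⟩
  intro X _ hX e k m hk
  have hk0 : (0 : ℝ) < k := by exact_mod_cast hk
  have hk1 : (1 : ℝ) ≤ k := by exact_mod_cast hk
  have hlog : 0 ≤ Real.log k := Real.log_nonneg hk1
  have h2 := hfin X e k (C * (k : ℝ) ^ ((1 + θ) / 2) * (1 + Real.log k) ^ ((1 - θ) / 2))
    (by positivity) (fun M hM he => by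
      have : Finite M := hM.to_subtype
      exact h M (fun x y z => hX x y z) k hk) m
  refine h2.trans (le_of_eq ?_)
  have e1 : Real.log (k * Real.exp 1) = 1 + Real.log k := by
    rw [Real.log_mul hk0.ne' (Real.exp_pos 1).ne', Real.log_exp, add_comm]
  have e2 : (k : ℝ) * ((1 + Real.log k) / k) ^ ((1 - θ) / 2) =
      (k : ℝ) ^ ((1 + θ) / 2) * (1 + Real.log k) ^ ((1 - θ) / 2) := by
    rw [Real.div_rpow (by positivity) hk0.le]
    have e3 : (k : ℝ) = (k : ℝ) ^ ((1 + θ) / 2) * (k : ℝ) ^ ((1 - θ) / 2) := by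
      rw [← Real.rpow_add hk0]
      have : (1 + θ) / 2 + (1 - θ) / 2 = 1 := by ring
      rw [this, Real.rpow_one]
    nth_rewrite 1 [e3]
    have : (k : ℝ) ^ ((1 - θ) / 2) ≠ 0 := by positivity
    field_simp
  rw [e1]
  linear_combination (2 * C * signAvg m) * e2.symm

/-- sets whose distances lie in `[a, a N]` see few scales -/
theorem few_of_ratio {X : Type u} [PseudoMetricSpace X] (M : Set X) (a N : ℝ) (ha : 0 < a)
    (hN : 1 ≤ N) (h : ∀ x ∈ M, ∀ y ∈ M, dist x y ≠ 0 → a ≤ dist x y ∧ dist x y ≤ a * N) :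
    FewScales M (Nat.log 2 ⌊N⌋₊ + 2) := by
  intro x hx
  set n0 : ℤ := Int.log 2 a with hn0
  have ha1 : (2 : ℝ) ^ n0 ≤ a := by
    have := Int.zpow_log_le_self (b := 2) (by norm_num) ha
    exact_mod_cast this
  have ha2 : a < (2 : ℝ) ^ (n0 + 1) := by
    have := Int.lt_zpow_succ_log_self (b := 2) (by norm_num) a
    exact_mod_cast this
  have hN2 : N < (2 : ℝ) ^ (Nat.log 2 ⌊N⌋₊ + 1) := by
    have h1 := Nat.lt_pow_succ_log_self (b := 2) (by norm_num) ⌊N⌋₊
    have h2 := (Nat.floor_lt (by linarith)).mp h1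
    exact_mod_cast h2
  have hsub : scalesAt M x ⊆ ↑(Finset.Icc n0 (n0 + (Nat.log 2 ⌊N⌋₊ + 1 : ℕ))) := by
    rintro n ⟨y, hy, h1, h2⟩
    have hpos : (0 : ℝ) < 2 ^ n := by positivity
    have hd := h x hx y hy (by linarith)
    rw [Finset.coe_Icc, Set.mem_Icc]
    constructor
    · have h3 : (2 : ℝ) ^ n0 < 2 ^ (n + 1) := by linarith [hd.1]
      have h4 := (zpow_lt_zpow_iff_right₀ (by norm_num : (1 : ℝ) < 2)).mp h3
      omega
    · have h3 : (2 : ℝ) ^ n < 2 ^ (n0 + 1 + (Nat.log 2 ⌊N⌋₊ + 1 : ℕ)) := by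
        rw [zpow_add₀ (by norm_num), zpow_natCast]
        calc (2 : ℝ) ^ n ≤ a * N := h1.trans hd.2
          _ < _ := mul_lt_mul'' ha2 hN2 ha.le (by linarith)
      have h4 := (zpow_lt_zpow_iff_right₀ (by norm_num : (1 : ℝ) < 2)).mp h3
      push_cast at h4 ⊢
      omega
  refine ⟨(Finset.finite_toSet _).subset hsub, ?_⟩
  refine (Set.ncard_le_ncard hsub (Finset.finite_toSet _)).trans ?_
  rw [Set.ncard_coe_finset]
  rw [Int.card_Icc]
  omega

end LipSX
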