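import Pool.Agent.Lib.MP_3ede0b_an.Transfer

/-! Interface: cotype of Lipschitz-free spaces over sets with few scales in superreflexive spaces,
and over snowflakes. -/

namespace LipSX

open Finset LipFree LipRad

universe u

/-! ### Definitions which occur in the final statement -/

/-- the closed linear span of the evaluations at the points of `M` contains `m` -/
def Carried {X : Type u} [PseudoMetricSpace X] {e : X} (M : Set X) (m : Free X e) : Prop :=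
  m.1 ∈ closure (Submodule.span ℝ ((fun x => delta e x) '' M) : Set (Lip0 X e →L[ℝ] ℝ))

/-- the average of `‖± x_1 ± ... ± x_k‖` over all signs -/
noncomputable def signAvg {E : Type u} [NormedAddCommGroup E] [NormedSpace ℝ E] {k : ℕ}
    (x : Fin k → E) : ℝ :=
  (∑ ε : Fin k → Bool, ‖∑ i, (if ε i then (1 : ℝ) else -1) • x i‖) / 2 ^ k

/-- the scales seen from `x`: the integers `n` such that `2 ^ n ≤ dist x y < 2 ^ (n + 1)` for
some point `y` of `M` -/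
def scalesAt {X : Type u} [PseudoMetricSpace X] (M : Set X) (x : X) : Set ℤ :=
  {n | ∃ y ∈ M, (2 : ℝ) ^ n ≤ dist x y ∧ dist x y < (2 : ℝ) ^ (n + 1)}

/-- every point of `M` sees at most `L` scales -/
def FewScales {X : Type u} [PseudoMetricSpace X] (M : Set X) (L : ℕ) : Prop :=
  ∀ x ∈ M, (scalesAt M x).Finite ∧ (scalesAt M x).ncard ≤ L

/-- the norm `N` is `p`-uniformly smooth -/
def PSmooth {X : Type u} [AddCommGroup X] [Module ℝ X] (N : Seminorm ℝ X) (p K : ℝ) : Prop :=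
  ∀ x y : X, N (x + y) ^ p + N (x - y) ^ p ≤ 2 * N x ^ p + K * N y ^ p

/-- the norm `N` is `q`-uniformly convex -/
def QConvex {X : Type u} [AddCommGroup X] [Module ℝ X] (N : Seminorm ℝ X) (q c : ℝ) : Prop :=
  ∀ x y : X, 2 * N x ^ q + c * N y ^ q ≤ N (x + y) ^ q + N (x - y) ^ q

/-- `dist ^ (1 / θ)` is a metric -/
def Snowflake (M : Type u) [PseudoMetricSpace M] (θ : ℝ) : Prop :=
  ∀ x y z : M, dist x z ^ (1 / θ) ≤ dist x y ^ (1 / θ) + dist y z ^ (1 / θ)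

/-! ### Smoothing of Lipschitz functions -/

/-- `f` is `1`-Lipschitz for the seminorm `N` -/
def NLip {X : Type u} [AddCommGroup X] [Module ℝ X] (N : Seminorm ℝ X) (f : X → ℝ) : Prop :=
  ∀ x y, |f x - f y| ≤ N (x - y)

/-- smoothing of `1`-Lipschitz functions at all scales -/
def Smoothing {X : Type u} [AddCommGroup X] [Module ℝ X] (N : Seminorm ℝ X) (C α : ℝ) : Prop :=
  ∀ r s : ℝ, 0 < r → r ≤ s → ∀ f : X → ℝ, NLip N f → ∃ g : X → ℝ,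
    (∀ x, |f x - g x| ≤ C * s) ∧
    ∀ x, ∃ V : X →ₗ[ℝ] ℝ, (∀ h, |V h| ≤ C * N h) ∧
      ∀ h, N h ≤ r → |g (x + h) - g x - V h| ≤ C * r * (r / s) ^ α

/-- Row KER: the sup-inf-convolution -/
def KerS : Prop := ∀ (X : Type u) [AddCommGroup X] [Module ℝ X] (N : Seminorm ℝ X)
  (p K lam mu r ε₁ ε₂ : ℝ), 1 < p → 0 ≤ K → PSmooth N p K → 0 < mu → mu ≤ lam → 0 < r →
  K * r ^ p / mu ^ (p - 1) < ε₁ →
  (∀ u w h : X, N (u + w) ≤ 2 * mu → N (u - w) ≤ 2 * mu → N h ≤ r →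
    K * N (h - w) ^ p / lam ^ (p - 1) +
      (2 * N u ^ p - N (u + w) ^ p - N (u - w) ^ p) / mu ^ (p - 1) ≤ ε₂) →
  ∀ f : X → ℝ, NLip N f → ∃ g : X → ℝ, (∀ x, |f x - g x| ≤ lam) ∧
    ∀ x, ∃ V : X →ₗ[ℝ] ℝ, (∀ h, |V h| ≤ (1 + ε₁ / r) * N h) ∧
      ∀ h, N h ≤ r → |g (x + h) - g x - V h| ≤ ε₁ + ε₂

/-- Row SMH: smoothing in Hilbert spaces -/
def SmhS : Prop := ∀ (H : Type u) [NormedAddCommGroup H] [InnerProductSpace ℝ H],
  Smoothing (normSeminorm ℝ H) 10 1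

/-- Row SMG: smoothing in superreflexive spaces -/
def SmgS : Prop := ∀ p q K c : ℝ, 1 < p → p < q → 0 ≤ K → 0 < c → ∃ C α : ℝ, 1 ≤ C ∧ 0 < α ∧
  ∀ (X : Type u) [AddCommGroup X] [Module ℝ X] (N : Seminorm ℝ X),
    PSmooth N p K → QConvex N q c → Smoothing N C α

/-! ### Random signs -/

/-- Row TYP: the type of the dual of a `q`-convex space -/
def TypS : Prop := ∀ (X : Type u) [NormedAddCommGroup X] [NormedSpace ℝ X] (N : Seminorm ℝ X)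
  (q c b : ℝ), 1 < q → 0 < c → 0 ≤ b → (∀ x, ‖x‖ ≤ N x) → (∀ x, N x ≤ b * ‖x‖) →
  QConvex N q c → ∀ (k : ℕ) (v : Fin k → (X →L[ℝ] ℝ)), (∀ j, ‖v j‖ ≤ 1) →
    avg (fun ε => ‖∑ j, sg (ε j) • v j‖) ≤ b * (2 / c) ^ (1 / q) * (k : ℝ) ^ (1 - 1 / q)

/-- Row CON: concentration of the norm of a sum with random signs -/
def ConS : Prop := ∀ (E : Type u) [NormedAddCommGroup E] [NormedSpace ℝ E] (k : ℕ)
  (v : Fin k → E) (m T : ℝ), (∀ j, ‖v j‖ ≤ 1) → avg (fun ε => ‖∑ j, sg (ε j) • v j‖) ≤ m →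
  0 ≤ T → avg (fun ε => if m + T * Real.sqrt k < ‖∑ j, sg (ε j) • v j‖ then (1 : ℝ) else 0) ≤
    Real.exp (-(T ^ 2 / 2))

/-! ### Lifting and duality -/

/-- random `K`-Lipschitz functions with prescribed first order coefficients, up to an error -/
def LiftProp (M : Type u) [PseudoMetricSpace M] (k : ℕ) (K : ℝ) : Prop :=
  ∀ g : Fin k → M → ℝ, (∀ i x y, |g i x - g i y| ≤ dist x y) →
    ∃ f : (Fin k → Bool) → M → ℝ, (∀ ε x y, |f ε x - f ε y| ≤ K * dist x y) ∧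
      ∀ i x y, |(g i x - avg (fun ε => sg (ε i) * f ε x)) -
        (g i y - avg (fun ε => sg (ε i) * f ε y))| ≤ dist x y / 2

/-- Row LIF: it suffices to bound the random sum on sets of probability close to `1` -/
def LifS : Prop := ∀ (M : Type u) [PseudoMetricSpace M] (k : ℕ) (K : ℝ), 0 ≤ K → K ≤ k →
  (∀ g : Fin k → M → ℝ, (∀ i x y, |g i x - g i y| ≤ dist x y) →
    ∃ G : (Fin k → Bool) → Set M,
      (∀ ε, ∀ x ∈ G ε, ∀ y ∈ G ε, |∑ i, sg (ε i) * (g i x - g i y)| ≤ K * dist x y) ∧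
      ∀ x, avg (fun ε => (G ε)ᶜ.indicator (fun _ => (1 : ℝ)) x) ≤ 1 / (8 * k)) →
  LiftProp M k K

/-- Row DUA: duality -/
def DuaS : Prop := ∀ (X : Type u) [PseudoMetricSpace X] (e : X) (M : Set X), e ∈ M →
  ∀ (k : ℕ) (K : ℝ), 0 ≤ K → LiftProp M k K →
  ∀ m : Fin k → Free X e, (∀ i, Carried M (m i)) → ∑ i, ‖m i‖ ≤ 2 * K * signAvg m

/-- Row SUB: subfamilies -/
def SubS : Prop := ∀ (E : Type u) [NormedAddCommGroup E] [NormedSpace ℝ E] (k n : ℕ)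
  (x : Fin k → E) (σ : Fin n → Fin k), Function.Injective σ → signAvg (x ∘ σ) ≤ signAvg x

/-- Row COT: summation -/
def CotS : Prop := ∀ δ q : ℝ, 0 < δ → δ ≤ 1 → 1 / δ < q → ∃ C : ℝ, 0 < C ∧
  ∀ (k : ℕ) (b : Fin k → ℝ) (A L : ℝ), (∀ i, 0 ≤ b i) → 0 ≤ A → 2 ≤ L →
    (∀ S : Finset (Fin k), S.Nonempty →
      ∑ i ∈ S, b i ≤ (S.card : ℝ) * (Real.log (S.card * L) / S.card) ^ δ * A) →
    (∑ i, b i ^ q) ^ (1 / q) ≤ C * Real.log L ^ δ * A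

/-- Row ASM: the main estimate -/
def AsmS : Prop := ∀ (C α q c b : ℝ), 1 ≤ C → 0 < α → 1 < q → 0 < c → 1 ≤ b →
  ∀ (X : Type u) [NormedAddCommGroup X] [NormedSpace ℝ X] (N : Seminorm ℝ X),
  (∀ x, ‖x‖ ≤ N x) → (∀ x, N x ≤ b * ‖x‖) → QConvex N q c → Smoothing N C α →
  ∀ (e : X) (M : Set X) (L : ℕ), e ∈ M → 2 ≤ L → FewScales M L →
  ∀ (k : ℕ) (m : Fin k → Free X e), 1 ≤ k → (∀ i, Carried M (m i)) →
    ∑ i, ‖m i‖ ≤ 7 * b * C * (11 + b * (2 / c) ^ (1 / q)) * k *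
      (Real.log (k * L) / k) ^ (min (α / (2 * (1 + α))) (1 / q)) * signAvg m

/-! ### Snowflakes -/

/-- Row SNM: a sum of minima -/
def SnmS : Prop := ∀ θ : ℝ, 0 < θ → θ < 1 → ∃ C : ℝ, 1 ≤ C ∧
  ∀ (A B t : ℝ), 0 < A → 0 < B → 0 < t → ∀ F : Finset ℤ,
    ∑ n ∈ F, min (A * (2 : ℝ) ^ ((n : ℝ) * (θ - 1)) * t) (B * (2 : ℝ) ^ ((n : ℝ) * θ)) ≤
      C * A ^ θ * B ^ (1 - θ) * t ^ θ

/-- Row SNO: random Lipschitz functions on finite snowflakes -/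
def SnoS : Prop := ∀ θ : ℝ, 0 < θ → θ < 1 → ∃ C : ℝ, 1 ≤ C ∧
  ∀ (M : Type u) [MetricSpace M] [Finite M], Snowflake M θ → ∀ k : ℕ, 1 ≤ k →
    LiftProp M k (C * (k : ℝ) ^ ((1 + θ) / 2) * (1 + Real.log k) ^ ((1 - θ) / 2))

/-- Row FIN: from finite subsets to the whole space -/
def FinS : Prop := ∀ (X : Type u) [PseudoMetricSpace X] (e : X) (k : ℕ) (K : ℝ), 0 ≤ K →
  (∀ M : Set X, M.Finite → e ∈ M → LiftProp M k K) →
  ∀ m : Fin k → Free X e, ∑ i, ‖m i‖ ≤ 2 * K * signAvg m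

end LipSX
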