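import Pool.Agent.Lib.MP_3ede0b_an.SX.Iface

/-! Row KER: the sup-inf-convolution. -/

namespace LipSX

universe u

namespace Ker

theorem tfact {p L t : ℝ} (hp : 1 < p) (hL : 0 < L) (ht : 0 ≤ t) :
    t - t ^ p / L ^ (p - 1) ≤ L := by
  have hLp : 0 < L ^ (p - 1) := Real.rpow_pos_of_pos hL _
  rcases le_or_gt t L with h | h
  · have : 0 ≤ t ^ p / L ^ (p - 1) := by positivity
    linarith
  · have ht0 : 0 < t := hL.trans h
    have h1 : L ^ (p - 1) ≤ t ^ (p - 1) := Real.rpow_le_rpow hL.le h.le (by linarith)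
    have h2 : t ^ p = t ^ (1 : ℝ) * t ^ (p - 1) := by
      rw [← Real.rpow_add ht0]
      congr 1
      ring
    have h3 : t ≤ t ^ p / L ^ (p - 1) := by
      rw [le_div_iff₀ hLp, h2, Real.rpow_one]
      exact mul_le_mul_of_nonneg_left h1 ht
    linarith

theorem near_aux {p mu t η : ℝ} (hp : 1 < p) (hmu : 0 < mu)
    (h : t ^ p / mu ^ (p - 1) ≤ t + η) (hη : η ≤ (2 ^ p - 2) * mu) : t ≤ 2 * mu := by
  by_contra hcon
  rw [not_le] at hcon
  have ht0 : 0 < t := by linarith
  have hM : 0 < mu ^ (p - 1) := Real.rpow_pos_of_pos hmu _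
  have h1 : (2 * mu) ^ (p - 1) < t ^ (p - 1) :=
    Real.rpow_lt_rpow (by linarith) hcon (by linarith)
  rw [Real.mul_rpow (by norm_num) hmu.le] at h1
  have h2 : t ^ p = t ^ (1 : ℝ) * t ^ (p - 1) := by
    rw [← Real.rpow_add ht0]
    congr 1
    ring
  rw [Real.rpow_one] at h2
  have h3 : (2 : ℝ) ^ p = 2 ^ (1 : ℝ) * 2 ^ (p - 1) := by
    rw [← Real.rpow_add (by norm_num)]
    congr 1
    ring
  rw [Real.rpow_one] at h3
  have h4 : (1 : ℝ) < 2 ^ (p - 1) := Real.one_lt_rpow (by norm_num) (by linarith)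
  have h5 : t * 2 ^ (p - 1) < t ^ p / mu ^ (p - 1) := by
    rw [lt_div_iff₀ hM, h2, mul_assoc]
    exact mul_lt_mul_of_pos_left h1 ht0
  have h6 : t * (2 ^ (p - 1) - 1) < η := by linarith
  have h7 : 2 * mu * (2 ^ (p - 1) - 1) < t * (2 ^ (p - 1) - 1) :=
    mul_lt_mul_of_pos_right hcon (by linarith)
  rw [h3] at hη
  linarith

theorem tangent {p A s : ℝ} (hp : 1 < p) (hA : 0 < A) (hs : 0 ≤ A + s) :
    A ^ p + p * A ^ (p - 1) * s ≤ (A + s) ^ p := by
  have h1 : -1 ≤ s / A := by
    rw [le_div_iff₀ hA]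
    linarith
  have h2 := one_add_mul_self_le_rpow_one_add h1 hp.le
  have h3 : (A + s) ^ p = A ^ p * (1 + s / A) ^ p := by
    rw [← Real.mul_rpow hA.le (by linarith)]
    congr 1
    field_simp
  have h4 : A ^ p = A ^ (1 : ℝ) * A ^ (p - 1) := by
    rw [← Real.rpow_add hA]
    congr 1
    ring
  rw [Real.rpow_one] at h4
  have h5 : A ^ p + p * A ^ (p - 1) * s = A ^ p * (1 + p * (s / A)) := by
    rw [h4]
    field_simp
  rw [h3, h5]
  exact mul_le_mul_of_nonneg_left h2 (by positivity)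

section

variable {X : Type u} [AddCommGroup X] [Module ℝ X]

theorem supp (N : Seminorm ℝ X) (u : X) (hu : 0 < N u) :
    ∃ φ : X →ₗ[ℝ] ℝ, φ u = N u ∧ ∀ x, φ x ≤ N x := by
  have hu0 : u ≠ 0 := by
    rintro rfl
    rw [map_zero] at hu
    exact lt_irrefl _ hu
  obtain ⟨g, hg1, hg2⟩ := exists_extension_of_le_sublinear
    (LinearPMap.mkSpanSingleton u (N u) hu0) N
    (fun c hc x => by rw [map_smul_eq_mul, Real.norm_of_nonneg hc.le])
    (fun x y => map_add_le_add N x y) (by
      rintro ⟨x, hx⟩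
      obtain ⟨c, rfl⟩ := Submodule.mem_span_singleton.1 hx
      have h1 : (LinearPMap.mkSpanSingleton u (N u) hu0 : X →ₗ.[ℝ] ℝ) ⟨c • u, hx⟩ = c • N u :=
        LinearPMap.mkSpanSingleton'_apply _ _ _ _ _
      rw [h1]
      change c • N u ≤ N (c • u)
      rw [map_smul_eq_mul, smul_eq_mul]
      exact mul_le_mul_of_nonneg_right (le_abs_self c) (apply_nonneg N u))
  refine ⟨g, ?_, hg2⟩
  have h1 := hg1 ⟨u, Submodule.mem_span_singleton_self u⟩
  have h2 : (LinearPMap.mkSpanSingleton u (N u) hu0 : X →ₗ.[ℝ] ℝ)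
      ⟨u, Submodule.mem_span_singleton_self u⟩ = N u :=
    LinearPMap.mkSpanSingleton_apply ℝ ℝ hu0 (N u)
  rw [h2] at h1
  exact h1

theorem exists_W (N : Seminorm ℝ X) {p : ℝ} (hp : 1 < p) (u : X) :
    ∃ W : X →ₗ[ℝ] ℝ, ∀ h, N u ^ p + W h ≤ N (u + h) ^ p := by
  have hp0 : p ≠ 0 := by linarith
  rcases (apply_nonneg N u).eq_or_lt with h0 | h0
  · refine ⟨0, fun h => ?_⟩
    rw [← h0, Real.zero_rpow hp0, LinearMap.zero_apply, add_zero]
    exact Real.rpow_nonneg (apply_nonneg N _) _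
  · obtain ⟨φ, h1, h2⟩ := supp N u h0
    refine ⟨(p * N u ^ (p - 1)) • φ, fun h => ?_⟩
    rw [LinearMap.smul_apply, smul_eq_mul]
    rcases le_or_gt 0 (N u + φ h) with h3 | h3
    · refine (tangent hp h0 h3).trans ?_
      apply Real.rpow_le_rpow h3 _ (by linarith)
      rw [← h1, ← map_add]
      exact h2 _
    · have h4 : N u ^ p = N u ^ (1 : ℝ) * N u ^ (p - 1) := by
        rw [← Real.rpow_add h0]
        congr 1
        ring
      rw [Real.rpow_one] at h4
      have h5 : 0 < N u ^ (p - 1) := Real.rpow_pos_of_pos h0 _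
      have h6 : 0 ≤ N (u + h) ^ p := Real.rpow_nonneg (apply_nonneg N _) _
      have h7 : N u ^ p + p * N u ^ (p - 1) * φ h =
          N u ^ (p - 1) * (N u + p * φ h) := by
        rw [h4]
        ring
      rw [h7]
      have h8 : N u + p * φ h ≤ 0 := by
        have : (p - 1) * φ h ≤ 0 :=
          mul_nonpos_of_nonneg_of_nonpos (by linarith) (by linarith)
        linarith
      exact (mul_nonpos_of_nonneg_of_nonpos h5.le h8).trans h6

end

end Ker

open Ker in
/-- Row KER. -/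
theorem ker : KerS.{u} := by
  intro X _ _ N p K lam mu r ε₁ ε₂ hp hK hS hmu hml hr h1 h2 f hf
  have hlam : 0 < lam := lt_of_lt_of_le hmu hml
  have hp0 : 0 < p := by linarith
  have hL : 0 < lam ^ (p - 1) := Real.rpow_pos_of_pos hlam _
  have hM : 0 < mu ^ (p - 1) := Real.rpow_pos_of_pos hmu _
  have hN0 : ∀ x, 0 ≤ N x := fun x => apply_nonneg N x
  have hzero : (0 : ℝ) ^ p = 0 := Real.zero_rpow hp0.ne'
  have hrp : 0 ≤ K * r ^ p / mu ^ (p - 1) := by positivity
  have hε₁ : 0 < ε₁ := lt_of_le_of_lt hrp h1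
  have hε₂ : 0 ≤ ε₂ := by
    have := h2 0 0 0 (by rw [add_zero, map_zero]; linarith) (by rw [sub_zero, map_zero]; linarith)
      (by rw [map_zero]; exact hr.le)
    rw [sub_zero, add_zero, map_zero, hzero, mul_zero, zero_div, mul_zero, sub_zero, sub_zero,
      zero_div, add_zero] at this
    exact this
  -- the infimum
  have hb1 : ∀ x y, f x - lam ≤ f y + N (x - y) ^ p / lam ^ (p - 1) := by
    intro x y
    have a1 := (abs_le.1 (hf x y)).2
    have a2 := tfact hp hlam (hN0 (x - y))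
    linarith
  let f1 : X → ℝ := fun x => ⨅ y, (f y + N (x - y) ^ p / lam ^ (p - 1))
  have f1_le : ∀ x y, f1 x ≤ f y + N (x - y) ^ p / lam ^ (p - 1) := fun x y =>
    ciInf_le ⟨f x - lam, by rintro _ ⟨z, rfl⟩; exact hb1 x z⟩ y
  have le_f1 : ∀ x c, (∀ y, c ≤ f y + N (x - y) ^ p / lam ^ (p - 1)) → c ≤ f1 x :=
    fun x c h => le_ciInf h
  have f1a : ∀ x, f x - lam ≤ f1 x := fun x => le_f1 x _ (hb1 x)
  have f1b : ∀ x, f1 x ≤ f x := by
    intro x
    have := f1_le x x
    rw [sub_self, map_zero, hzero, zero_div, add_zero] at this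
    exact this
  have f1L : ∀ x x', f1 x' ≤ f1 x + N (x' - x) := by
    intro x x'
    have a0 : f1 x' - N (x' - x) ≤ f1 x := by
      apply le_f1
      intro y
      have a3 := f1_le x' (y + (x' - x))
      have a4 : x' - (y + (x' - x)) = x - y := by abel
      rw [a4] at a3
      have a5 := hf (y + (x' - x)) y
      rw [add_sub_cancel_left] at a5
      have a6 := (abs_le.1 a5).2
      linarith
    linarith
  have mid : ∀ y d, f1 (y + d) + f1 (y - d) ≤ 2 * f1 y + K * N d ^ p / lam ^ (p - 1) := by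
    intro y d
    have a0 : (f1 (y + d) + f1 (y - d) - K * N d ^ p / lam ^ (p - 1)) / 2 ≤ f1 y := by
      apply le_f1
      intro z
      have a3 := f1_le (y + d) z
      have a4 := f1_le (y - d) z
      have a5 := hS (y - z) d
      have e1 : y + d - z = y - z + d := by abel
      have e2 : y - d - z = y - z - d := by abel
      rw [e1] at a3
      rw [e2] at a4
      have a6 : N (y - z + d) ^ p / lam ^ (p - 1) + N (y - z - d) ^ p / lam ^ (p - 1) ≤
          (2 * N (y - z) ^ p + K * N d ^ p) / lam ^ (p - 1) := by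
        rw [← add_div]
        exact div_le_div_of_nonneg_right a5 hL.le
      rw [add_div, mul_div_assoc 2] at a6
      linarith
    linarith
  -- the supremum
  have hb2 : ∀ x y, f1 y - N (x - y) ^ p / mu ^ (p - 1) ≤ f1 x + mu := by
    intro x y
    have a1 := f1L x y
    rw [map_sub_rev] at a1
    have a2 := tfact hp hmu (hN0 (x - y))
    linarith
  let g : X → ℝ := fun x => ⨆ y, (f1 y - N (x - y) ^ p / mu ^ (p - 1))
  have le_g : ∀ x y, f1 y - N (x - y) ^ p / mu ^ (p - 1) ≤ g x := fun x y =>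
    le_ciSup (f := fun y => f1 y - N (x - y) ^ p / mu ^ (p - 1))
      ⟨f1 x + mu, by rintro _ ⟨z, rfl⟩; exact hb2 x z⟩ y
  have g_le : ∀ x, g x ≤ f1 x + mu := fun x => ciSup_le (hb2 x)
  have g_ge : ∀ x, f1 x ≤ g x := by
    intro x
    have := le_g x x
    rw [sub_self, map_zero, hzero, zero_div, sub_zero] at this
    exact this
  have ex : ∀ x δ, 0 < δ → ∃ y, g x - δ < f1 y - N (x - y) ^ p / mu ^ (p - 1) := by
    intro x δ hδ
    exact exists_lt_of_lt_ciSup (by linarith : g x - δ < g x)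
  have gL : ∀ x x', g x' ≤ g x + N (x' - x) := by
    intro x x'
    apply ciSup_le
    intro y
    have a3 := le_g x (y - (x' - x))
    have a4 : x - (y - (x' - x)) = x' - y := by abel
    rw [a4] at a3
    have a5 := f1L (y - (x' - x)) y
    have a6 : y - (y - (x' - x)) = x' - x := by abel
    rw [a6] at a5
    linarith
  have near : ∀ η x y, η ≤ (2 ^ p - 2) * mu →
      g x - η ≤ f1 y - N (x - y) ^ p / mu ^ (p - 1) → N (x - y) ≤ 2 * mu := by
    intro η x y hη h
    have a3 := g_ge x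
    have a4 := f1L x y
    rw [map_sub_rev] at a4
    exact near_aux hp hmu (by linarith) hη
  have h2p : 0 < (2 ^ p - 2) * mu := by
    have : (2 : ℝ) ^ (1 : ℝ) < 2 ^ p := Real.rpow_lt_rpow_of_exponent_lt (by norm_num) hp
    rw [Real.rpow_one] at this
    exact mul_pos (by linarith) hmu
  have sec : ∀ x h, N h ≤ r → g (x + h) + g (x - h) - 2 * g x ≤ ε₂ := by
    intro x h hh
    apply le_of_forall_pos_le_add
    intro η hη
    set δ : ℝ := min (η / 2) ((2 ^ p - 2) * mu) with hδ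
    have hδ0 : 0 < δ := lt_min (by linarith) h2p
    have hδ1 : δ ≤ η / 2 := min_le_left _ _
    obtain ⟨y1, hy1⟩ := ex (x + h) δ hδ0
    obtain ⟨y2, hy2⟩ := ex (x - h) δ hδ0
    have e1 : (1 / 2 : ℝ) • (y1 + y2) + (1 / 2 : ℝ) • (y1 - y2) = y1 := by module
    have e2 : (1 / 2 : ℝ) • (y1 + y2) - (1 / 2 : ℝ) • (y1 - y2) = y2 := by module
    have m := mid ((1 / 2 : ℝ) • (y1 + y2)) ((1 / 2 : ℝ) • (y1 - y2))
    rw [e1, e2] at m
    have q := le_g x ((1 / 2 : ℝ) • (y1 + y2))
    have e3 : x - (1 / 2 : ℝ) • (y1 + y2) + (h - (1 / 2 : ℝ) • (y1 - y2)) = x + h - y1 := by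
      module
    have e4 : x - (1 / 2 : ℝ) • (y1 + y2) - (h - (1 / 2 : ℝ) • (y1 - y2)) = x - h - y2 := by
      module
    have n1 : N (x - (1 / 2 : ℝ) • (y1 + y2) + (h - (1 / 2 : ℝ) • (y1 - y2))) ≤ 2 * mu := by
      rw [e3]
      exact near δ _ _ (min_le_right _ _) hy1.le
    have n2 : N (x - (1 / 2 : ℝ) • (y1 + y2) - (h - (1 / 2 : ℝ) • (y1 - y2))) ≤ 2 * mu := by
      rw [e4]
      exact near δ _ _ (min_le_right _ _) hy2.le
    have q2 := h2 _ _ h n1 n2 hh
    have e5 : h - (h - (1 / 2 : ℝ) • (y1 - y2)) = (1 / 2 : ℝ) • (y1 - y2) := by abel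
    rw [e3, e4, e5, sub_div, sub_div, mul_div_assoc 2] at q2
    linarith
  refine ⟨g, ?_, fun x => ?_⟩
  · intro x
    have a1 := f1a x
    have a2 := f1b x
    have a3 := g_ge x
    have a4 := g_le x
    rw [abs_le]
    constructor <;> linarith
  · obtain ⟨y0, hy0⟩ := ex x (ε₁ - K * r ^ p / mu ^ (p - 1)) (by linarith)
    obtain ⟨W, hW⟩ := exists_W N hp (x - y0)
    have hV : ∀ h, ((-(mu ^ (p - 1))⁻¹) • W) h = -(W h / mu ^ (p - 1)) := by
      intro h
      rw [LinearMap.smul_apply, smul_eq_mul, div_eq_inv_mul]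
      ring
    generalize (-(mu ^ (p - 1))⁻¹) • W = V at hV
    have low : ∀ h, N h ≤ r → g x + V h - ε₁ ≤ g (x + h) := by
      intro h hh
      have a3 := hW (-h)
      rw [map_neg] at a3
      have a4 := hS (x - y0) h
      have e1 : x - y0 + -h = x - y0 - h := by abel
      rw [e1] at a3
      have a5 := le_g (x + h) y0
      have e2 : x + h - y0 = x - y0 + h := by abel
      rw [e2] at a5
      have a6 : N h ^ p ≤ r ^ p := Real.rpow_le_rpow (hN0 h) hh hp0.le
      have a7 : K * N h ^ p ≤ K * r ^ p := mul_le_mul_of_nonneg_left a6 hK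
      have a8 : N (x - y0 + h) ^ p ≤ N (x - y0) ^ p + W h + K * r ^ p := by linarith
      have a9 : N (x - y0 + h) ^ p / mu ^ (p - 1) ≤
          (N (x - y0) ^ p + W h + K * r ^ p) / mu ^ (p - 1) :=
        div_le_div_of_nonneg_right a8 hM.le
      rw [add_div, add_div] at a9
      rw [hV]
      linarith
    have up1 : ∀ h, N h ≤ r → V h ≤ N h + ε₁ := by
      intro h hh
      have a1 := low h hh
      have a2 := gL x (x + h)
      rw [add_sub_cancel_left] at a2
      linarith
    have up : ∀ h, V h ≤ (1 + ε₁ / r) * N h := by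
      intro h
      rcases (hN0 h).eq_or_lt with h0 | h0
      · rw [← h0, mul_zero]
        by_contra hcon
        rw [not_le] at hcon
        have a1 : N (((ε₁ + 1) / V h) • h) = 0 := by
          rw [map_smul_eq_mul, ← h0, mul_zero]
        have a2 := up1 (((ε₁ + 1) / V h) • h) (by rw [a1]; exact hr.le)
        rw [a1, map_smul, smul_eq_mul, div_mul_cancel₀ _ hcon.ne'] at a2
        linarith
      · have a1 : N ((r / N h) • h) = r := by
          rw [map_smul_eq_mul, Real.norm_of_nonneg (by positivity), div_mul_cancel₀ _ h0.ne']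
        have a2 := up1 ((r / N h) • h) a1.le
        rw [a1, map_smul, smul_eq_mul, div_mul_eq_mul_div, div_le_iff₀ h0] at a2
        have a3 : (1 + ε₁ / r) * N h = (r + ε₁) * N h / r := by
          field_simp
        rw [a3, le_div_iff₀ hr, mul_comm]
        exact a2
    refine ⟨V, ?_, ?_⟩
    · intro h
      rw [abs_le]
      have a1 := up (-h)
      rw [map_neg, map_neg_eq_map] at a1
      exact ⟨by linarith, up h⟩
    · intro h hh
      have a1 := low h hh
      have a2 := low (-h) (by rw [map_neg_eq_map]; exact hh)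
      rw [map_neg, ← sub_eq_add_neg x h] at a2
      have a3 := sec x h hh
      rw [abs_le]
      constructor <;> linarith

end LipSX
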