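import Pool.Agent.Lib.MP_3ede0b_an.SX.Iface

/-! Row LIF: it suffices to bound the random sum on sets of probability close to one. -/

namespace LipSX

open Finset LipFree LipRad

universe u

/-- the absolute value of an average -/
theorem abs_avg_le {k : ℕ} {φ ψ : (Fin k → Bool) → ℝ} (h : ∀ ε, |φ ε| ≤ ψ ε) :
    |avg φ| ≤ avg ψ := by
  rw [abs_le]
  constructor
  · have h1 : avg (fun ε => (-1 : ℝ) * ψ ε) ≤ avg φ := avg_mono fun ε => by
      have := (abs_le.1 (h ε)).1
      linarith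
    rw [avg_smul] at h1
    linarith
  · exact avg_mono fun ε => (abs_le.1 (h ε)).2

/-- the first Walsh coefficients of a signed sum -/
theorem avg_sg_mul_sum {k : ℕ} (i : Fin k) (a : Fin k → ℝ) :
    avg (fun ε => sg (ε i) * ∑ j, sg (ε j) * a j) = a i := by
  have e : ∀ ε : Fin k → Bool, sg (ε i) * ∑ j, sg (ε j) * a j =
      ∑ j, a j * (sg (ε i) * sg (ε j)) := by
    intro ε
    rw [mul_sum]
    exact sum_congr rfl fun j _ => by ring
  simp only [e]
  rw [avg_sum]
  simp only [avg_smul, avg_sg_mul_sg]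
  simp

theorem lif : LifS.{u} := by
  intro M _ k K hK hKk hG g hg
  obtain ⟨G, hG1, hG2⟩ := hG g hg
  classical
  have hS : ∀ (ε : Fin k → Bool) (x y : M),
      |(∑ i, sg (ε i) * g i x) - ∑ i, sg (ε i) * g i y| ≤ k * dist x y := by
    intro ε x y
    rw [← sum_sub_distrib]
    calc |∑ i, (sg (ε i) * g i x - sg (ε i) * g i y)|
        ≤ ∑ i, |sg (ε i) * g i x - sg (ε i) * g i y| := abs_sum_le_sum_abs _ _
      _ ≤ ∑ _i : Fin k, dist x y := sum_le_sum fun i _ => by
          rw [← mul_sub, abs_mul, abs_sg, one_mul]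
          exact hg i x y
      _ = k * dist x y := by simp
  have hext : ∀ ε : Fin k → Bool, ∃ F : M → ℝ, (∀ x y, |F x - F y| ≤ K * dist x y) ∧
      ∀ x ∈ G ε, F x = ∑ i, sg (ε i) * g i x := by
    intro ε
    have hL : LipschitzOnWith ⟨K, hK⟩ (fun x => ∑ i, sg (ε i) * g i x) (G ε) := by
      refine LipschitzOnWith.of_dist_le_mul fun x hx y hy => ?_
      rw [Real.dist_eq]
      have h := hG1 ε x hx y hy
      have e : (∑ i, sg (ε i) * g i x) - ∑ i, sg (ε i) * g i y =
          ∑ i, sg (ε i) * (g i x - g i y) := by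
        rw [← sum_sub_distrib]
        exact sum_congr rfl fun i _ => by ring
      rw [e]
      exact h
    obtain ⟨F, hF1, hF2⟩ := hL.extend_real
    refine ⟨F, fun x y => ?_, fun x hx => (hF2 hx).symm⟩
    have := hF1.dist_le_mul x y
    rwa [Real.dist_eq] at this
  choose f hf1 hf2 using hext
  refine ⟨f, hf1, fun i x y => ?_⟩
  have hk : (0 : ℝ) < k := by
    have : 0 < k := Nat.pos_of_ne_zero fun h => by
      subst h; exact i.elim0
    exact_mod_cast this
  have e : (g i x - avg (fun ε => sg (ε i) * f ε x)) - (g i y - avg (fun ε => sg (ε i) * f ε y)) =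
      avg (fun ε => sg (ε i) * (((∑ j, sg (ε j) * g j x) - f ε x) -
        ((∑ j, sg (ε j) * g j y) - f ε y))) := by
    have e1 : ∀ ε : Fin k → Bool, sg (ε i) * (((∑ j, sg (ε j) * g j x) - f ε x) -
        ((∑ j, sg (ε j) * g j y) - f ε y)) =
        (sg (ε i) * (∑ j, sg (ε j) * g j x) - sg (ε i) * f ε x) -
        (sg (ε i) * (∑ j, sg (ε j) * g j y) - sg (ε i) * f ε y) := fun ε => by ring
    simp only [e1]
    rw [avg_sub, avg_sub, avg_sub, avg_sg_mul_sum, avg_sg_mul_sum]
  rw [e]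
  have hb : ∀ ε : Fin k → Bool, |sg (ε i) * (((∑ j, sg (ε j) * g j x) - f ε x) -
      ((∑ j, sg (ε j) * g j y) - f ε y))| ≤ (2 * k * dist x y) *
        ((G ε)ᶜ.indicator (fun _ => (1 : ℝ)) x + (G ε)ᶜ.indicator (fun _ => (1 : ℝ)) y) := by
    intro ε
    rw [abs_mul, abs_sg, one_mul]
    have hi0 : ∀ z : M, 0 ≤ (G ε)ᶜ.indicator (fun _ => (1 : ℝ)) z := fun z =>
      Set.indicator_nonneg (fun _ _ => zero_le_one) z
    have hd : 0 ≤ 2 * (k : ℝ) * dist x y := by positivity
    have hmain : |((∑ j, sg (ε j) * g j x) - f ε x) -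
        ((∑ j, sg (ε j) * g j y) - f ε y)| ≤ 2 * k * dist x y := by
      have e2 : ((∑ j, sg (ε j) * g j x) - f ε x) - ((∑ j, sg (ε j) * g j y) - f ε y) =
          ((∑ j, sg (ε j) * g j x) - ∑ j, sg (ε j) * g j y) - (f ε x - f ε y) := by ring
      rw [e2]
      calc _ ≤ |(∑ j, sg (ε j) * g j x) - ∑ j, sg (ε j) * g j y| + |f ε x - f ε y| :=
            abs_sub _ _
        _ ≤ k * dist x y + K * dist x y := add_le_add (hS ε x y) (hf1 ε x y)
        _ ≤ k * dist x y + k * dist x y := by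
            have := mul_le_mul_of_nonneg_right hKk (dist_nonneg (x := x) (y := y))
            linarith
        _ = 2 * k * dist x y := by ring
    by_cases hx : x ∈ G ε
    · by_cases hy : y ∈ G ε
      · rw [hf2 ε x hx, hf2 ε y hy]
        simp only [sub_self, abs_zero]
        exact mul_nonneg hd (add_nonneg (hi0 x) (hi0 y))
      · have h1 : (G ε)ᶜ.indicator (fun _ => (1 : ℝ)) y = 1 :=
          Set.indicator_of_mem (by exact hy) _
        rw [h1]
        nlinarith [hi0 x, mul_nonneg hd (hi0 x)]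
    · have h1 : (G ε)ᶜ.indicator (fun _ => (1 : ℝ)) x = 1 :=
        Set.indicator_of_mem (by exact hx) _
      rw [h1]
      nlinarith [hi0 y, mul_nonneg hd (hi0 y)]
  calc _ ≤ avg (fun ε => (2 * k * dist x y) *
        ((G ε)ᶜ.indicator (fun _ => (1 : ℝ)) x + (G ε)ᶜ.indicator (fun _ => (1 : ℝ)) y)) :=
        abs_avg_le hb
    _ = (2 * k * dist x y) * (avg (fun ε => (G ε)ᶜ.indicator (fun _ => (1 : ℝ)) x) +
        avg (fun ε => (G ε)ᶜ.indicator (fun _ => (1 : ℝ)) y)) := by rw [avg_smul, avg_add]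
    _ ≤ (2 * k * dist x y) * (1 / (8 * k) + 1 / (8 * k)) :=
        mul_le_mul_of_nonneg_left (add_le_add (hG2 x) (hG2 y)) (by positivity)
    _ = dist x y / 2 := by field_simp; ring

end LipSX
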