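import Pool.Agent.Lib.MP_3ede0b_an.SX.Iface

/-! Row SMG: smoothing in superreflexive spaces. -/

namespace LipSX

universe u

namespace Smg

/-- comparison of the two powers -/
lemma pow_cmp {p q R t a : ℝ} (hpq : p < q) (hR : 0 < R) (ht : 0 < t) (htR : t ≤ R) :
    R ^ (p - q) * t ^ (q - a) ≤ t ^ (p - a) := by
  have h1 : t ^ (q - a) = t ^ (p - a) * t ^ (q - p) := by
    rw [← Real.rpow_add ht]; congr 1; ring
  have h2 : R ^ (p - q) = (R ^ (q - p))⁻¹ := by
    rw [← Real.rpow_neg hR.le]; congr 1; ring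
  have h3 : t ^ (q - p) ≤ R ^ (q - p) := Real.rpow_le_rpow ht.le htR (by linarith)
  have h4 : 0 < R ^ (q - p) := Real.rpow_pos_of_pos hR _
  have h5 : 0 < t ^ (p - a) := Real.rpow_pos_of_pos ht _
  rw [h1, h2, inv_mul_le_iff₀ h4]
  nlinarith

/-- the function `t ^ p - κ R ^ (p - q) t ^ q` -/
noncomputable def psi (p q R : ℝ) (t : ℝ) : ℝ :=
  t ^ p - (p * (p - 1) / (q * (q - 1))) * R ^ (p - q) * t ^ q

lemma psi_cont {p q R : ℝ} (hp : 1 < p) (hpq : p < q) :
    ContinuousOn (psi p q R) (Set.Icc 0 R) := by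
  unfold psi
  refine Continuous.continuousOn ?_
  exact (Real.continuous_rpow_const (by linarith)).sub
    (continuous_const.mul (Real.continuous_rpow_const (by linarith)))

lemma psi_deriv {p q R : ℝ} {t : ℝ} (ht : 0 < t) :
    HasDerivAt (psi p q R)
      (p * t ^ (p - 1) - (p * (p - 1) / (q * (q - 1))) * R ^ (p - q) * (q * t ^ (q - 1))) t := by
  unfold psi
  exact (Real.hasDerivAt_rpow_const (Or.inl ht.ne')).sub
    ((Real.hasDerivAt_rpow_const (Or.inl ht.ne')).const_mul _)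

lemma psi_convex {p q R : ℝ} (hp : 1 < p) (hpq : p < q) (hR : 0 < R) :
    ConvexOn ℝ (Set.Icc 0 R) (psi p q R) := by
  refine convexOn_of_hasDerivWithinAt2_nonneg (convex_Icc 0 R) (psi_cont hp hpq)
    (f' := fun t => p * t ^ (p - 1) -
      (p * (p - 1) / (q * (q - 1))) * R ^ (p - q) * (q * t ^ (q - 1)))
    (f'' := fun t => p * ((p - 1) * t ^ (p - 1 - 1)) -
      (p * (p - 1) / (q * (q - 1))) * R ^ (p - q) * (q * ((q - 1) * t ^ (q - 1 - 1)))) ?_ ?_ ?_
  · intro t ht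
    rw [interior_Icc] at ht
    exact (psi_deriv ht.1).hasDerivWithinAt
  · intro t ht
    rw [interior_Icc] at ht
    refine HasDerivAt.hasDerivWithinAt ?_
    exact ((Real.hasDerivAt_rpow_const (Or.inl ht.1.ne')).const_mul _).sub
      (((Real.hasDerivAt_rpow_const (Or.inl ht.1.ne')).const_mul _).const_mul _)
  · intro t ht
    rw [interior_Icc] at ht
    have h1 := pow_cmp (a := 2) hpq hR ht.1 ht.2.le
    have h2 : p * ((p - 1) * t ^ (p - 1 - 1)) -
        (p * (p - 1) / (q * (q - 1))) * R ^ (p - q) * (q * ((q - 1) * t ^ (q - 1 - 1))) =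
        p * (p - 1) * (t ^ (p - 2) - R ^ (p - q) * t ^ (q - 2)) := by
      rw [show p - 1 - 1 = p - 2 by ring, show q - 1 - 1 = q - 2 by ring]
      have : q ≠ 0 := by linarith
      have : q - 1 ≠ 0 := by linarith
      field_simp
    rw [h2]
    have : 0 < p * (p - 1) := mul_pos (by linarith) (by linarith)
    exact mul_nonneg this.le (by linarith)

lemma psi_mono {p q R : ℝ} (hp : 1 < p) (hpq : p < q) (hR : 0 < R) :
    MonotoneOn (psi p q R) (Set.Icc 0 R) := by
  refine monotoneOn_of_hasDerivWithinAt_nonneg (convex_Icc 0 R) (psi_cont hp hpq)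
    (f' := fun t => p * t ^ (p - 1) -
      (p * (p - 1) / (q * (q - 1))) * R ^ (p - q) * (q * t ^ (q - 1))) ?_ ?_
  · intro t ht
    rw [interior_Icc] at ht
    exact (psi_deriv ht.1).hasDerivWithinAt
  · intro t ht
    rw [interior_Icc] at ht
    have h1 := pow_cmp (a := 1) hpq hR ht.1 ht.2.le
    have h0 : 0 ≤ R ^ (p - q) * t ^ (q - 1) :=
      mul_nonneg (Real.rpow_nonneg hR.le _) (Real.rpow_nonneg ht.1.le _)
    have h2 : (p * (p - 1) / (q * (q - 1))) * R ^ (p - q) * (q * t ^ (q - 1)) =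
        p * ((p - 1) / (q - 1)) * (R ^ (p - q) * t ^ (q - 1)) := by
      have : q ≠ 0 := by linarith
      have : q - 1 ≠ 0 := by linarith
      field_simp
    have h3 : (p - 1) / (q - 1) ≤ 1 := by
      rw [div_le_one (by linarith)]; linarith
    have h3' : 0 ≤ (p - 1) / (q - 1) := div_nonneg (by linarith) (by linarith)
    show 0 ≤ p * t ^ (p - 1) -
      (p * (p - 1) / (q * (q - 1))) * R ^ (p - q) * (q * t ^ (q - 1))
    rw [h2]
    have h4 : (p - 1) / (q - 1) * (R ^ (p - q) * t ^ (q - 1)) ≤ t ^ (p - 1) :=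
      (mul_le_of_le_one_left h0 h3).trans h1
    have hp0 : 0 < p := by linarith
    nlinarith

lemma psi_ineq {p q R A B U : ℝ} (hp : 1 < p) (hpq : p < q) (hR : 0 < R) (hA : 0 ≤ A)
    (hB : 0 ≤ B) (hU : 0 ≤ U) (hAR : A ≤ R) (hBR : B ≤ R) (hUAB : U ≤ (A + B) / 2) :
    (p * (p - 1) / (q * (q - 1))) * R ^ (p - q) * (A ^ q + B ^ q - 2 * U ^ q) ≤
      A ^ p + B ^ p - 2 * U ^ p := by
  have h1 : psi p q R U ≤ psi p q R ((A + B) / 2) :=
    psi_mono hp hpq hR ⟨hU, by linarith⟩ ⟨by linarith, by linarith⟩ hUAB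
  have h2 := (psi_convex hp hpq hR).2 (show A ∈ Set.Icc 0 R from ⟨hA, hAR⟩)
    (show B ∈ Set.Icc 0 R from ⟨hB, hBR⟩) (by norm_num : (0 : ℝ) ≤ 1 / 2)
    (by norm_num : (0 : ℝ) ≤ 1 / 2) (by norm_num)
  have h3 : (1 / 2 : ℝ) • A + (1 / 2 : ℝ) • B = (A + B) / 2 := by
    simp only [smul_eq_mul]; ring
  rw [h3] at h2
  simp only [smul_eq_mul] at h2
  have h4 : 2 * psi p q R U ≤ psi p q R A + psi p q R B := by linarith
  unfold psi at h4
  linarith

/-- `a t ^ p - b t ^ q ≤ a (a / b) ^ (p / (q - p))` -/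
lemma two_pow {p q a b t : ℝ} (hp : 0 < p) (hpq : p < q) (ha : 0 ≤ a) (hb : 0 < b)
    (ht : 0 ≤ t) : a * t ^ p - b * t ^ q ≤ a * (a / b) ^ (p / (q - p)) := by
  have hqp : 0 < q - p := by linarith
  have h0 : 0 ≤ a * (a / b) ^ (p / (q - p)) :=
    mul_nonneg ha (Real.rpow_nonneg (div_nonneg ha hb.le) _)
  rcases le_or_gt (t ^ (q - p)) (a / b) with h | h
  · have h1 : t ^ p = (t ^ (q - p)) ^ (p / (q - p)) := by
      rw [← Real.rpow_mul ht]
      congr 1
      field_simp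
    have h2 : t ^ p ≤ (a / b) ^ (p / (q - p)) := by
      rw [h1]
      exact Real.rpow_le_rpow (Real.rpow_nonneg ht _) h (div_nonneg hp.le hqp.le)
    have h3 : 0 ≤ b * t ^ q := mul_nonneg hb.le (Real.rpow_nonneg ht _)
    have h4 := mul_le_mul_of_nonneg_left h2 ha
    linarith
  · have ht0 : 0 < t := by
      rcases ht.eq_or_lt with h' | h'
      · rw [← h', Real.zero_rpow hqp.ne'] at h
        exact absurd h (not_lt.2 (div_nonneg ha hb.le))
      · exact h'
    have h1 : t ^ q = t ^ p * t ^ (q - p) := by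
      rw [← Real.rpow_add ht0]; congr 1; ring
    have h2 : a < b * t ^ (q - p) := by
      rw [div_lt_iff₀ hb] at h
      linarith
    have h3 : 0 < t ^ p := Real.rpow_pos_of_pos ht0 _
    have h4 : a * t ^ p - b * t ^ q ≤ 0 := by
      rw [h1]
      nlinarith
    linarith

lemma add_pow {p x y : ℝ} (hp : 0 < p) (hx : 0 ≤ x) (hy : 0 ≤ y) :
    (x + y) ^ p ≤ 2 ^ p * (x ^ p + y ^ p) := by
  have h1 : (x + y) ^ p ≤ (2 * max x y) ^ p := by
    refine Real.rpow_le_rpow (by linarith) ?_ hp.le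
    have := le_max_left x y
    have := le_max_right x y
    linarith
  rw [Real.mul_rpow (by norm_num) (le_max_of_le_left hx)] at h1
  refine h1.trans (mul_le_mul_of_nonneg_left ?_ (Real.rpow_nonneg (by norm_num) _))
  rcases le_total x y with h | h
  · rw [max_eq_right h]
    have := Real.rpow_nonneg hx p
    linarith
  · rw [max_eq_left h]
    have := Real.rpow_nonneg hy p
    linarith

end Smg

open Smg

theorem smg (h : KerS.{u}) : SmgS.{u} := by
  intro p q K c hp hpq hK hc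
  obtain ⟨kap, hkap⟩ : ∃ kap, kap = p * (p - 1) / (q * (q - 1)) := ⟨_, rfl⟩
  obtain ⟨e, he⟩ : ∃ e, e = (q - 1) * p / (q - p) := ⟨_, rfl⟩
  obtain ⟨β, hβ⟩ : ∃ β, β = p / (e + p - 1) := ⟨_, rfl⟩
  obtain ⟨α, hα⟩ : ∃ α, α = (p - 1) * (e - 1) / (e + p - 1) := ⟨_, rfl⟩
  obtain ⟨D, hD⟩ : ∃ D, D = 2 ^ q * K / (kap * c) := ⟨_, rfl⟩
  have hqp : 0 < q - p := by linarith
  have hkap0 : 0 < kap := by
    rw [hkap]; exact div_pos (mul_pos (by linarith) (by linarith))
      (mul_pos (by linarith) (by linarith))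
  have he1 : 1 < e := by
    rw [he, lt_div_iff₀ hqp]
    nlinarith
  have hep : 0 < e + p - 1 := by linarith
  have hβ0 : 0 < β := by rw [hβ]; exact div_pos (by linarith) hep
  have hβ1 : β ≤ 1 := by rw [hβ, div_le_one hep]; linarith
  have hα0 : 0 < α := by
    rw [hα]; exact div_pos (mul_pos (by linarith) (by linarith)) hep
  have hβe : β * e = 1 + α := by
    rw [hβ, hα]; field_simp; ring
  have hβp : p - β * (p - 1) = 1 + α := by
    rw [hβ, hα]; field_simp; ring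
  have hαp : 1 + α ≤ p := by
    rw [← hβp]; nlinarith
  have hD0 : 0 ≤ D := by rw [hD]; positivity
  have hDp : 0 ≤ D ^ (p / (q - p)) := Real.rpow_nonneg hD0 _
  have h2p : 0 < (2 : ℝ) ^ p := Real.rpow_pos_of_pos (by norm_num) _
  have hC0 : 0 ≤ 2 ^ p * K * (1 + D ^ (p / (q - p))) := by positivity
  refine ⟨K + 2 + 2 ^ p * K * (1 + D ^ (p / (q - p))), α, by linarith, hα0, ?_⟩
  intro X _ _ N hN1 hN2 r s hr hrs f hf
  have hs : 0 < s := lt_of_lt_of_le hr hrs
  obtain ⟨ρ, hρ⟩ : ∃ ρ, ρ = r / s := ⟨_, rfl⟩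
  have hρ0 : 0 < ρ := by rw [hρ]; positivity
  have hρ1 : ρ ≤ 1 := by rw [hρ]; exact (div_le_one hs).2 hrs
  have hrρ : r = s * ρ := by rw [hρ]; field_simp
  obtain ⟨mu, hmu⟩ : ∃ mu, mu = s * ρ ^ β := ⟨_, rfl⟩
  have hρβ : 0 < ρ ^ β := Real.rpow_pos_of_pos hρ0 _
  have hmu0 : 0 < mu := by rw [hmu]; positivity
  have hmus : mu ≤ s := by
    rw [hmu]
    have : ρ ^ β ≤ 1 := Real.rpow_le_one hρ0.le hρ1 hβ0.le
    nlinarith
  -- the powers
  have hsp : s ^ p = s * s ^ (p - 1) := by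
    rw [← Real.rpow_one_add' hs.le (by linarith)]; congr 1; ring
  have hsp1 : 0 < s ^ (p - 1) := Real.rpow_pos_of_pos hs _
  have hmup : mu ^ (p - 1) = s ^ (p - 1) * ρ ^ (β * (p - 1)) := by
    rw [hmu, Real.mul_rpow hs.le hρβ.le, ← Real.rpow_mul hρ0.le]
  have hmuq : mu ^ (q - 1) = s ^ (q - 1) * ρ ^ (β * (q - 1)) := by
    rw [hmu, Real.mul_rpow hs.le hρβ.le, ← Real.rpow_mul hρ0.le]
  have hrp : r ^ p = s * s ^ (p - 1) * ρ ^ p := by
    rw [hrρ, Real.mul_rpow hs.le hρ0.le, hsp]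
  have hρp : ρ ^ p = ρ ^ (1 + α) * ρ ^ (β * (p - 1)) := by
    rw [← Real.rpow_add hρ0, ← hβp]; congr 1; ring
  have hA : r ^ p / mu ^ (p - 1) = s * ρ ^ (1 + α) := by
    rw [hrp, hmup, hρp]
    have : 0 < ρ ^ (β * (p - 1)) := Real.rpow_pos_of_pos hρ0 _
    field_simp
  have hρα : 0 < ρ ^ (1 + α) := Real.rpow_pos_of_pos hρ0 _
  have hρpα : ρ ^ p ≤ ρ ^ (1 + α) := Real.rpow_le_rpow_of_exponent_ge hρ0 hρ1 hαp
  have hB : r ^ p / s ^ (p - 1) = s * ρ ^ p := by
    rw [hrp]; field_simp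
  have key := h X N p K s mu r ((K + 1) * (s * ρ ^ (1 + α)))
    (2 ^ p * K * (1 + D ^ (p / (q - p))) * (s * ρ ^ (1 + α))) hp hK hN1 hmu0 hmus hr
    (by
      rw [mul_div_assoc, hA]
      have : 0 < s * ρ ^ (1 + α) := by positivity
      linarith)
    (by
      intro u w k hu1 hu2 hk
      have hNu : N u ≤ (N (u + w) + N (u - w)) / 2 := by
        have h1 : (2 : ℝ) • u = (u + w) + (u - w) := by rw [two_smul]; abel
        have h2 := map_add_le_add N (u + w) (u - w)
        rw [← h1, map_smul_eq_mul] at h2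
        simp only [Real.norm_ofNat] at h2
        linarith
      have h1 := psi_ineq hp hpq (R := 2 * mu) (by linarith) (apply_nonneg N (u + w))
        (apply_nonneg N (u - w)) (apply_nonneg N u) hu1 hu2 hNu
      rw [← hkap] at h1
      have h2 := hN2 u w
      have hR : 0 < (2 * mu) ^ (p - q) := Real.rpow_pos_of_pos (by linarith) _
      have h3 : kap * (2 * mu) ^ (p - q) * (c * N w ^ q) ≤
          N (u + w) ^ p + N (u - w) ^ p - 2 * N u ^ p := by
        refine le_trans (mul_le_mul_of_nonneg_left ?_ (by positivity)) h1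
        linarith
      have h4 : N (k - w) ≤ r + N w := by
        have := map_sub_le_add N k w
        linarith
      have h5 : N (k - w) ^ p ≤ 2 ^ p * (r ^ p + N w ^ p) :=
        (Real.rpow_le_rpow (apply_nonneg _ _) h4 (by linarith)).trans
          (add_pow (by linarith) hr.le (apply_nonneg _ _))
      obtain ⟨a, ha⟩ : ∃ a, a = 2 ^ p * K / s ^ (p - 1) := ⟨_, rfl⟩
      obtain ⟨b, hb⟩ : ∃ b, b = kap * (2 * mu) ^ (p - q) * c / mu ^ (p - 1) := ⟨_, rfl⟩
      have hmup1 : 0 < mu ^ (p - 1) := Real.rpow_pos_of_pos hmu0 _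
      have ha0 : 0 ≤ a := by rw [ha]; positivity
      have hb0 : 0 < b := by rw [hb]; positivity
      have h6 := two_pow (p := p) (q := q) (by linarith) hpq ha0 hb0 (apply_nonneg N w)
      have h7 : K * N (k - w) ^ p / s ^ (p - 1) ≤ 2 ^ p * K * (s * ρ ^ p) + a * N w ^ p := by
        have h71 : K * N (k - w) ^ p / s ^ (p - 1) ≤
            K * (2 ^ p * (r ^ p + N w ^ p)) / s ^ (p - 1) := by
          gcongr
        refine h71.trans (le_of_eq ?_)
        rw [← hB, ha]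
        field_simp
      have h8 : (2 * N u ^ p - N (u + w) ^ p - N (u - w) ^ p) / mu ^ (p - 1) ≤
          - (b * N w ^ q) := by
        rw [div_le_iff₀ hmup1, hb]
        have : kap * (2 * mu) ^ (p - q) * c / mu ^ (p - 1) * N w ^ q * mu ^ (p - 1) =
            kap * (2 * mu) ^ (p - q) * (c * N w ^ q) := by
          field_simp
        rw [neg_mul, this]
        linarith
      -- the value of `a / b`
      have hab : a / b = D * (s ^ (q - p) * ρ ^ (β * (q - 1))) := by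
        have e1 : (2 * mu) ^ (p - q) = 2 ^ p / 2 ^ q * (mu ^ (p - 1) / mu ^ (q - 1)) := by
          rw [Real.mul_rpow (by norm_num) hmu0.le, Real.rpow_sub (by norm_num),
            ← Real.rpow_sub hmu0]
          congr 2
          ring
        have e2 : s ^ (q - 1) = s ^ (q - p) * s ^ (p - 1) := by
          rw [← Real.rpow_add hs]; congr 1; ring
        have hmuq1 : 0 < mu ^ (q - 1) := Real.rpow_pos_of_pos hmu0 _
        have h2q : 0 < (2 : ℝ) ^ q := Real.rpow_pos_of_pos (by norm_num) _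
        have e3 : a / b = D * (mu ^ (q - 1) / s ^ (p - 1)) := by
          rw [ha, hb, hD, e1]
          field_simp
        rw [e3, hmuq, e2]
        field_simp
      have hab2 : a * (a / b) ^ (p / (q - p)) =
          2 ^ p * K * D ^ (p / (q - p)) * (s * ρ ^ (1 + α)) := by
        have hsq : 0 ≤ s ^ (q - p) := Real.rpow_nonneg hs.le _
        have hρq : 0 ≤ ρ ^ (β * (q - 1)) := Real.rpow_nonneg hρ0.le _
        rw [hab, Real.mul_rpow hD0 (mul_nonneg hsq hρq), Real.mul_rpow hsq hρq,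
          ← Real.rpow_mul hs.le, ← Real.rpow_mul hρ0.le]
        have e1 : (q - p) * (p / (q - p)) = p := by field_simp
        have e2 : β * (q - 1) * (p / (q - p)) = 1 + α := by
          rw [← hβe, he]; field_simp
        rw [e1, e2, ha, hsp]
        field_simp
      rw [hab2] at h6
      have h9 : 2 ^ p * K * (s * ρ ^ p) ≤ 2 ^ p * K * (s * ρ ^ (1 + α)) := by
        gcongr
      have e9 : 2 ^ p * K * (1 + D ^ (p / (q - p))) * (s * ρ ^ (1 + α)) =
          2 ^ p * K * (s * ρ ^ (1 + α)) + 2 ^ p * K * D ^ (p / (q - p)) * (s * ρ ^ (1 + α)) := by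
        ring
      rw [e9]
      linarith) f hf
  obtain ⟨g, hg1, hg2⟩ := key
  refine ⟨g, fun x => (hg1 x).trans ?_, fun x => ?_⟩
  · have h1 : 0 ≤ (K + 1 + 2 ^ p * K * (1 + D ^ (p / (q - p)))) * s :=
      mul_nonneg (by linarith) hs.le
    linarith
  obtain ⟨V, hV1, hV2⟩ := hg2 x
  have hρ1α : ρ ^ (1 + α) = ρ * ρ ^ α := by
    rw [Real.rpow_add hρ0, Real.rpow_one]
  have hρα1 : ρ ^ α ≤ 1 := Real.rpow_le_one hρ0.le hρ1 hα0.le
  have hρα0 : 0 < ρ ^ α := Real.rpow_pos_of_pos hρ0 _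
  refine ⟨V, fun k => (hV1 k).trans ?_, fun k hk => (hV2 k hk).trans ?_⟩
  · refine mul_le_mul_of_nonneg_right ?_ (apply_nonneg _ _)
    have : (K + 1) * (s * ρ ^ (1 + α)) / r = (K + 1) * ρ ^ α := by
      rw [hρ1α, hrρ]
      field_simp
    rw [this]
    have h1 : (K + 1) * ρ ^ α ≤ (K + 1) * 1 := mul_le_mul_of_nonneg_left hρα1 (by linarith)
    linarith
  · rw [← hρ]
    have e1 : s * ρ ^ (1 + α) = r * ρ ^ α := by
      rw [hρ1α, hrρ]; ring
    rw [e1]
    have h1 : 0 < r * ρ ^ α := by positivity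
    linarith

end LipSX
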