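import Pool.Agent.Lib.MP_3ede0b_an.SX.Iface

/-! Row SMH: smoothing in Hilbert spaces. -/

namespace LipSX

universe u

theorem smh (h : KerS.{u}) : SmhS.{u} := by
  intro H _ _ r s hr hrs f hf
  have hs : 0 < s := lt_of_lt_of_le hr hrs
  have hone : (2 : ℝ) - 1 = 1 := by norm_num
  have hsm : PSmooth (normSeminorm ℝ H) 2 2 := by
    intro x y
    simp only [coe_normSeminorm, Real.rpow_two]
    have h1 := parallelogram_law_with_norm ℝ x y
    nlinarith
  have hpar : ∀ x y : H, ‖x + y‖ ^ 2 + ‖x - y‖ ^ 2 = 2 * (‖x‖ ^ 2 + ‖y‖ ^ 2) := by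
    intro x y
    have h1 := parallelogram_law_with_norm ℝ x y
    nlinarith
  obtain ⟨g, hg1, hg2⟩ := h H (normSeminorm ℝ H) 2 2 s (s / 2) r (5 * r ^ 2 / s) (4 * r ^ 2 / s)
    (by norm_num) (by norm_num) hsm (by positivity) (by linarith) hr
    (by
      rw [hone, Real.rpow_one, Real.rpow_two]
      rw [show 2 * r ^ 2 / (s / 2) = 4 * r ^ 2 / s by field_simp; norm_num]
      rw [div_lt_div_iff_of_pos_right hs]
      have : 0 < r ^ 2 := by positivity
      linarith)
    (by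
      intro u w k _ _ hk
      simp only [coe_normSeminorm] at hk ⊢
      rw [hone, Real.rpow_one, Real.rpow_one, Real.rpow_two, Real.rpow_two, Real.rpow_two,
        Real.rpow_two]
      have h1 := hpar u w
      have h2 := hpar k w
      have h3 : ‖k‖ ^ 2 ≤ r ^ 2 := pow_le_pow_left₀ (norm_nonneg _) hk 2
      have h4 : 0 ≤ ‖k + w‖ ^ 2 := by positivity
      have h5 : 2 * ‖k - w‖ ^ 2 / s + (2 * ‖u‖ ^ 2 - ‖u + w‖ ^ 2 - ‖u - w‖ ^ 2) / (s / 2) =
          (2 * ‖k - w‖ ^ 2 - 4 * ‖w‖ ^ 2) / s := by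
        have h6 : 2 * ‖u‖ ^ 2 - ‖u + w‖ ^ 2 - ‖u - w‖ ^ 2 = -2 * ‖w‖ ^ 2 := by linarith
        rw [h6]
        field_simp
        ring
      rw [h5, div_le_div_iff_of_pos_right hs]
      linarith) f hf
  have hrs1 : r / s ≤ 1 := (div_le_one hs).2 hrs
  have hrs0 : 0 < r / s := by positivity
  refine ⟨g, fun x => (hg1 x).trans (by linarith), fun x => ?_⟩
  obtain ⟨V, hV1, hV2⟩ := hg2 x
  refine ⟨V, fun k => (hV1 k).trans ?_, fun k hk => (hV2 k hk).trans ?_⟩
  · refine mul_le_mul_of_nonneg_right ?_ (apply_nonneg _ _)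
    have : 5 * r ^ 2 / s / r = 5 * (r / s) := by
      field_simp
    rw [this]
    linarith
  · rw [Real.rpow_one]
    have : 5 * r ^ 2 / s + 4 * r ^ 2 / s = 9 * r * (r / s) := by
      field_simp
      ring
    rw [this]
    have : 0 < r * (r / s) := by positivity
    nlinarith

end LipSX
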