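import Pool.Agent.Lib.MP_3ede0b_an.SX.Iface

/-! Row SNM: a sum of minima. -/

namespace LipSX

open Finset

theorem geo_le {r : ℝ} (h0 : 0 ≤ r) (h1 : r < 1) (F : Finset ℤ) (f : ℤ → ℕ)
    (hf : Set.InjOn f (F : Set ℤ)) : ∑ n ∈ F, r ^ f n ≤ (1 - r)⁻¹ := by
  classical
  rw [← Finset.sum_image (s := F) (g := f) (f := fun k => r ^ k) (fun x hx y hy h => hf hx hy h),
    ← tsum_geometric_of_lt_one h0 h1]
  exact (summable_geometric_of_lt_one h0 h1).sum_le_tsum _ (fun i _ => pow_nonneg h0 i)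

theorem snm_proof : SnmS := by
  intro θ h0 h1
  have hr1 : (2 : ℝ) ^ (-θ) < 1 := Real.rpow_lt_one_of_one_lt_of_neg (by norm_num) (by linarith)
  have hr2 : (2 : ℝ) ^ (θ - 1) < 1 :=
    Real.rpow_lt_one_of_one_lt_of_neg (by norm_num) (by linarith)
  have hp1 : (0 : ℝ) < (2 : ℝ) ^ (-θ) := by positivity
  have hp2 : (0 : ℝ) < (2 : ℝ) ^ (θ - 1) := by positivity
  refine ⟨(1 - (2 : ℝ) ^ (-θ))⁻¹ + (1 - (2 : ℝ) ^ (θ - 1))⁻¹, ?_, ?_⟩
  · have e1 : 1 ≤ (1 - (2 : ℝ) ^ (-θ))⁻¹ := by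
      rw [one_le_inv₀ (by linarith)]; linarith
    have e2 : 0 ≤ (1 - (2 : ℝ) ^ (θ - 1))⁻¹ := inv_nonneg.mpr (by linarith)
    linarith
  · intro A B t hA hB ht F
    set s : ℝ := A * t / B with hs
    have hs0 : 0 < s := by positivity
    set N : ℤ := ⌊Real.logb 2 s⌋ with hN
    have hN1 : (2 : ℝ) ^ (N : ℝ) ≤ s := by
      calc (2 : ℝ) ^ (N : ℝ) ≤ (2 : ℝ) ^ (Real.logb 2 s) :=
            Real.rpow_le_rpow_of_exponent_le (by norm_num) (Int.floor_le _)
        _ = s := Real.rpow_logb (by norm_num) (by norm_num) hs0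
    have hN2 : s < (2 : ℝ) ^ ((N : ℝ) + 1) := by
      calc s = (2 : ℝ) ^ (Real.logb 2 s) := (Real.rpow_logb (by norm_num) (by norm_num) hs0).symm
        _ < (2 : ℝ) ^ ((N : ℝ) + 1) :=
            Real.rpow_lt_rpow_of_exponent_lt (by norm_num) (Int.lt_floor_add_one _)
    set D : ℝ := A ^ θ * B ^ (1 - θ) * t ^ θ with hD
    have hD0 : 0 ≤ D := by positivity
    -- D = B * s ^ θ = A * t * s ^ (θ - 1)
    have hD1 : B * s ^ θ = D := by
      rw [hs, Real.div_rpow (by positivity) hB.le, Real.mul_rpow hA.le ht.le, hD,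
        Real.rpow_sub hB, Real.rpow_one]
      field_simp
    have hD2 : A * t * s ^ (θ - 1) = D := by
      rw [← hD1, Real.rpow_sub hs0, Real.rpow_one]
      have : A * t = B * s := by rw [hs]; field_simp
      rw [this]; field_simp
    have key : ∀ n : ℤ, min (A * (2 : ℝ) ^ ((n : ℝ) * (θ - 1)) * t) (B * (2 : ℝ) ^ ((n : ℝ) * θ))
        ≤ D * (if n ≤ N then ((2 : ℝ) ^ (-θ)) ^ (N - n).toNat
          else ((2 : ℝ) ^ (θ - 1)) ^ (n - N - 1).toNat) := by
      intro n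
      split_ifs with hn
      · refine (min_le_right _ _).trans ?_
        have e : ((N - n).toNat : ℝ) = (N : ℝ) - n := by
          have : ((N - n).toNat : ℤ) = N - n := Int.toNat_of_nonneg (by omega)
          exact_mod_cast this
        rw [← Real.rpow_natCast, ← Real.rpow_mul (by norm_num), e, ← hD1]
        have e2 : (2 : ℝ) ^ ((N : ℝ) * θ) ≤ s ^ θ := by
          rw [Real.rpow_mul (by norm_num)]
          exact Real.rpow_le_rpow (by positivity) hN1 h0.le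
        have e3 : (2 : ℝ) ^ ((n : ℝ) * θ) =
            (2 : ℝ) ^ ((N : ℝ) * θ) * (2 : ℝ) ^ (-θ * ((N : ℝ) - n)) := by
          rw [← Real.rpow_add (by norm_num)]; congr 1; ring
        rw [e3, mul_assoc]
        gcongr
      · refine (min_le_left _ _).trans ?_
        have e : ((n - N - 1).toNat : ℝ) = (n : ℝ) - N - 1 := by
          have : ((n - N - 1).toNat : ℤ) = n - N - 1 := Int.toNat_of_nonneg (by omega)
          exact_mod_cast this
        rw [← Real.rpow_natCast, ← Real.rpow_mul (by norm_num), e, ← hD2]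
        have e2 : (2 : ℝ) ^ (((N : ℝ) + 1) * (θ - 1)) ≤ s ^ (θ - 1) := by
          rw [Real.rpow_mul (by norm_num)]
          exact Real.rpow_le_rpow_of_nonpos hs0 hN2.le (by linarith)
        have e3 : (2 : ℝ) ^ ((n : ℝ) * (θ - 1)) =
            (2 : ℝ) ^ (((N : ℝ) + 1) * (θ - 1)) * (2 : ℝ) ^ ((θ - 1) * ((n : ℝ) - N - 1)) := by
          rw [← Real.rpow_add (by norm_num)]; congr 1; ring
        rw [e3]
        have e4 : (0 : ℝ) ≤ (2 : ℝ) ^ ((θ - 1) * ((n : ℝ) - N - 1)) := by positivity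
        calc A * ((2 : ℝ) ^ (((N : ℝ) + 1) * (θ - 1)) * (2 : ℝ) ^ ((θ - 1) * ((n : ℝ) - N - 1))) * t
            = A * t * (2 : ℝ) ^ (((N : ℝ) + 1) * (θ - 1)) *
                (2 : ℝ) ^ ((θ - 1) * ((n : ℝ) - N - 1)) := by ring
          _ ≤ A * t * s ^ (θ - 1) * (2 : ℝ) ^ ((θ - 1) * ((n : ℝ) - N - 1)) := by gcongr
    calc ∑ n ∈ F, min (A * (2 : ℝ) ^ ((n : ℝ) * (θ - 1)) * t) (B * (2 : ℝ) ^ ((n : ℝ) * θ))
        ≤ ∑ n ∈ F, D * (if n ≤ N then ((2 : ℝ) ^ (-θ)) ^ (N - n).toNat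
          else ((2 : ℝ) ^ (θ - 1)) ^ (n - N - 1).toNat) := sum_le_sum fun n _ => key n
      _ = D * (∑ n ∈ F.filter (fun n => n ≤ N), ((2 : ℝ) ^ (-θ)) ^ (N - n).toNat +
          ∑ n ∈ F.filter (fun n => ¬ n ≤ N), ((2 : ℝ) ^ (θ - 1)) ^ (n - N - 1).toNat) := by
        rw [← mul_sum, sum_ite]
      _ ≤ D * ((1 - (2 : ℝ) ^ (-θ))⁻¹ + (1 - (2 : ℝ) ^ (θ - 1))⁻¹) := by
        refine mul_le_mul_of_nonneg_left (add_le_add ?_ ?_) hD0
        · refine geo_le hp1.le hr1 _ (fun n => (N - n).toNat) ?_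
          intro x hx y hy h
          simp only [coe_filter, Set.mem_ofPred_eq] at hx hy
          simp only at h
          omega
        · refine geo_le hp2.le hr2 _ (fun n => (n - N - 1).toNat) ?_
          intro x hx y hy h
          simp only [coe_filter, Set.mem_ofPred_eq] at hx hy
          simp only at h
          omega
      _ = ((1 - (2 : ℝ) ^ (-θ))⁻¹ + (1 - (2 : ℝ) ^ (θ - 1))⁻¹) * A ^ θ * B ^ (1 - θ) * t ^ θ := by
        rw [hD]; ring

end LipSX
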