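import Pool.Agent.Lib.MP_3ede0b_an.SX.Snm

/-! Row SNO: random Lipschitz functions on finite snowflakes. -/

namespace LipSX

open Finset LipFree LipRad

universe u

/-! ### Truncation -/

/-- truncation at height `B` -/
noncomputable def clp (B s : ℝ) : ℝ := max (-B) (min B s)

theorem clp_abs {B : ℝ} (hB : 0 ≤ B) (s : ℝ) : |clp B s| ≤ B := by
  unfold clp
  rw [abs_le]
  exact ⟨le_max_left _ _, max_le (by linarith) (min_le_left _ _)⟩

theorem clp_lip (B s s' : ℝ) : |clp B s - clp B s'| ≤ |s - s'| := by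
  unfold clp
  calc |max (-B) (min B s) - max (-B) (min B s')|
      ≤ max |(-B) - (-B)| |min B s - min B s'| := abs_max_sub_max_le_max _ _ _ _
    _ = |min B s - min B s'| := by rw [sub_self, abs_zero, max_eq_right (abs_nonneg _)]
    _ ≤ max |B - B| |s - s'| := abs_min_sub_min_le_max _ _ _ _
    _ = |s - s'| := by rw [sub_self, abs_zero, max_eq_right (abs_nonneg _)]

theorem clp_mono (B : ℝ) {s s' : ℝ} (h : s ≤ s') : clp B s ≤ clp B s' :=
  max_le_max le_rfl (min_le_min le_rfl h)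

theorem res_lip (B s s' : ℝ) : |(s - clp B s) - (s' - clp B s')| ≤ |s - s'| := by
  rcases le_total s s' with h | h
  · have h1 := clp_mono B h
    have h2 := clp_lip B s s'
    rw [abs_sub_comm (clp B s), abs_of_nonneg (by linarith), abs_sub_comm s,
      abs_of_nonneg (by linarith)] at h2
    rw [abs_le, abs_sub_comm s, abs_of_nonneg (by linarith)]
    constructor <;> linarith
  · have h1 := clp_mono B h
    have h2 := clp_lip B s s'
    rw [abs_of_nonneg (by linarith), abs_of_nonneg (by linarith)] at h2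
    rw [abs_le, abs_of_nonneg (by linarith)]
    constructor <;> linarith

theorem res_zero {B s : ℝ} (h : |s| ≤ B) : s - clp B s = 0 := by
  unfold clp
  rw [abs_le] at h
  rw [min_eq_right h.2, max_eq_right h.1, sub_self]

/-! ### The infimal convolution -/

/-- infimal convolution with a multiple of `d` -/
noncomputable def infc {M : Type u} (d : M → M → ℝ) (a : ℝ) (f : M → ℝ) (x : M) : ℝ :=
  ⨅ y, (f y + a * d x y)

variable {M : Type u} [Finite M]

theorem infc_le (d : M → M → ℝ) (a : ℝ) (f : M → ℝ) (x y : M) :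
    infc d a f x ≤ f y + a * d x y :=
  ciInf_le (Set.finite_range _).bddBelow y

omit [Finite M] in
theorem le_infc (d : M → M → ℝ) (a : ℝ) (f : M → ℝ) (x : M) {c : ℝ}
    (h : ∀ y, c ≤ f y + a * d x y) : c ≤ infc d a f x :=
  haveI : Nonempty M := ⟨x⟩
  le_ciInf h

theorem infc_sub_le (d : M → M → ℝ) (htri : ∀ x y z, d x z ≤ d x y + d y z) {a : ℝ} (ha : 0 ≤ a)
    (f : M → ℝ) (x y : M) : infc d a f x - infc d a f y ≤ a * d x y := by
  have : infc d a f x - a * d x y ≤ infc d a f y := by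
    refine le_infc d a f y fun z => ?_
    have h1 := infc_le d a f x z
    have h2 := mul_le_mul_of_nonneg_left (htri x y z) ha
    linarith
  linarith

theorem infc_lip (d : M → M → ℝ) (hsym : ∀ x y, d x y = d y x)
    (htri : ∀ x y z, d x z ≤ d x y + d y z) {a : ℝ} (ha : 0 ≤ a)
    (f : M → ℝ) (x y : M) : |infc d a f x - infc d a f y| ≤ a * d x y := by
  rw [abs_le]
  constructor
  · have := infc_sub_le d htri ha f y x
    rw [hsym y x] at this
    linarith
  · exact infc_sub_le d htri ha f x y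

/-! ### The two scales of powers -/

/-- slopes -/
noncomputable def pa (θ : ℝ) (n : ℤ) : ℝ := (2 : ℝ) ^ ((n : ℝ) * (θ - 1))

/-- heights -/
noncomputable def pb (θ : ℝ) (n : ℤ) : ℝ := (2 : ℝ) ^ ((n : ℝ) * θ)

theorem pa_pos (θ : ℝ) (n : ℤ) : 0 < pa θ n := by unfold pa; positivity
theorem pb_pos (θ : ℝ) (n : ℤ) : 0 < pb θ n := by unfold pb; positivity

theorem pa_succ (θ : ℝ) (n : ℤ) : pa θ (n + 1) = pa θ n * (2 : ℝ) ^ (θ - 1) := by
  unfold pa
  rw [← Real.rpow_add (by norm_num)]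
  congr 1
  push_cast
  ring

theorem pb_succ (θ : ℝ) (n : ℤ) : pb θ (n + 1) = (2 : ℝ) ^ θ * pb θ n := by
  unfold pb
  rw [← Real.rpow_add (by norm_num)]
  congr 1
  push_cast
  ring

theorem pa_add_nat (θ : ℝ) (n : ℤ) (N : ℕ) :
    pa θ (n + N) = pa θ n * ((2 : ℝ) ^ (θ - 1)) ^ N := by
  induction N with
  | zero => simp
  | succ N ih =>
    have : (n + ((N + 1 : ℕ) : ℤ)) = (n + N) + 1 := by push_cast; ring
    rw [this, pa_succ, ih, pow_succ]
    ring

theorem two_rpow_sub_one_lt {θ : ℝ} (h1 : θ < 1) : (2 : ℝ) ^ (θ - 1) < 1 :=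
  Real.rpow_lt_one_of_one_lt_of_neg (by norm_num) (by linarith)

theorem pa_succ_le {θ : ℝ} (h1 : θ < 1) (n : ℤ) : pa θ (n + 1) ≤ pa θ n := by
  rw [pa_succ]
  have := two_rpow_sub_one_lt h1
  have := pa_pos θ n
  nlinarith

theorem pb_le_succ {θ : ℝ} (h0 : 0 < θ) (n : ℤ) : pb θ n ≤ pb θ (n + 1) := by
  rw [pb_succ]
  have h : 1 ≤ (2 : ℝ) ^ θ := Real.one_le_rpow (by norm_num) h0.le
  have := pb_pos θ n
  nlinarith

theorem rpow_le_pa {θ : ℝ} (h1 : θ < 1) (n : ℤ) {t : ℝ} (ht : (2 : ℝ) ^ (n : ℝ) ≤ t) :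
    t ^ θ ≤ pa θ n * t := by
  have h2 : (0 : ℝ) < (2 : ℝ) ^ (n : ℝ) := by positivity
  have ht0 : 0 < t := lt_of_lt_of_le h2 ht
  have e : t ^ θ = t ^ (θ - 1) * t := by
    rw [← Real.rpow_add_one ht0.ne']; congr 1; ring
  rw [e]
  unfold pa
  rw [Real.rpow_mul (by norm_num)]
  exact mul_le_mul_of_nonneg_right (Real.rpow_le_rpow_of_nonpos h2 ht (by linarith)) ht0.le

theorem rpow_le_pb {θ : ℝ} (h0 : 0 < θ) (n : ℤ) {t : ℝ} (ht0 : 0 ≤ t)
    (ht : t ≤ (2 : ℝ) ^ (n : ℝ)) : t ^ θ ≤ pb θ n := by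
  unfold pb
  rw [Real.rpow_mul (by norm_num)]
  exact Real.rpow_le_rpow ht0 ht h0.le

theorem rpow_le_add {θ : ℝ} (h0 : 0 < θ) (h1 : θ < 1) (n : ℤ) {t : ℝ} (ht0 : 0 ≤ t) :
    t ^ θ ≤ pa θ n * t + pb θ n := by
  rcases le_total t ((2 : ℝ) ^ (n : ℝ)) with h | h
  · have := rpow_le_pb h0 n ht0 h
    have := mul_nonneg (pa_pos θ n).le ht0
    linarith
  · have := rpow_le_pa h1 n h
    have := pb_pos θ n
    linarith

/-- the sum of minima over an interval of scales -/
theorem snm_range {θ C : ℝ}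
    (hC : ∀ (A B t : ℝ), 0 < A → 0 < B → 0 < t → ∀ F : Finset ℤ,
      ∑ n ∈ F, min (A * (2 : ℝ) ^ ((n : ℝ) * (θ - 1)) * t) (B * (2 : ℝ) ^ ((n : ℝ) * θ)) ≤
        C * A ^ θ * B ^ (1 - θ) * t ^ θ)
    {A B t : ℝ} (hA : 0 < A) (hB : 0 < B) (ht : 0 < t) (n₀ : ℤ) (N : ℕ) :
    ∑ i ∈ range N, min (A * pa θ (n₀ + i) * t) (B * pb θ (n₀ + i)) ≤
      C * A ^ θ * B ^ (1 - θ) * t ^ θ := by
  have h := hC A B t hA hB ht ((range N).map ⟨fun i : ℕ => n₀ + (i : ℤ), fun i j hij => by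
    simpa using hij⟩)
  rw [sum_map] at h
  exact h

/-! ### The differences of two scales -/

/-- difference of two scales -/
noncomputable def dif (θ : ℝ) (d : M → M → ℝ) (f : M → ℝ) (n : ℤ) (x : M) : ℝ :=
  infc d (pa θ n) f x - infc d (pa θ (n + 1)) f x

section
variable {θ : ℝ} (h0 : 0 < θ) (h1 : θ < 1) (d : M → M → ℝ) (hd0 : ∀ x, d x x = 0)
  (hdn : ∀ x y, 0 ≤ d x y) (hsym : ∀ x y, d x y = d y x)
  (htri : ∀ x y z, d x z ≤ d x y + d y z) {f : M → ℝ} (hf : ∀ x y, |f x - f y| ≤ d x y ^ θ)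

include hd0 in
theorem infc_le_self (n : ℤ) (x : M) : infc d (pa θ n) f x ≤ f x := by
  have := infc_le d (pa θ n) f x x
  rwa [hd0, mul_zero, add_zero] at this

include h0 h1 hdn hf in
omit [Finite M] in
theorem self_le_infc (n : ℤ) (x : M) : f x - pb θ n ≤ infc d (pa θ n) f x := by
  refine le_infc d _ f x fun y => ?_
  have a := (abs_le.mp (hf x y)).2
  have b := rpow_le_add h0 h1 n (hdn x y)
  linarith

include h0 h1 hd0 hdn hf in
theorem dif_abs (n : ℤ) (x : M) : |dif θ d f n x| ≤ pb θ (n + 1) := by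
  unfold dif
  have a1 := infc_le_self (θ := θ) d hd0 (f := f) n x
  have a2 := infc_le_self (θ := θ) d hd0 (f := f) (n + 1) x
  have b1 := self_le_infc h0 h1 d hdn hf n x
  have b2 := self_le_infc h0 h1 d hdn hf (n + 1) x
  have c := pb_le_succ h0 n
  rw [abs_le]
  constructor <;> linarith

include h1 hdn hsym htri in
theorem dif_lip (n : ℤ) (x y : M) : |dif θ d f n x - dif θ d f n y| ≤ 2 * pa θ n * d x y := by
  unfold dif
  have a1 := abs_le.mp (infc_lip d hsym htri (pa_pos θ n).le f x y)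
  have a2 := abs_le.mp (infc_lip d hsym htri (pa_pos θ (n + 1)).le f x y)
  have c := mul_le_mul_of_nonneg_right (pa_succ_le h1 n) (hdn x y)
  rw [abs_le]
  constructor <;> linarith [a1.1, a1.2, a2.1, a2.2]

include h1 hd0 hf in
theorem infc_eq_self {n : ℤ} (hn : ∀ x y, x ≠ y → (2 : ℝ) ^ (n : ℝ) ≤ d x y) (x : M) :
    infc d (pa θ n) f x = f x := by
  refine le_antisymm (infc_le_self d hd0 n x) (le_infc d _ f x fun y => ?_)
  by_cases h : x = y
  · subst h
    rw [hd0, mul_zero, add_zero]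
  · have a := (abs_le.mp (hf x y)).2
    have b := rpow_le_pa h1 n (hn x y h)
    linarith

end

omit [Finite M] in
theorem sum_dif (θ : ℝ) (d : M → M → ℝ) (f : M → ℝ) (n₀ : ℤ) (N : ℕ) (x : M) :
    ∑ i ∈ range N, dif θ d f (n₀ + i) x =
      infc d (pa θ n₀) f x - infc d (pa θ (n₀ + N)) f x := by
  induction N with
  | zero => simp
  | succ N ih =>
    rw [sum_range_succ, ih]
    unfold dif
    have : (n₀ + ((N + 1 : ℕ) : ℤ)) = (n₀ + N) + 1 := by push_cast; ring
    rw [this]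
    ring

/-- absolute values of averages -/
theorem abs_avg_le_sno {k : ℕ} (φ : (Fin k → Bool) → ℝ) : |avg φ| ≤ avg (fun ε => |φ ε|) := by
  unfold avg
  rw [abs_div, abs_of_pos (by positivity : (0 : ℝ) < 2 ^ k)]
  exact div_le_div_of_nonneg_right (Finset.abs_sum_le_sum_abs _ _) (by positivity)

/-- the first Walsh coefficients of a signed sum -/
theorem avg_sg_sum {k : ℕ} (a : Fin k → ℝ) (j : Fin k) :
    avg (fun ε => sg (ε j) * ∑ l, sg (ε l) * a l) = a j := by
  have e : ∀ ε : Fin k → Bool, sg (ε j) * ∑ l, sg (ε l) * a l =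
      ∑ l, a l * (sg (ε j) * sg (ε l)) := by
    intro ε
    rw [mul_sum]
    exact sum_congr rfl fun l _ => by ring
  simp only [e]
  rw [avg_sum]
  simp only [avg_smul, avg_sg_mul_sg]
  simp

/-- a signed sum of small numbers -/
theorem abs_sg_sum_le {k : ℕ} (a : Fin k → ℝ) {c : ℝ} (h : ∀ l, |a l| ≤ c) (ε : Fin k → Bool) :
    |∑ l, sg (ε l) * a l| ≤ k * c := by
  calc |∑ l, sg (ε l) * a l| ≤ ∑ l, |sg (ε l) * a l| := Finset.abs_sum_le_sum_abs _ _
    _ ≤ ∑ _l : Fin k, c := sum_le_sum fun l _ => by rw [abs_mul, abs_sg, one_mul]; exact h l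
    _ = k * c := by simp

/-- the main estimate, for a metric `d` and `d ^ θ`-Lipschitz functions -/
theorem sno_core {θ C : ℝ} (h0 : 0 < θ) (h1 : θ < 1) (hC1 : 1 ≤ C)
    (hC : ∀ (A B t : ℝ), 0 < A → 0 < B → 0 < t → ∀ F : Finset ℤ,
      ∑ n ∈ F, min (A * (2 : ℝ) ^ ((n : ℝ) * (θ - 1)) * t) (B * (2 : ℝ) ^ ((n : ℝ) * θ)) ≤
        C * A ^ θ * B ^ (1 - θ) * t ^ θ)
    (d : M → M → ℝ) (hd0 : ∀ x, d x x = 0) (hsym : ∀ x y, d x y = d y x)
    (htri : ∀ x y z, d x z ≤ d x y + d y z) (hpos : ∀ x y, x ≠ y → 0 < d x y)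
    {k : ℕ} (hk : 1 ≤ k) (T : ℝ) (hT : 0 < T) (hT2 : T ^ 2 = 2 * Real.log (64 * C * k))
    (g : Fin k → M → ℝ) (hg : ∀ j x y, |g j x - g j y| ≤ d x y ^ θ) :
    ∃ f : (Fin k → Bool) → M → ℝ,
      (∀ ε x y, |f ε x - f ε y| ≤
        C * (2 * k : ℝ) ^ θ * (2 * (T * Real.sqrt k) * 2 ^ θ) ^ (1 - θ) * d x y ^ θ) ∧
      ∀ j x y, |(g j x - avg (fun ε => sg (ε j) * f ε x)) -
        (g j y - avg (fun ε => sg (ε j) * f ε y))| ≤ d x y ^ θ / 2 := by
  classical
  rcases isEmpty_or_nonempty M with hM | hM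
  · exact ⟨fun _ _ => 0, fun ε x => (IsEmpty.false x).elim, fun j x => (IsEmpty.false x).elim⟩
  have hk0 : (0 : ℝ) < k := by exact_mod_cast hk
  have hdn : ∀ x y, 0 ≤ d x y := by
    intro x y
    by_cases h : x = y
    · rw [h, hd0]
    · exact (hpos x y h).le
  -- the smallest scale
  obtain ⟨p, hp⟩ := Finite.exists_min (fun p : M × M => if p.1 = p.2 then (1 : ℝ) else d p.1 p.2)
  have hδ0 : 0 < (if p.1 = p.2 then (1 : ℝ) else d p.1 p.2) := by
    split_ifs with h
    · norm_num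
    · exact hpos _ _ h
  set δ : ℝ := (if p.1 = p.2 then (1 : ℝ) else d p.1 p.2) with hδ
  have hδ1 : ∀ x y, x ≠ y → δ ≤ d x y := by
    intro x y h
    have := hp (x, y)
    simp only [if_neg h] at this
    exact this
  obtain ⟨n₀, hn₀⟩ : ∃ n₀ : ℤ, (2 : ℝ) ^ (n₀ : ℝ) ≤ δ := by
    refine ⟨⌊Real.logb 2 δ⌋, ?_⟩
    calc (2 : ℝ) ^ ((⌊Real.logb 2 δ⌋ : ℤ) : ℝ) ≤ (2 : ℝ) ^ (Real.logb 2 δ) :=
          Real.rpow_le_rpow_of_exponent_le (by norm_num) (Int.floor_le _)
      _ = δ := Real.rpow_logb (by norm_num) (by norm_num) hδ0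
  have hn₀' : ∀ x y, x ≠ y → (2 : ℝ) ^ (n₀ : ℝ) ≤ d x y := fun x y h => hn₀.trans (hδ1 x y h)
  -- the largest scale
  obtain ⟨Dm, hDm0, hDm⟩ : ∃ Dm : ℝ, 0 < Dm ∧ ∀ x y, d x y ≤ Dm := by
    obtain ⟨q, hq⟩ := Finite.exists_max (fun p : M × M => d p.1 p.2)
    exact ⟨max 1 (d q.1 q.2), lt_of_lt_of_le one_pos (le_max_left _ _),
      fun x y => (hq (x, y)).trans (le_max_right _ _)⟩
  have hDp : 0 < Dm ^ (1 - θ) := by positivity
  obtain ⟨N, hN⟩ : ∃ N : ℕ, ((2 : ℝ) ^ (θ - 1)) ^ N < 1 / (4 * pa θ n₀ * Dm ^ (1 - θ)) :=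
    exists_pow_lt_of_lt_one (by have := pa_pos θ n₀; positivity) (two_rpow_sub_one_lt h1)
  have hN' : pa θ (n₀ + N) * Dm ^ (1 - θ) ≤ 1 / 4 := by
    rw [pa_add_nat]
    have hp' : 0 < 4 * pa θ n₀ * Dm ^ (1 - θ) := by have := pa_pos θ n₀; positivity
    have := (lt_div_iff₀ hp').mp hN
    nlinarith
  -- definitions
  set B : ℕ → ℝ := fun i => T * Real.sqrt k * pb θ (n₀ + i + 1) with hB
  set S : ℕ → (Fin k → Bool) → M → ℝ :=
    fun i ε x => ∑ l, sg (ε l) * dif θ d (g l) (n₀ + i) x with hS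
  have hB0 : ∀ i, 0 ≤ B i := by
    intro i
    have := pb_pos θ (n₀ + i + 1)
    simp only [hB]
    positivity
  have hS1 : ∀ i ε x y, |S i ε x - S i ε y| ≤ 2 * k * pa θ (n₀ + i) * d x y := by
    intro i ε x y
    have e : S i ε x - S i ε y =
        ∑ l, sg (ε l) * (dif θ d (g l) (n₀ + i) x - dif θ d (g l) (n₀ + i) y) := by
      simp only [hS]
      rw [← sum_sub_distrib]
      exact sum_congr rfl fun l _ => by ring
    rw [e]
    refine (abs_sg_sum_le _ (fun l => dif_lip h1 d hdn hsym htri (n₀ + i) x y) ε).trans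
      (le_of_eq ?_)
    ring
  have hS2 : ∀ i ε x, |S i ε x| ≤ k * pb θ (n₀ + i + 1) := fun i ε x =>
    abs_sg_sum_le _ (fun l => dif_abs h0 h1 d hd0 hdn (hg l) (n₀ + i) x) ε
  refine ⟨fun ε x => ∑ i ∈ range N, clp (B i) (S i ε x), ?_, ?_⟩
  · intro ε x y
    by_cases hxy : x = y
    · subst hxy
      rw [sub_self, abs_zero, hd0, Real.zero_rpow h0.ne', mul_zero]
    have ht : 0 < d x y := hpos x y hxy
    calc |∑ i ∈ range N, clp (B i) (S i ε x) - ∑ i ∈ range N, clp (B i) (S i ε y)|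
        = |∑ i ∈ range N, (clp (B i) (S i ε x) - clp (B i) (S i ε y))| := by
          rw [sum_sub_distrib]
      _ ≤ ∑ i ∈ range N, |clp (B i) (S i ε x) - clp (B i) (S i ε y)| :=
          Finset.abs_sum_le_sum_abs _ _
      _ ≤ ∑ i ∈ range N, min ((2 * k : ℝ) * pa θ (n₀ + i) * d x y)
            ((2 * (T * Real.sqrt k) * 2 ^ θ) * pb θ (n₀ + i)) := by
          refine sum_le_sum fun i _ => le_min ?_ ?_
          · exact (clp_lip _ _ _).trans (hS1 i ε x y)
          · have a1 := clp_abs (hB0 i) (S i ε x)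
            have a2 := clp_abs (hB0 i) (S i ε y)
            have a3 : |clp (B i) (S i ε x) - clp (B i) (S i ε y)| ≤ B i + B i :=
              (abs_sub _ _).trans (add_le_add a1 a2)
            refine a3.trans (le_of_eq ?_)
            simp only [hB]
            rw [pb_succ]
            ring
      _ ≤ C * (2 * k : ℝ) ^ θ * (2 * (T * Real.sqrt k) * 2 ^ θ) ^ (1 - θ) * d x y ^ θ :=
          snm_range hC (by positivity) (by positivity) ht n₀ N
  · intro j x y
    by_cases hxy : x = y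
    · subst hxy
      rw [sub_self, abs_zero, hd0, Real.zero_rpow h0.ne', zero_div]
    have ht : 0 < d x y := hpos x y hxy
    have htθ : 0 < d x y ^ θ := Real.rpow_pos_of_pos ht θ
    have key : ∀ z, g j z - avg (fun ε => sg (ε j) * ∑ i ∈ range N, clp (B i) (S i ε z)) =
        infc d (pa θ (n₀ + N)) (g j) z +
          ∑ i ∈ range N, avg (fun ε => sg (ε j) * (S i ε z - clp (B i) (S i ε z))) := by
      intro z
      have e1 : avg (fun ε => sg (ε j) * ∑ i ∈ range N, clp (B i) (S i ε z)) =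
          ∑ i ∈ range N, avg (fun ε => sg (ε j) * clp (B i) (S i ε z)) := by
        simp only [mul_sum]
        rw [avg_sum]
      have e2 : ∀ i, avg (fun ε => sg (ε j) * (S i ε z - clp (B i) (S i ε z))) =
          dif θ d (g j) (n₀ + i) z - avg (fun ε => sg (ε j) * clp (B i) (S i ε z)) := by
        intro i
        simp only [mul_sub]
        rw [avg_sub]
        congr 1
        exact avg_sg_sum (fun l => dif θ d (g l) (n₀ + i) z) j
      simp only [e2]
      rw [e1, sum_sub_distrib, sum_dif, infc_eq_self h1 d hd0 (hg j) hn₀' z]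
      ring
    rw [key x, key y]
    set W : ℕ → ℝ := fun i => min ((2 * k : ℝ) * pa θ (n₀ + i) * d x y)
      ((2 * k * 2 ^ θ : ℝ) * pb θ (n₀ + i)) with hW
    have hW0 : ∀ i, 0 ≤ W i := by
      intro i
      have a1 := pa_pos θ (n₀ + i)
      have a2 := pb_pos θ (n₀ + i)
      simp only [hW]
      exact le_min (by positivity) (by positivity)
    have hSW : ∀ i ε, |S i ε x - S i ε y| ≤ W i := by
      intro i ε
      refine le_min (hS1 i ε x y) ?_
      refine ((abs_sub _ _).trans (add_le_add (hS2 i ε x) (hS2 i ε y))).trans (le_of_eq ?_)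
      rw [pb_succ]
      ring
    have hexp : Real.exp (-(T ^ 2 / 2)) = 1 / (64 * C * k) := by
      have e : (2 * Real.log (64 * C * k)) / 2 = Real.log (64 * C * k) := by ring
      rw [hT2, e, Real.exp_neg, Real.exp_log (by positivity), one_div]
    have htail : ∀ i z, avg (fun ε => if B i < |S i ε z| then (1 : ℝ) else 0) ≤
        2 / (64 * C * k) := by
      intro i z
      have hb := pb_pos θ (n₀ + i + 1)
      have hv : 0 < (k : ℝ) * pb θ (n₀ + i + 1) ^ 2 := by positivity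
      have a := avg_tail (fun l => dif θ d (g l) (n₀ + i) z) hv (hB0 i) (by
        calc ∑ l, dif θ d (g l) (n₀ + i) z ^ 2 ≤ ∑ _l : Fin k, pb θ (n₀ + i + 1) ^ 2 := by
              refine sum_le_sum fun l _ => ?_
              rw [sq_le_sq, abs_of_pos hb]
              exact dif_abs h0 h1 d hd0 hdn (hg l) (n₀ + i) z
          _ = (k : ℝ) * pb θ (n₀ + i + 1) ^ 2 := by simp)
      refine a.trans (le_of_eq ?_)
      have e : B i ^ 2 / (2 * ((k : ℝ) * pb θ (n₀ + i + 1) ^ 2)) = T ^ 2 / 2 := by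
        simp only [hB]
        rw [mul_pow, mul_pow, Real.sq_sqrt hk0.le]
        field_simp
      rw [e, hexp]
      ring
    have hterm : ∀ i, |avg (fun ε => sg (ε j) * (S i ε x - clp (B i) (S i ε x))) -
        avg (fun ε => sg (ε j) * (S i ε y - clp (B i) (S i ε y)))| ≤
        W i * (4 / (64 * C * k)) := by
      intro i
      rw [← avg_sub]
      refine (abs_avg_le_sno _).trans ?_
      calc avg (fun ε => |sg (ε j) * (S i ε x - clp (B i) (S i ε x)) -
            sg (ε j) * (S i ε y - clp (B i) (S i ε y))|)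
          ≤ avg (fun ε => W i * ((if B i < |S i ε x| then (1 : ℝ) else 0) +
              (if B i < |S i ε y| then (1 : ℝ) else 0))) := by
            refine avg_mono fun ε => ?_
            rw [← mul_sub, abs_mul, abs_sg, one_mul]
            have r1 := (res_lip (B i) (S i ε x) (S i ε y)).trans (hSW i ε)
            have w := hW0 i
            by_cases c1 : B i < |S i ε x|
            · rw [if_pos c1]
              by_cases c2 : B i < |S i ε y|
              · rw [if_pos c2]; linarith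
              · rw [if_neg c2]; linarith
            · rw [if_neg c1]
              by_cases c2 : B i < |S i ε y|
              · rw [if_pos c2]; linarith
              · rw [if_neg c2, res_zero (not_lt.mp c1), res_zero (not_lt.mp c2)]
                simp
        _ = W i * (avg (fun ε => if B i < |S i ε x| then (1 : ℝ) else 0) +
              avg (fun ε => if B i < |S i ε y| then (1 : ℝ) else 0)) := by
            rw [avg_smul, avg_add]
        _ ≤ W i * (2 / (64 * C * k) + 2 / (64 * C * k)) :=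
            mul_le_mul_of_nonneg_left (add_le_add (htail i x) (htail i y)) (hW0 i)
        _ = W i * (4 / (64 * C * k)) := by ring
    have hsum : ∑ i ∈ range N, W i ≤ 4 * C * k * d x y ^ θ := by
      refine (snm_range hC (A := 2 * k) (B := 2 * k * 2 ^ θ) (by positivity) (by positivity)
        ht n₀ N).trans ?_
      have e1 : (2 * k : ℝ) ^ θ * (2 * k * 2 ^ θ : ℝ) ^ (1 - θ) =
          2 * k * (2 : ℝ) ^ (θ * (1 - θ)) := by
        have hk2 : (0 : ℝ) < 2 * k := by positivity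
        generalize (2 * k : ℝ) = a at hk2 ⊢
        rw [Real.mul_rpow hk2.le (by positivity), ← mul_assoc,
          ← Real.rpow_add hk2, ← Real.rpow_mul (by norm_num)]
        have : θ + (1 - θ) = 1 := by ring
        rw [this, Real.rpow_one]
      have e2 : (2 : ℝ) ^ (θ * (1 - θ)) ≤ 2 := by
        calc (2 : ℝ) ^ (θ * (1 - θ)) ≤ (2 : ℝ) ^ (1 : ℝ) :=
              Real.rpow_le_rpow_of_exponent_le (by norm_num) (by nlinarith)
          _ = 2 := Real.rpow_one 2
      calc C * (2 * k : ℝ) ^ θ * (2 * k * 2 ^ θ : ℝ) ^ (1 - θ) * d x y ^ θ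
          = C * ((2 * k : ℝ) ^ θ * (2 * k * 2 ^ θ : ℝ) ^ (1 - θ)) * d x y ^ θ := by ring
        _ = C * (2 * k * (2 : ℝ) ^ (θ * (1 - θ))) * d x y ^ θ := by rw [e1]
        _ ≤ C * (2 * k * 2) * d x y ^ θ := by gcongr
        _ = 4 * C * k * d x y ^ θ := by ring
    have hlast : |infc d (pa θ (n₀ + N)) (g j) x - infc d (pa θ (n₀ + N)) (g j) y| ≤
        d x y ^ θ / 4 := by
      refine (infc_lip d hsym htri (pa_pos θ (n₀ + N)).le (g j) x y).trans ?_
      have e : d x y = d x y ^ θ * d x y ^ (1 - θ) := by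
        rw [← Real.rpow_add ht]
        have : θ + (1 - θ) = 1 := by ring
        rw [this, Real.rpow_one]
      have e2 : d x y ^ (1 - θ) ≤ Dm ^ (1 - θ) :=
        Real.rpow_le_rpow ht.le (hDm x y) (by linarith)
      calc pa θ (n₀ + N) * d x y = pa θ (n₀ + N) * (d x y ^ θ * d x y ^ (1 - θ)) := by rw [← e]
        _ ≤ pa θ (n₀ + N) * (d x y ^ θ * Dm ^ (1 - θ)) := by
            have := pa_pos θ (n₀ + N)
            gcongr
        _ = (pa θ (n₀ + N) * Dm ^ (1 - θ)) * d x y ^ θ := by ring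
        _ ≤ 1 / 4 * d x y ^ θ := by gcongr
        _ = d x y ^ θ / 4 := by ring
    calc |infc d (pa θ (n₀ + N)) (g j) x +
          ∑ i ∈ range N, avg (fun ε => sg (ε j) * (S i ε x - clp (B i) (S i ε x))) -
          (infc d (pa θ (n₀ + N)) (g j) y +
          ∑ i ∈ range N, avg (fun ε => sg (ε j) * (S i ε y - clp (B i) (S i ε y))))|
        = |(infc d (pa θ (n₀ + N)) (g j) x - infc d (pa θ (n₀ + N)) (g j) y) +
          ∑ i ∈ range N, (avg (fun ε => sg (ε j) * (S i ε x - clp (B i) (S i ε x))) -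
            avg (fun ε => sg (ε j) * (S i ε y - clp (B i) (S i ε y))))| := by
          rw [sum_sub_distrib]
          congr 1
          ring
      _ ≤ |infc d (pa θ (n₀ + N)) (g j) x - infc d (pa θ (n₀ + N)) (g j) y| +
          ∑ i ∈ range N, |avg (fun ε => sg (ε j) * (S i ε x - clp (B i) (S i ε x))) -
            avg (fun ε => sg (ε j) * (S i ε y - clp (B i) (S i ε y)))| :=
          (abs_add_le _ _).trans (add_le_add le_rfl (Finset.abs_sum_le_sum_abs _ _))
      _ ≤ d x y ^ θ / 4 + ∑ i ∈ range N, W i * (4 / (64 * C * k)) :=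
          add_le_add hlast (sum_le_sum fun i _ => hterm i)
      _ = d x y ^ θ / 4 + (∑ i ∈ range N, W i) * (4 / (64 * C * k)) := by rw [sum_mul]
      _ ≤ d x y ^ θ / 4 + (4 * C * k * d x y ^ θ) * (4 / (64 * C * k)) := by gcongr
      _ = d x y ^ θ / 2 := by
          field_simp
          ring

theorem sno_proof : SnoS.{u} := by
  intro θ h0 h1
  obtain ⟨C, hC1, hC⟩ := snm_proof θ h0 h1
  set L : ℝ := 2 * Real.log (64 * C) with hL
  have hlog64 : 1 ≤ Real.log (64 * C) := by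
    rw [Real.le_log_iff_exp_le (by positivity)]
    have := Real.exp_one_lt_d9
    linarith
  have hL0 : 0 < L := by rw [hL]; linarith
  refine ⟨max 1 (C * 2 ^ θ * (2 * 2 ^ θ) ^ (1 - θ) * L ^ ((1 - θ) / 2)), le_max_left _ _, ?_⟩
  intro M _ _ hM k hk g hg
  have hk0 : (0 : ℝ) < k := by exact_mod_cast hk
  have hk1 : (1 : ℝ) ≤ k := by exact_mod_cast hk
  have hlk : 0 ≤ Real.log k := Real.log_nonneg hk1
  have hTpos : 0 < 2 * Real.log (64 * C * k) := by
    have : Real.log (64 * C) ≤ Real.log (64 * C * k) :=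
      Real.log_le_log (by positivity) (le_mul_of_one_le_right (by positivity) hk1)
    linarith
  have hθ : 0 < 1 / θ := by positivity
  have hdθ : ∀ x y : M, (dist x y ^ (1 / θ)) ^ θ = dist x y := by
    intro x y
    rw [← Real.rpow_mul dist_nonneg, one_div, inv_mul_cancel₀ h0.ne', Real.rpow_one]
  obtain ⟨f, hf1, hf2⟩ := sno_core h0 h1 hC1 hC (fun x y : M => dist x y ^ (1 / θ))
    (fun x => by simp only [dist_self]; exact Real.zero_rpow hθ.ne')
    (fun x y => by simp only [dist_comm]) hM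
    (fun x y h => Real.rpow_pos_of_pos (dist_pos.mpr h) _) hk
    (Real.sqrt (2 * Real.log (64 * C * k))) (Real.sqrt_pos.mpr hTpos)
    (Real.sq_sqrt hTpos.le) g (fun j x y => by
      simp only [hdθ]
      exact hg j x y)
  simp only [hdθ] at hf1 hf2
  refine ⟨f, fun ε x y => (hf1 ε x y).trans ?_, hf2⟩
  refine mul_le_mul_of_nonneg_right ?_ dist_nonneg
  -- the constants
  have e1 : (2 * k : ℝ) ^ θ = 2 ^ θ * (k : ℝ) ^ θ := Real.mul_rpow (by norm_num) hk0.le
  have e2 : (2 * (Real.sqrt (2 * Real.log (64 * C * k)) * Real.sqrt k) * 2 ^ θ) ^ (1 - θ) =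
      (2 * 2 ^ θ) ^ (1 - θ) * (2 * Real.log (64 * C * k)) ^ ((1 - θ) / 2) *
        (k : ℝ) ^ ((1 - θ) / 2) := by
    have : 2 * (Real.sqrt (2 * Real.log (64 * C * k)) * Real.sqrt k) * 2 ^ θ =
        (2 * 2 ^ θ) * (Real.sqrt (2 * Real.log (64 * C * k)) * Real.sqrt k) := by ring
    rw [this, Real.mul_rpow (by positivity) (by positivity),
      Real.mul_rpow (Real.sqrt_nonneg _) (Real.sqrt_nonneg _), Real.sqrt_eq_rpow,
      Real.sqrt_eq_rpow, ← Real.rpow_mul hTpos.le, ← Real.rpow_mul hk0.le]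
    have e : (1 / 2 : ℝ) * (1 - θ) = (1 - θ) / 2 := by ring
    rw [e]
    ring
  have e3 : (k : ℝ) ^ θ * (k : ℝ) ^ ((1 - θ) / 2) = (k : ℝ) ^ ((1 + θ) / 2) := by
    rw [← Real.rpow_add hk0]; congr 1; ring
  have e4 : (2 * Real.log (64 * C * k)) ^ ((1 - θ) / 2) ≤
      L ^ ((1 - θ) / 2) * (1 + Real.log k) ^ ((1 - θ) / 2) := by
    rw [← Real.mul_rpow hL0.le (by linarith)]
    refine Real.rpow_le_rpow hTpos.le ?_ (by linarith)
    rw [Real.log_mul (by positivity) hk0.ne', hL]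
    nlinarith
  calc C * (2 * k : ℝ) ^ θ *
        (2 * (Real.sqrt (2 * Real.log (64 * C * k)) * Real.sqrt k) * 2 ^ θ) ^ (1 - θ)
      = C * 2 ^ θ * (2 * 2 ^ θ) ^ (1 - θ) * ((k : ℝ) ^ θ * (k : ℝ) ^ ((1 - θ) / 2)) *
          (2 * Real.log (64 * C * k)) ^ ((1 - θ) / 2) := by rw [e1, e2]; ring
    _ ≤ C * 2 ^ θ * (2 * 2 ^ θ) ^ (1 - θ) * ((k : ℝ) ^ θ * (k : ℝ) ^ ((1 - θ) / 2)) *
          (L ^ ((1 - θ) / 2) * (1 + Real.log k) ^ ((1 - θ) / 2)) := by gcongr
    _ = C * 2 ^ θ * (2 * 2 ^ θ) ^ (1 - θ) * L ^ ((1 - θ) / 2) * (k : ℝ) ^ ((1 + θ) / 2) *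
          (1 + Real.log k) ^ ((1 - θ) / 2) := by rw [e3]; ring
    _ ≤ max 1 (C * 2 ^ θ * (2 * 2 ^ θ) ^ (1 - θ) * L ^ ((1 - θ) / 2)) *
          (k : ℝ) ^ ((1 + θ) / 2) * (1 + Real.log k) ^ ((1 - θ) / 2) := by
        have : 0 ≤ (1 + Real.log k) ^ ((1 - θ) / 2) := by positivity
        gcongr
        exact le_max_right _ _

end LipSX
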