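import Pool.Agent.Lib.MP_3ede0b_an.SX.Iface

/-! Row SUB: the average norm of a signed sum does not increase for subfamilies. -/

namespace LipSX

open Finset

universe u

/-- the averages of a function of `ε ∘ σ` over `ε` and of the function itself agree -/
theorem sub_fiber {k n : ℕ} (σ : Fin n → Fin k) (hσ : Function.Injective σ)
    (F : (Fin n → Bool) → ℝ) :
    (∑ ε : Fin k → Bool, F (ε ∘ σ)) / 2 ^ k = (∑ η : Fin n → Bool, F η) / 2 ^ n := by
  classical
  have hcard : Fintype.card {i : Fin k // ¬ (i ∈ Set.range σ)} = k - n := by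
    rw [Fintype.card_subtype_compl]
    have h1 : Fintype.card {i : Fin k // i ∈ Set.range σ} = n := by
      have := Fintype.card_congr (Equiv.ofInjective σ hσ)
      rw [Fintype.card_fin] at this
      exact this.symm
    rw [h1, Fintype.card_fin]
  have hnk : n ≤ k := by
    have := Fintype.card_le_of_injective σ hσ
    simpa using this
  let e1 := Equiv.piEquivPiSubtypeProd (fun i : Fin k => i ∈ Set.range σ) (fun _ => Bool)
  let e2 : ({i : Fin k // i ∈ Set.range σ} → Bool) ≃ (Fin n → Bool) :=
    (Equiv.arrowCongr (Equiv.ofInjective σ hσ) (Equiv.refl Bool)).symm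
  have h1 : ∑ ε : Fin k → Bool, F (ε ∘ σ) =
      ∑ ab : ({i : Fin k // i ∈ Set.range σ} → Bool) × ({i : Fin k // ¬ (i ∈ Set.range σ)} → Bool),
        F (e2 ab.1) := by
    refine Fintype.sum_equiv e1 _ _ ?_
    intro ε
    congr 1
  rw [h1, Fintype.sum_prod_type]
  have h2 : ∀ a : ({i : Fin k // i ∈ Set.range σ} → Bool),
      ∑ _b : ({i : Fin k // ¬ (i ∈ Set.range σ)} → Bool), F (e2 a) =
        (2 : ℝ) ^ (k - n) * F (e2 a) := by
    intro a
    rw [Finset.sum_const, nsmul_eq_mul, Finset.card_univ, Fintype.card_fun, hcard,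
      Fintype.card_bool]
    push_cast
    rfl
  simp only [h2]
  rw [← Finset.mul_sum, Equiv.sum_comp e2 F]
  have h3 : (2 : ℝ) ^ k = 2 ^ (k - n) * 2 ^ n := by
    rw [← pow_add]
    congr 1
    omega
  rw [h3]
  field_simp

theorem sub : SubS.{u} := by
  classical
  intro E _ _ k n x σ hσ
  set s : Bool → ℝ := fun b => if b then (1 : ℝ) else -1 with hs
  -- the sum over the range of `σ`
  have key : signAvg (x ∘ σ) =
      (∑ ε : Fin k → Bool, ‖∑ j : Fin n, s (ε (σ j)) • x (σ j)‖) / 2 ^ k := by
    have := sub_fiber σ hσ (fun η => ‖∑ j : Fin n, s (η j) • x (σ j)‖)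
    unfold signAvg
    simp only [Function.comp_apply] at this ⊢
    exact this.symm
  -- flipping the signs outside of the range
  let fl : (Fin k → Bool) → (Fin k → Bool) := fun ε i => if i ∈ Set.range σ then ε i else !(ε i)
  have hfl : Function.Involutive fl := by
    intro ε
    funext i
    by_cases h : i ∈ Set.range σ
    · simp only [fl, if_pos h]
    · simp only [fl, if_neg h, Bool.not_not]
  have hsum : ∀ ε : Fin k → Bool,
      (∑ i, s (ε i) • x i) + (∑ i, s (fl ε i) • x i) =
        (2 : ℝ) • ∑ j : Fin n, s (ε (σ j)) • x (σ j) := by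
    intro ε
    have himg : ∑ j : Fin n, s (ε (σ j)) • x (σ j) =
        ∑ i, if i ∈ Set.range σ then s (ε i) • x i else 0 := by
      rw [← Finset.sum_filter]
      have : (Finset.univ.filter fun i : Fin k => i ∈ Set.range σ) = Finset.univ.image σ := by
        ext i
        simp
      rw [this, Finset.sum_image (fun a _ b _ h => hσ h)]
    rw [himg, Finset.smul_sum, ← Finset.sum_add_distrib]
    refine Finset.sum_congr rfl ?_
    intro i _
    by_cases h : i ∈ Set.range σ
    · simp only [fl, if_pos h]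
      rw [← two_smul ℝ (s (ε i) • x i)]
    · simp only [fl, if_neg h]
      rw [← add_smul]
      have : s (ε i) + s (!(ε i)) = 0 := by
        cases ε i <;> simp [hs]
      rw [this, zero_smul, smul_zero]
  have hle : ∀ ε : Fin k → Bool, 2 * ‖∑ j : Fin n, s (ε (σ j)) • x (σ j)‖ ≤
      ‖∑ i, s (ε i) • x i‖ + ‖∑ i, s (fl ε i) • x i‖ := by
    intro ε
    have h1 := norm_add_le (∑ i, s (ε i) • x i) (∑ i, s (fl ε i) • x i)
    rw [hsum ε, norm_smul] at h1
    simpa using h1
  have hinv : ∑ ε : Fin k → Bool, ‖∑ i, s (fl ε i) • x i‖ =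
      ∑ ε : Fin k → Bool, ‖∑ i, s (ε i) • x i‖ :=
    Equiv.sum_comp (hfl.toPerm fl) (fun ε => ‖∑ i, s (ε i) • x i‖)
  rw [key]
  unfold signAvg
  refine div_le_div_of_nonneg_right ?_ (by positivity)
  have h2 := Finset.sum_le_sum (fun ε (_ : ε ∈ (Finset.univ : Finset (Fin k → Bool))) => hle ε)
  rw [← Finset.mul_sum, Finset.sum_add_distrib, hinv] at h2
  linarith

end LipSX
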