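import Pool.Agent.Lib.MP_3ede0b_an.SX.Conc

/-! Row TYP: the type of the dual of a `q`-convex space. -/

namespace LipSX

open Finset LipFree LipRad

universe u

namespace Typp

section
variable {X : Type u} [AddCommGroup X] [Module ℝ X]

/-- the mean of a vector valued function -/
noncomputable def vavg {k : ℕ} (h : (Fin k → Bool) → X) : X := ((2 : ℝ) ^ k)⁻¹ • ∑ ε, h ε

/-- the first order coefficients -/
noncomputable def hat {k : ℕ} (h : (Fin k → Bool) → X) (j : Fin k) : X :=
  vavg (fun ε => LipRad.sg (ε j) • h ε)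

theorem vavg_succ {k : ℕ} (h : (Fin (k + 1) → Bool) → X) :
    vavg h = vavg (fun ε : Fin k → Bool =>
      (1 / 2 : ℝ) • (h (Fin.cons true ε) + h (Fin.cons false ε))) := by
  have h1 : ∑ ε : Fin (k + 1) → Bool, h ε = ∑ ε : Fin k → Bool, h (Fin.cons true ε) +
      ∑ ε : Fin k → Bool, h (Fin.cons false ε) := by
    rw [← Equiv.sum_comp (Fin.consEquiv (fun _ : Fin (k + 1) => Bool)), Fintype.sum_prod_type,
      Fintype.sum_bool]
    rfl
  unfold vavg
  rw [h1, ← smul_sum, sum_add_distrib, smul_smul]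
  congr 1
  rw [pow_succ, mul_inv]
  norm_num

theorem jensen (N : Seminorm ℝ X) {q : ℝ} (hq : 1 ≤ q) {k : ℕ} (h : (Fin k → Bool) → X) :
    N (vavg h) ^ q ≤ avg (fun ε => N (h ε) ^ q) := by
  have hk : (0 : ℝ) < 2 ^ k := by positivity
  have h1 : N (vavg h) ≤ ∑ ε, ((2 : ℝ) ^ k)⁻¹ * N (h ε) := by
    unfold vavg
    rw [smul_sum]
    refine (Finset.le_sum_of_subadditive N (map_zero N).le (map_add_le_add N) _ _).trans ?_
    refine sum_le_sum fun ε _ => ?_
    rw [map_smul_eq_mul, Real.norm_eq_abs, abs_of_nonneg (by positivity)]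
  have h2 : (∑ ε : Fin k → Bool, ((2 : ℝ) ^ k)⁻¹) = 1 := by
    rw [sum_const, card_univ, Fintype.card_fun, Fintype.card_bool, Fintype.card_fin, nsmul_eq_mul]
    push_cast
    exact mul_inv_cancel₀ hk.ne'
  have h3 := Real.rpow_arith_mean_le_arith_mean_rpow (univ : Finset (Fin k → Bool))
    (fun _ => ((2 : ℝ) ^ k)⁻¹) (fun ε => N (h ε)) (fun _ _ => by positivity) h2
    (fun ε _ => apply_nonneg N (h ε)) hq
  have h4 : avg (fun ε => N (h ε) ^ q) = ∑ ε, ((2 : ℝ) ^ k)⁻¹ * N (h ε) ^ q := by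
    unfold avg
    rw [sum_div]
    refine sum_congr rfl fun ε _ => ?_
    rw [div_eq_mul_inv, mul_comm]
  rw [h4]
  refine le_trans ?_ h3
  exact Real.rpow_le_rpow (apply_nonneg N _) h1 (by linarith)

theorem main (N : Seminorm ℝ X) {q c : ℝ} (hq : 1 < q) (hc : 0 < c) (hN : QConvex N q c) :
    ∀ (k : ℕ) (h : (Fin k → Bool) → X),
      c / 2 * ∑ j, N (hat h j) ^ q + N (vavg h) ^ q ≤ avg (fun ε => N (h ε) ^ q) := by
  intro k
  induction k with
  | zero =>
    intro h
    rw [Fintype.sum_empty, mul_zero, zero_add]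
    exact jensen N hq.le h
  | succ k ih =>
    intro h
    set a : (Fin k → Bool) → X := fun ε =>
      (1 / 2 : ℝ) • (h (Fin.cons true ε) + h (Fin.cons false ε)) with ha
    set d : (Fin k → Bool) → X := fun ε =>
      (1 / 2 : ℝ) • (h (Fin.cons true ε) - h (Fin.cons false ε)) with hd
    have h1 := ih a
    have h2 : vavg h = vavg a := vavg_succ h
    have h3 : hat h 0 = vavg d := by
      unfold hat
      rw [vavg_succ]
      congr 1
      funext ε
      simp only [hd, Fin.cons_zero, LipRad.sg, if_true, one_smul]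
      norm_num
      module
    have h4 : ∀ j : Fin k, hat h j.succ = hat a j := by
      intro j
      unfold hat
      rw [vavg_succ]
      congr 1
      funext ε
      simp only [ha, Fin.cons_succ]
      rw [← smul_add, smul_comm]
    have h5 : ∀ ε, 2 * N (a ε) ^ q + c * N (d ε) ^ q ≤
        N (h (Fin.cons true ε)) ^ q + N (h (Fin.cons false ε)) ^ q := by
      intro ε
      have h6 := hN (a ε) (d ε)
      have h7 : a ε + d ε = h (Fin.cons true ε) := by
        simp only [ha, hd]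
        module
      have h8 : a ε - d ε = h (Fin.cons false ε) := by
        simp only [ha, hd]
        module
      rwa [h7, h8] at h6
    have h6 : avg (fun ε => N (a ε) ^ q) + c / 2 * avg (fun ε => N (d ε) ^ q) ≤
        avg (fun ε => N (h ε) ^ q) := by
      rw [Cnc.avg_succ]
      have h7 : ∑ ε, (2 * N (a ε) ^ q + c * N (d ε) ^ q) ≤
          ∑ ε, (N (h (Fin.cons true ε)) ^ q + N (h (Fin.cons false ε)) ^ q) :=
        sum_le_sum fun ε _ => h5 ε
      rw [sum_add_distrib, sum_add_distrib, ← mul_sum, ← mul_sum] at h7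
      unfold avg
      have hk : (0 : ℝ) < 2 ^ k := by positivity
      rw [← add_div, ← mul_div_assoc, ← add_div, div_div, div_le_div_iff₀ hk (by positivity)]
      nlinarith
    have h7 : N (vavg d) ^ q ≤ avg (fun ε => N (d ε) ^ q) := jensen N hq.le d
    rw [Fin.sum_univ_succ, h3, h2]
    have h8 : ∑ j : Fin k, N (hat h j.succ) ^ q = ∑ j, N (hat a j) ^ q :=
      sum_congr rfl fun j _ => by rw [h4 j]
    rw [h8]
    have h9 : c / 2 * N (vavg d) ^ q ≤ c / 2 * avg (fun ε => N (d ε) ^ q) :=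
      mul_le_mul_of_nonneg_left h7 (by positivity)
    linarith

end

end Typp

theorem typ : TypS.{u} := by
  intro X _ _ N q c b hq hc hb hN1 hN2 hQ k v hv
  have hq0 : (0 : ℝ) < q := by linarith
  refine le_of_forall_pos_le_add fun η hη => ?_
  have hex : ∀ ε : Fin k → Bool, ∃ x : X, ‖x‖ ≤ 1 ∧
      ‖∑ j, LipRad.sg (ε j) • v j‖ - η ≤ (∑ j, LipRad.sg (ε j) • v j) x := by
    intro ε
    obtain ⟨x, hx1, hx2⟩ := (∑ j, LipRad.sg (ε j) • v j).exists_lt_apply_of_lt_opNorm
      (r := ‖∑ j, LipRad.sg (ε j) • v j‖ - η) (by linarith)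
    rcases le_total 0 ((∑ j, LipRad.sg (ε j) • v j) x) with h | h
    · rw [Real.norm_eq_abs, abs_of_nonneg h] at hx2
      exact ⟨x, hx1.le, hx2.le⟩
    · rw [Real.norm_eq_abs, abs_of_nonpos h] at hx2
      refine ⟨-x, by rw [norm_neg]; exact hx1.le, ?_⟩
      rw [map_neg]; exact hx2.le
  choose h hh1 hh2 using hex
  have hk : (0 : ℝ) < 2 ^ k := by positivity
  have h1 : avg (fun ε => ‖∑ j, LipRad.sg (ε j) • v j‖) ≤
      avg (fun ε => (∑ j, LipRad.sg (ε j) • v j) (h ε)) + η := by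
    unfold avg
    have h2 : ∑ ε : Fin k → Bool, ‖∑ j, LipRad.sg (ε j) • v j‖ ≤
        ∑ ε : Fin k → Bool, ((∑ j, LipRad.sg (ε j) • v j) (h ε)) + η * 2 ^ k := by
      have h3 : ∑ ε : Fin k → Bool, ‖∑ j, LipRad.sg (ε j) • v j‖ ≤
          ∑ ε : Fin k → Bool, ((∑ j, LipRad.sg (ε j) • v j) (h ε) + η) :=
        sum_le_sum fun ε _ => by linarith [hh2 ε]
      have h4 : ∑ _ε : Fin k → Bool, η = η * 2 ^ k := by
        rw [sum_const, card_univ, Fintype.card_fun, Fintype.card_bool,
          Fintype.card_fin, nsmul_eq_mul]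
        push_cast
        ring
      rw [sum_add_distrib, h4] at h3
      exact h3
    rw [div_add' _ _ _ hk.ne']
    exact div_le_div_of_nonneg_right h2 hk.le
  have h2 : avg (fun ε => (∑ j, LipRad.sg (ε j) • v j) (h ε)) = ∑ j, v j (Typp.hat h j) := by
    unfold avg Typp.hat Typp.vavg
    simp only [ContinuousLinearMap.sum_apply, ContinuousLinearMap.smul_apply, map_smul, map_sum,
      smul_eq_mul]
    rw [sum_comm, ← mul_sum, div_eq_mul_inv, mul_comm]
  have h3 : ∑ j, v j (Typp.hat h j) ≤ ∑ j, N (Typp.hat h j) := by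
    refine sum_le_sum fun j _ => ?_
    calc v j (Typp.hat h j) ≤ ‖v j (Typp.hat h j)‖ := Real.le_norm_self _
      _ ≤ ‖v j‖ * ‖Typp.hat h j‖ := (v j).le_opNorm _
      _ ≤ 1 * ‖Typp.hat h j‖ := mul_le_mul_of_nonneg_right (hv j) (norm_nonneg _)
      _ ≤ N (Typp.hat h j) := by rw [one_mul]; exact hN1 _
  have h4 : ∑ j, N (Typp.hat h j) ^ q ≤ 2 / c * b ^ q := by
    have h5 := Typp.main N hq hc hQ k h
    have h6 : avg (fun ε => N (h ε) ^ q) ≤ b ^ q := by
      unfold avg
      rw [div_le_iff₀ hk]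
      have h7 : ∑ ε : Fin k → Bool, N (h ε) ^ q ≤ ∑ _ε : Fin k → Bool, b ^ q := by
        refine sum_le_sum fun ε _ => ?_
        refine Real.rpow_le_rpow (apply_nonneg N _) ?_ hq0.le
        exact (hN2 _).trans (mul_le_of_le_one_right hb (hh1 ε))
      rw [sum_const, card_univ, Fintype.card_fun, Fintype.card_bool,
        Fintype.card_fin, nsmul_eq_mul] at h7
      push_cast at h7
      linarith
    have h7 : 0 ≤ N (Typp.vavg h) ^ q := Real.rpow_nonneg (apply_nonneg N _) _
    have h8 : c / 2 * ∑ j, N (Typp.hat h j) ^ q ≤ b ^ q := by linarith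
    rw [div_mul_eq_mul_div, le_div_iff₀ hc]
    linarith
  have h5 : (∑ j, N (Typp.hat h j)) ^ q ≤ (k : ℝ) ^ (q - 1) * (2 / c * b ^ q) := by
    have h6 := Real.rpow_sum_le_const_mul_sum_rpow (univ : Finset (Fin k))
      (fun j => N (Typp.hat h j)) hq.le
    simp only [abs_of_nonneg (apply_nonneg N _), card_univ, Fintype.card_fin] at h6
    exact h6.trans (mul_le_mul_of_nonneg_left h4 (Real.rpow_nonneg (Nat.cast_nonneg _) _))
  have hS0 : 0 ≤ ∑ j, N (Typp.hat h j) := sum_nonneg fun j _ => apply_nonneg N _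
  have h6 : ∑ j, N (Typp.hat h j) ≤ b * (2 / c) ^ (1 / q) * (k : ℝ) ^ (1 - 1 / q) := by
    have h7 := Real.rpow_le_rpow (Real.rpow_nonneg hS0 q) h5 (by positivity : 0 ≤ 1 / q)
    rw [← Real.rpow_mul hS0, mul_one_div_cancel hq0.ne', Real.rpow_one] at h7
    refine h7.trans (le_of_eq ?_)
    have hk0 : (0 : ℝ) ≤ k := Nat.cast_nonneg _
    rw [Real.mul_rpow (Real.rpow_nonneg hk0 _) (by positivity),
      Real.mul_rpow (by positivity) (Real.rpow_nonneg hb _), ← Real.rpow_mul hk0,
      ← Real.rpow_mul hb, mul_one_div_cancel hq0.ne', Real.rpow_one]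
    have h8 : (q - 1) * (1 / q) = 1 - 1 / q := by
      field_simp
    rw [h8]
    ring
  linarith [h1, h2.le, h3, h6]

end LipSX
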